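import Pool.Agent.MP_ec20d8_an.Defs

-- part MP_ec20d8_an.Kernel
section

/-!
The regularised Newton kernel in three dimensions.
-/

open MeasureTheory Filter Topology Real Set
open scoped RealInnerProductSpace

namespace Pool.Agent.MP_ec20d8_an

/-- Euclidean three-space. -/
abbrev E3 := EuclideanSpace ℝ (Fin 3)

/-- Coordinate derivative. -/
noncomputable def pd (i : Fin 3) (f : E3 → ℝ) (y : E3) : ℝ :=
  fderiv ℝ f y (EuclideanSpace.single i 1)

/-- Regularised inverse distance. -/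
noncomputable def ww (δ : ℝ) (z : E3) : ℝ := (√(‖z‖ ^ 2 + δ ^ 2))⁻¹

/-- The constant `1 / (4 π)`. -/
noncomputable def c4 : ℝ := (4 * π)⁻¹

/-- Regularised Newton kernel. -/
noncomputable def Gm (δ : ℝ) (z : E3) : ℝ := c4 * ww δ z

/-- Its gradient. -/
noncomputable def gg (δ : ℝ) (i : Fin 3) (z : E3) : ℝ := -(c4 * ww δ z ^ 3 * z i)

/-- Minus its Laplacian. -/
noncomputable def rr (δ : ℝ) (z : E3) : ℝ := 3 * δ ^ 2 * c4 * ww δ z ^ 5

theorem c4_pos : 0 < c4 := by unfold c4; positivity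

theorem ww_zero (z : E3) : ww 0 z = ‖z‖⁻¹ := by simp [ww]

theorem ww_nonneg (δ : ℝ) (z : E3) : 0 ≤ ww δ z := by unfold ww; positivity

theorem norm_mul_ww (δ : ℝ) (z : E3) : ‖z‖ * ww δ z ≤ 1 :=
  mul_inv_le_one_of_le₀ (Real.le_sqrt_of_sq_le (by nlinarith [sq_nonneg δ])) (sqrt_nonneg _)

theorem mul_ww (δ : ℝ) (z : E3) : δ * ww δ z ≤ 1 :=
  mul_inv_le_one_of_le₀ (Real.le_sqrt_of_sq_le (by nlinarith [sq_nonneg ‖z‖])) (sqrt_nonneg _)

theorem ww_le (δ : ℝ) {z : E3} (hz : z ≠ 0) : ww δ z ≤ ‖z‖⁻¹ := by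
  rw [← mul_one ‖z‖⁻¹, le_inv_mul_iff₀ (norm_pos_iff.2 hz)]
  exact norm_mul_ww δ z

theorem ww_sq {δ : ℝ} (hδ : δ ≠ 0) (z : E3) : ww δ z ^ 2 * (‖z‖ ^ 2 + δ ^ 2) = 1 := by
  have : 0 < ‖z‖ ^ 2 + δ ^ 2 := by positivity
  rw [ww, inv_pow, sq_sqrt this.le, inv_mul_cancel₀ this.ne']

@[fun_prop]
theorem measurable_ww (δ : ℝ) : Measurable (ww δ) := by unfold ww; fun_prop

@[fun_prop]
theorem measurable_Gm (δ : ℝ) : Measurable (Gm δ) := by unfold Gm; fun_prop

@[fun_prop]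
theorem measurable_gg (δ : ℝ) (i : Fin 3) : Measurable (gg δ i) := by unfold gg; fun_prop

@[fun_prop]
theorem measurable_rr (δ : ℝ) : Measurable (rr δ) := by unfold rr; fun_prop

theorem contDiff_ww {δ : ℝ} (hδ : δ ≠ 0) : ContDiff ℝ 1 (ww δ) := by
  have h : ∀ z : E3, 0 < ‖z‖ ^ 2 + δ ^ 2 := fun z => by positivity
  exact (((contDiff_norm_sq ℝ).add contDiff_const).sqrt fun z => (h z).ne').inv
    fun z => (sqrt_pos.2 (h z)).ne'

theorem contDiff_Gm {δ : ℝ} (hδ : δ ≠ 0) (x : E3) : ContDiff ℝ 1 fun y => Gm δ (y - x) :=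
  contDiff_const.mul ((contDiff_ww hδ).comp (contDiff_id.sub contDiff_const))

theorem contDiff_gg {δ : ℝ} (hδ : δ ≠ 0) (i : Fin 3) (x : E3) :
    ContDiff ℝ 1 fun y => gg δ i (y - x) := by
  have := (contDiff_ww hδ).comp (contDiff_id.sub (contDiff_const (c := x)))
  refine ((contDiff_const.mul (this.pow 3)).mul ?_).neg
  fun_prop

theorem hasFDerivAt_ww {δ : ℝ} (hδ : δ ≠ 0) (z : E3) :
    HasFDerivAt (ww δ) (-(ww δ z ^ 3) • innerSL ℝ z) z := by
  have h : 0 < ‖z‖ ^ 2 + δ ^ 2 := by positivity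
  have h1 := ((hasStrictFDerivAt_norm_sq z).hasFDerivAt.add_const (δ ^ 2)).sqrt h.ne'
  have h2 := (hasDerivAt_inv (sqrt_pos.2 h).ne').comp_hasFDerivAt z h1
  refine h2.congr_fderiv ?_
  ext v
  have := sqrt_pos.2 h
  simp only [ww, smul_apply, smul_eq_mul, nsmul_eq_mul]
  field_simp
  norm_num

theorem hasFDerivAt_ww' {δ : ℝ} (hδ : δ ≠ 0) (x y : E3) :
    HasFDerivAt (fun y => ww δ (y - x)) (-(ww δ (y - x) ^ 3) • innerSL ℝ (y - x)) y := by
  have := (hasFDerivAt_ww hδ (y - x)).comp y ((hasFDerivAt_id y).sub_const x)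
  rwa [ContinuousLinearMap.comp_id] at this

theorem pd_ww {δ : ℝ} (hδ : δ ≠ 0) (i : Fin 3) (x y : E3) :
    pd i (fun y => ww δ (y - x)) y = -(ww δ (y - x) ^ 3 * (y - x) i) := by
  rw [pd, (hasFDerivAt_ww' hδ x y).fderiv]
  simp [EuclideanSpace.inner_single_right]

theorem pd_Gm {δ : ℝ} (hδ : δ ≠ 0) (i : Fin 3) (x y : E3) :
    pd i (fun y => Gm δ (y - x)) y = gg δ i (y - x) := by
  rw [pd, show (fun y => Gm δ (y - x)) = fun y => c4 * ww δ (y - x) from rfl,
    ((hasFDerivAt_ww' hδ x y).const_mul c4).fderiv]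
  simp [EuclideanSpace.inner_single_right, gg, mul_assoc]

theorem pd_gg {δ : ℝ} (hδ : δ ≠ 0) (i : Fin 3) (x y : E3) :
    pd i (fun y => gg δ i (y - x)) y =
      c4 * (3 * ww δ (y - x) ^ 5 * (y - x) i ^ 2 - ww δ (y - x) ^ 3) := by
  have h1 : HasFDerivAt (fun y : E3 => (y - x) i) (EuclideanSpace.proj i : E3 →L[ℝ] ℝ) y := by
    simpa using (EuclideanSpace.proj i : E3 →L[ℝ] ℝ).hasFDerivAt.sub_const (x i)
  have h2 := ((((hasFDerivAt_ww' hδ x y).pow 3).const_mul c4).fun_mul h1).fun_neg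
  rw [pd, show (fun y => gg δ i (y - x)) = fun y => -(c4 * ww δ (y - x) ^ 3 * (y - x) i) from rfl,
    h2.fderiv]
  simp [EuclideanSpace.inner_single_right]
  ring

theorem sum_pd_gg {δ : ℝ} (hδ : δ ≠ 0) (x y : E3) :
    ∑ i, pd i (fun y => gg δ i (y - x)) y = -rr δ (y - x) := by
  simp only [pd_gg hδ, Fin.sum_univ_three, rr]
  have h1 := ww_sq hδ (y - x)
  rw [EuclideanSpace.real_norm_sq_eq, Fin.sum_univ_three] at h1
  linear_combination (3 * c4 * ww δ (y - x) ^ 3) * h1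

theorem abs_coord_le (z : E3) (i : Fin 3) : |z i| ≤ ‖z‖ := PiLp.norm_apply_le z i

theorem abs_gg_le (δ : ℝ) (i : Fin 3) (z : E3) : |gg δ i z| ≤ c4 * ‖z‖⁻¹ ^ 2 := by
  have h0 := ww_nonneg δ z
  have hc := c4_pos
  rcases eq_or_ne z 0 with rfl | hz
  · simp [gg]
  rw [gg, abs_neg, abs_mul, abs_of_nonneg (by positivity), mul_assoc]
  gcongr
  calc ww δ z ^ 3 * |z i| ≤ ww δ z ^ 3 * ‖z‖ := by gcongr; exact abs_coord_le z i
    _ = ww δ z ^ 2 * (‖z‖ * ww δ z) := by ring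
    _ ≤ ‖z‖⁻¹ ^ 2 * 1 := by gcongr; exacts [ww_le δ hz, norm_mul_ww δ z]
    _ = _ := mul_one _

theorem abs_Gm_le (δ : ℝ) {z : E3} (hz : z ≠ 0) : |Gm δ z| ≤ c4 * ‖z‖⁻¹ := by
  have h0 := ww_nonneg δ z
  have hc := c4_pos
  rw [Gm, abs_of_nonneg (by positivity)]
  gcongr
  exact ww_le δ hz

theorem tendsto_ww {z : E3} (hz : z ≠ 0) : Tendsto (fun δ => ww δ z) (𝓝[>] 0) (𝓝 (ww 0 z)) := by
  refine tendsto_nhdsWithin_of_tendsto_nhds (ContinuousAt.tendsto ?_)
  exact ContinuousAt.inv₀ (by fun_prop) (by simpa using hz)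

theorem tendsto_Gm {z : E3} (hz : z ≠ 0) : Tendsto (fun δ => Gm δ z) (𝓝[>] 0) (𝓝 (Gm 0 z)) :=
  (tendsto_ww hz).const_mul _

theorem tendsto_gg (i : Fin 3) {z : E3} (hz : z ≠ 0) :
    Tendsto (fun δ => gg δ i z) (𝓝[>] 0) (𝓝 (gg 0 i z)) :=
  ((((tendsto_ww hz).pow 3).const_mul _).mul_const _).neg

theorem rr_nonneg (δ : ℝ) (z : E3) : 0 ≤ rr δ z := by
  have h0 := ww_nonneg δ z
  have hc := c4_pos
  unfold rr
  positivity

theorem ww_smul {δ : ℝ} (hδ : 0 < δ) (z : E3) : ww δ (δ • z) = δ⁻¹ * ww 1 z := by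
  rw [ww, ww, norm_smul, Real.norm_of_nonneg hδ.le, ← mul_inv,
    show (δ * ‖z‖) ^ 2 + δ ^ 2 = δ ^ 2 * (‖z‖ ^ 2 + 1 ^ 2) by ring, sqrt_mul (sq_nonneg δ),
    sqrt_sq hδ.le]

theorem rr_one : Integrable (rr 1) ∧ ∫ z, rr 1 z = 1 := by
  let f : ℝ → ℝ := fun t => 3 * c4 * (√(t ^ 2 + 1))⁻¹ ^ 5
  have hf : rr 1 = fun z => f ‖z‖ := by
    ext z
    simp [rr, ww, f]
  have hd : ∀ t ∈ Ici (0 : ℝ), HasDerivAt (fun t : ℝ => c4 * (t * (√(t ^ 2 + 1))⁻¹) ^ 3)
      (t ^ 2 * f t) t := by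
    intro t _
    have h : 0 < t ^ 2 + 1 := by positivity
    have h0 := sqrt_pos.2 h
    have h1 := (((hasDerivAt_pow 2 t).add_const 1).sqrt h.ne').fun_inv h0.ne'
    refine ((((hasDerivAt_id t).fun_mul h1).fun_pow 3).const_mul c4).congr_deriv ?_
    have h2 := sq_sqrt h.le
    simp only [f, id]
    generalize √(t ^ 2 + 1) = u at h0 h2
    norm_num
    field_simp
    rw [h2]
    ring
  have hp : ∀ t ∈ Ioi (0 : ℝ), 0 ≤ t ^ 2 * f t := fun t _ => by
    have := c4_pos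
    simp only [f]
    positivity
  have hl : Tendsto (fun t : ℝ => c4 * (t * (√(t ^ 2 + 1))⁻¹) ^ 3) atTop (𝓝 c4) := by
    have h1 : Tendsto (fun t : ℝ => (√(1 + t⁻¹ ^ 2))⁻¹) atTop (𝓝 1) := by
      have := ((tendsto_inv_atTop_zero (𝕜 := ℝ)).pow 2).const_add 1 |>.sqrt |>.inv₀ (by simp)
      simpa using this
    have h2 : (fun t : ℝ => (√(1 + t⁻¹ ^ 2))⁻¹) =ᶠ[atTop] fun t => t * (√(t ^ 2 + 1))⁻¹ := by
      filter_upwards [eventually_gt_atTop 0] with t ht
      rw [show t ^ 2 + 1 = t ^ 2 * (1 + t⁻¹ ^ 2) by field_simp, sqrt_mul (sq_nonneg t),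
        sqrt_sq ht.le, mul_inv, mul_inv_cancel_left₀ ht.ne']
    simpa using ((h1.congr' h2).pow 3).const_mul c4
  rw [hf]
  constructor
  · rw [integrable_fun_norm_addHaar]
    simpa using integrableOn_Ioi_deriv_of_nonneg' hd hp hl
  · rw [integral_fun_norm_addHaar]
    have := integral_Ioi_of_hasDerivAt_of_nonneg' hd hp hl
    simp only [finrank_euclideanSpace, Fintype.card_fin, Nat.add_one_sub_one, smul_eq_mul, this,
      Measure.real, EuclideanSpace.volume_ball_fin_three]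
    rw [ENNReal.toReal_mul, ENNReal.toReal_ofReal (by positivity)]
    simp [c4]
    field_simp

/-- The approximate identity. -/
theorem tendsto_rr {f f₀ : E3 → ℝ} (hf : Measurable f) {C : ℝ} (hC : ∀ y, |f y| ≤ C) (x : E3)
    (h : ∀ᵐ z, Tendsto (fun δ : ℝ => f (x + δ • z)) (𝓝[>] 0) (𝓝 (f₀ z))) :
    Tendsto (fun δ => ∫ y, f y * rr δ (y - x)) (𝓝[>] 0) (𝓝 (∫ z, f₀ z * rr 1 z)) := by
  have h1 : (fun δ : ℝ => ∫ z, f (x + δ • z) * rr 1 z) =ᶠ[𝓝[>] 0]
      fun δ => ∫ y, f y * rr δ (y - x) := by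
    filter_upwards [self_mem_nhdsWithin] with δ (hδ : 0 < δ)
    rw [← integral_add_left_eq_self (fun y => f y * rr δ (y - x)) x]
    have := Measure.integral_comp_smul_of_nonneg volume
      (fun y : E3 => δ ^ 3 * (f (x + y) * rr δ (x + y - x))) δ (hR := hδ.le)
    simp only [finrank_euclideanSpace, Fintype.card_fin, smul_eq_mul] at this
    rw [integral_const_mul (δ ^ 3) fun y => f (x + y) * rr δ (x + y - x),
      inv_mul_cancel_left₀ (by positivity)] at this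
    rw [← this]
    congr 1
    ext z
    simp only [add_sub_cancel_left, rr, ww_smul hδ]
    field_simp
  refine Tendsto.congr' h1 (tendsto_integral_filter_of_dominated_convergence
    (fun z => C * rr 1 z) (.of_forall fun δ => Measurable.aestronglyMeasurable (by fun_prop))
    (.of_forall fun δ => .of_forall fun z => ?_) (rr_one.1.const_mul C)
    (h.mono fun z hz => hz.mul_const _))
  rw [norm_mul, Real.norm_of_nonneg (rr_nonneg _ _)]
  exact mul_le_mul_of_nonneg_right (hC _) (rr_nonneg _ _)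

theorem ae_inner_ne {n : E3} (hn : n ≠ 0) : ∀ᵐ z : E3, ⟪n, z⟫ ≠ 0 := by
  have := Measure.addHaar_submodule (volume : Measure E3) (LinearMap.ker (innerSL ℝ n).toLinearMap)
    fun h => hn (inner_self_eq_zero (𝕜 := ℝ).1 (LinearMap.ker_eq_top.1 h ▸ rfl :
      (innerSL ℝ n).toLinearMap n = 0))
  exact (measure_eq_zero_iff_ae_notMem.1 this).mono fun z hz => hz

theorem half_rr {n : E3} (hn : n ≠ 0) :
    ∫ z, {z : E3 | ⟪n, z⟫ < 0}.indicator (fun _ => (1 : ℝ)) z * rr 1 z = 1 / 2 := by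
  set f : E3 → ℝ := fun z => {z : E3 | ⟪n, z⟫ < 0}.indicator (fun _ => (1 : ℝ)) z * rr 1 z
  have hi : Integrable f := by
    refine rr_one.1.bdd_mul (c := 1) (Measurable.aestronglyMeasurable
      (measurable_const.indicator (measurableSet_lt (by fun_prop) measurable_const)))
      (.of_forall fun z => ?_)
    simp only [indicator]
    split_ifs <;> simp
  have h0 := ae_inner_ne hn
  have h1 : ∫ z, f z + f (-z) = 1 := by
    rw [← rr_one.2]
    refine integral_congr_ae (h0.mono fun z hz => ?_)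
    have : rr 1 (-z) = rr 1 z := by simp [rr, ww]
    simp only [f, this, indicator, mem_ofPred_eq, inner_neg_right]
    rcases lt_or_gt_of_ne hz with h | h
    · rw [if_pos h, if_neg (by linarith)]; ring
    · rw [if_neg (by linarith), if_pos (by linarith)]; ring
  rw [integral_add hi hi.comp_neg, integral_neg_eq_self] at h1
  linarith

/-- A majorant for the Riesz composition. -/
noncomputable def hr (r : ℝ) (z : E3) : ℝ := ‖z‖⁻¹ ^ 2 * (r ^ 2 + ‖z‖ ^ 2)⁻¹

theorem hr_nonneg (r : ℝ) (z : E3) : 0 ≤ hr r z := by unfold hr; positivity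

theorem hr_one : Integrable (hr 1) := by
  refine (integrable_fun_norm_addHaar volume
    (f := fun t : ℝ => t⁻¹ ^ 2 * (1 ^ 2 + t ^ 2)⁻¹)).2 ?_
  refine (integrable_inv_one_add_sq.integrableOn (s := Ioi 0)).congr_fun (fun t ht => ?_)
    measurableSet_Ioi
  have : t ≠ 0 := ne_of_gt ht
  simp only [finrank_euclideanSpace, Fintype.card_fin, Nat.add_one_sub_one, smul_eq_mul]
  field_simp

theorem hr_int {r : ℝ} (h : 0 < r) (x : E3) :
    Integrable (fun y => hr r (y - x)) ∧ ∫ y, hr r (y - x) = r⁻¹ * ∫ z, hr 1 z := by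
  have e : hr r = fun z => r⁻¹ ^ 4 * hr 1 (r⁻¹ • z) := by
    ext z
    rcases eq_or_ne z 0 with rfl | hz
    · simp [hr]
    have := norm_pos_iff.2 hz
    simp only [hr, norm_smul, norm_inv, Real.norm_of_nonneg h.le]
    field_simp
  refine ⟨Integrable.comp_sub_right ?_ x, ?_⟩
  · rw [e]
    exact (hr_one.comp_smul (inv_pos.2 h).ne').const_mul _
  · rw [integral_sub_right_eq_self (hr r) x, e, integral_const_mul,
      Measure.integral_comp_inv_smul_of_nonneg _ _ h.le]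
    simp only [finrank_euclideanSpace, Fintype.card_fin, smul_eq_mul]
    field_simp

theorem riesz_aux {a b r : ℝ} (ha : 0 ≤ a) (hab : a ≤ b) (hr : 0 < r) (h : r ≤ a + b) :
    a⁻¹ ^ 2 * b⁻¹ ^ 2 ≤ 5 * (a⁻¹ ^ 2 * (r ^ 2 + a ^ 2)⁻¹) := by
  have hb : 0 < b := by linarith
  rw [mul_left_comm]
  gcongr
  rw [inv_pow, ← div_eq_mul_inv, le_div_iff₀ (by positivity), inv_mul_le_iff₀ (by positivity)]
  nlinarith

theorem riesz {x x' : E3} (h : x ≠ x') :
    Integrable (fun y => ‖y - x‖⁻¹ ^ 2 * ‖y - x'‖⁻¹ ^ 2) ∧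
      ∫ y, ‖y - x‖⁻¹ ^ 2 * ‖y - x'‖⁻¹ ^ 2 ≤ (10 * ∫ z, hr 1 z) * ‖x - x'‖⁻¹ := by
  have hr0 : 0 < ‖x - x'‖ := norm_pos_iff.2 (sub_ne_zero.2 h)
  have h1 := hr_int hr0 x
  have h2 := hr_int hr0 x'
  have h3 : ∀ y, ‖y - x‖⁻¹ ^ 2 * ‖y - x'‖⁻¹ ^ 2 ≤
      5 * hr ‖x - x'‖ (y - x) + 5 * hr ‖x - x'‖ (y - x') := by
    intro y
    have h4 : ‖x - x'‖ ≤ ‖y - x‖ + ‖y - x'‖ := by
      rw [norm_sub_rev y x]
      exact norm_sub_le_norm_sub_add_norm_sub _ _ _
    rcases le_total ‖y - x‖ ‖y - x'‖ with h5 | h5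
    · have : _ ≤ 5 * hr ‖x - x'‖ (y - x) := riesz_aux (norm_nonneg _) h5 hr0 h4
      linarith [hr_nonneg ‖x - x'‖ (y - x')]
    · have : _ ≤ 5 * hr ‖x - x'‖ (y - x') := riesz_aux (norm_nonneg _) h5 hr0 (by linarith)
      linarith [hr_nonneg ‖x - x'‖ (y - x)]
  have h4 := (h1.1.const_mul 5).add (h2.1.const_mul 5)
  have h5 : Integrable (fun y => ‖y - x‖⁻¹ ^ 2 * ‖y - x'‖⁻¹ ^ 2) :=
    h4.mono' (Measurable.aestronglyMeasurable (by fun_prop)) (.of_forall fun y => by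
      rw [Real.norm_of_nonneg (by positivity)]; exact h3 y)
  refine ⟨h5, (integral_mono h5 h4 h3).trans_eq ?_⟩
  simp only [Pi.add_apply]
  rw [integral_add (h1.1.const_mul 5) (h2.1.const_mul 5), integral_const_mul, integral_const_mul,
    h1.2, h2.2]
  ring

theorem loc_int {s : Set E3} (hm : MeasurableSet s) {R : ℝ} {x : E3} (h : ∀ y ∈ s, ‖y - x‖ ≤ R) :
    IntegrableOn (fun y => ‖y - x‖⁻¹ ^ 2) s ∧
      ∫ y in s, ‖y - x‖⁻¹ ^ 2 ≤ (1 + R ^ 2) * ∫ z, hr 1 z := by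
  have h1 := hr_int one_pos x
  have h2 : ∀ y ∈ s, ‖y - x‖⁻¹ ^ 2 ≤ (1 + R ^ 2) * hr 1 (y - x) := by
    intro y hy
    have := h y hy
    rw [hr, mul_left_comm]
    refine le_mul_of_one_le_right (by positivity) ?_
    rw [← div_eq_mul_inv, one_le_div (by positivity), one_pow]
    gcongr
  have h3 := (h1.1.const_mul (1 + R ^ 2)).integrableOn (s := s)
  have h4 : IntegrableOn (fun y => ‖y - x‖⁻¹ ^ 2) s :=
    h3.mono' (Measurable.aestronglyMeasurable (by fun_prop))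
      ((ae_restrict_iff' hm).2 (.of_forall fun y hy => by
        rw [Real.norm_of_nonneg (by positivity)]; exact h2 y hy))
  refine ⟨h4, (setIntegral_mono_on h4 h3 hm h2).trans ?_⟩
  refine (setIntegral_le_integral (h1.1.const_mul _) (.of_forall fun y => ?_)).trans_eq ?_
  · exact mul_nonneg (by positivity) (hr_nonneg _ _)
  · rw [integral_const_mul, h1.2, inv_one, one_mul]

end Pool.Agent.MP_ec20d8_an

end

-- part MP_ec20d8_an.Geom
section

/-!
Elementary geometry of a smooth bounded domain.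
-/

open MeasureTheory Filter Topology Set Metric
open scoped RealInnerProductSpace ContDiff NNReal

namespace Pool.Agent.MP_ec20d8_an

theorem ev_neg {f : ℝ → ℝ} {f' : ℝ} (hf : HasDerivAt f f' 0) (h0 : f 0 = 0) (h : f' < 0) :
    ∀ᶠ δ in 𝓝[>] 0, f δ < 0 := by
  filter_upwards [hf.tendsto_slope_zero_right.eventually (gt_mem_nhds h), self_mem_nhdsWithin]
    with δ h1 (h2 : 0 < δ)
  simp only [zero_add, h0, sub_zero, smul_eq_mul] at h1
  exact neg_of_mul_neg_right h1 (inv_pos.2 h2).le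

theorem const_of_sq {f : ℝ → ℝ} {C : ℝ}
    (h : ∀ s ∈ Icc (0 : ℝ) 1, ∀ t ∈ Icc (0 : ℝ) 1, |f s - f t| ≤ C * (s - t) ^ 2) : f 1 = f 0 := by
  have h1 : ∀ t ∈ Icc (0 : ℝ) 1, HasDerivWithinAt f 0 (Icc 0 1) t := by
    intro t ht
    rw [hasDerivWithinAt_iff_isLittleO]
    refine Asymptotics.IsBigO.trans_isLittleO (g := fun s => ‖s - t‖ ^ 2) ?_
      ((Asymptotics.isLittleO_pow_sub_sub t one_lt_two).mono nhdsWithin_le_nhds)
    refine .of_bound C ?_
    filter_upwards [self_mem_nhdsWithin] with s hs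
    simpa using h s hs t ht
  have := (convex_Icc (0 : ℝ) 1).norm_image_sub_le_of_norm_hasDerivWithin_le (C := 0) h1
    (by simp) (left_mem_Icc.2 zero_le_one) (right_mem_Icc.2 zero_le_one)
  simpa [sub_eq_zero] using this

/-- A smooth bounded domain with its defining function. -/
structure Dom where
  Ω : Set E3
  ρ : E3 → ℝ
  hρ : IsDefiningFunction Ω ρ
  hb : Bornology.IsBounded Ω

namespace Dom

variable (D : Dom)

/-- The boundary. -/
def S : Set E3 := {x | D.ρ x = 0}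

/-- The surface measure. -/
noncomputable def σ : Measure E3 := surfaceMeasure D.Ω

/-- The unit normal. -/
noncomputable def n : E3 → E3 := unitNormal D.ρ

theorem c2 : ContDiff ℝ 2 D.ρ := D.hρ.smooth.of_le (WithTop.coe_le_coe.2 le_top)

theorem c1 : ContDiff ℝ 1 D.ρ := D.hρ.smooth.of_le (mod_cast le_top)

theorem diff : Differentiable ℝ D.ρ := D.c1.differentiable one_ne_zero

theorem cont : Continuous D.ρ := D.c1.continuous

theorem mem_iff {x : E3} : x ∈ D.Ω ↔ D.ρ x < 0 := by rw [D.hρ.eq_neg]; rfl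

theorem isOpen : IsOpen D.Ω := by
  rw [D.hρ.eq_neg]
  exact isOpen_lt D.cont continuous_const

theorem meas : MeasurableSet D.Ω := D.isOpen.measurableSet

theorem cont_grad : Continuous (gradient D.ρ) :=
  (InnerProductSpace.toDual ℝ E3).symm.continuous.comp (D.c1.continuous_fderiv one_ne_zero)

theorem grad_pos {x : E3} (hx : x ∈ D.S) : 0 < ‖gradient D.ρ x‖ :=
  norm_pos_iff.2 (D.hρ.gradient_ne x hx)

theorem norm_n {x : E3} (hx : x ∈ D.S) : ‖D.n x‖ = 1 := by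
  simp [n, unitNormal, norm_smul, (D.grad_pos hx).ne']

theorem norm_n_le (x : E3) : ‖D.n x‖ ≤ 1 := by
  simp only [n, unitNormal, norm_smul, norm_inv, norm_norm]
  exact inv_mul_le_one_of_le₀ le_rfl (norm_nonneg _)

@[fun_prop]
theorem meas_n : Measurable D.n := by
  have := D.cont_grad.measurable
  unfold n unitNormal
  fun_prop

theorem contOn_n : ContinuousOn D.n D.S :=
  (D.cont_grad.norm.continuousOn.inv₀ fun _ hx => (D.grad_pos hx).ne').smul
    D.cont_grad.continuousOn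

theorem grad_eq {x : E3} (hx : x ∈ D.S) : gradient D.ρ x = ‖gradient D.ρ x‖ • D.n x := by
  rw [n, unitNormal, smul_smul, mul_inv_cancel₀ (D.grad_pos hx).ne', one_smul]

theorem fderiv_eq {x : E3} (hx : x ∈ D.S) (v : E3) :
    fderiv ℝ D.ρ x v = ‖gradient D.ρ x‖ * ⟪D.n x, v⟫ := by
  rw [← inner_gradient_left, ← real_inner_smul_left, ← D.grad_eq hx]

theorem hasDerivAt_line (x v : E3) (t : ℝ) :
    HasDerivAt (fun t : ℝ => D.ρ (x + t • v)) (fderiv ℝ D.ρ (x + t • v) v) t := by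
  have := (D.diff (x + t • v)).hasFDerivAt.comp_hasDerivAt t
    (((hasDerivAt_id t).smul_const v).const_add x)
  rwa [one_smul] at this

theorem ev_in {x z : E3} (hx : x ∈ D.S) (hz : ⟪D.n x, z⟫ < 0) :
    ∀ᶠ δ : ℝ in 𝓝[>] 0, D.ρ (x + δ • z) < 0 := by
  refine ev_neg (D.hasDerivAt_line x z 0) (by simpa [S] using hx) ?_
  rw [zero_smul, add_zero, D.fderiv_eq hx]
  exact mul_neg_of_pos_of_neg (D.grad_pos hx) hz

theorem ev_out {x z : E3} (hx : x ∈ D.S) (hz : 0 < ⟪D.n x, z⟫) :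
    ∀ᶠ δ : ℝ in 𝓝[>] 0, 0 < D.ρ (x + δ • z) := by
  have := ev_neg (D.hasDerivAt_line x z 0).fun_neg (by simpa [S] using hx) (by
    rw [zero_smul, add_zero, D.fderiv_eq hx]
    exact neg_neg_of_pos (mul_pos (D.grad_pos hx) hz))
  simpa using this

theorem frontier_eq : frontier D.Ω = D.S := by
  refine Subset.antisymm ?_ fun x hx => ?_
  · rw [D.hρ.eq_neg]
    exact frontier_lt_subset_eq D.cont continuous_const
  rw [D.isOpen.frontier_eq]
  refine ⟨?_, fun h => (D.mem_iff.1 h).ne hx⟩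
  have h1 : Tendsto (fun δ : ℝ => x + δ • -D.n x) (𝓝[>] 0) (𝓝 x) := by
    refine tendsto_nhdsWithin_of_tendsto_nhds (Continuous.tendsto' (by fun_prop) _ _ (by simp))
  refine mem_closure_of_tendsto h1 ((D.ev_in hx ?_).mono fun δ h => D.mem_iff.2 h)
  simp [D.norm_n hx]

theorem isClosed_S : IsClosed D.S := isClosed_eq D.cont continuous_const

theorem exists_ball : ∃ R, 0 < R ∧ D.Ω ⊆ closedBall 0 R ∧ D.S ⊆ closedBall 0 R := by
  obtain ⟨R, hR0, hR⟩ := D.hb.subset_closedBall_lt 0 0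
  refine ⟨R, hR0, hR, ?_⟩
  rw [← D.frontier_eq]
  exact frontier_subset_closure.trans (closure_minimal hR isClosed_closedBall)

theorem isCompact_S : IsCompact D.S := by
  obtain ⟨R, -, -, h⟩ := D.exists_ball
  exact (isCompact_closedBall 0 R).of_isClosed_subset D.isClosed_S h

theorem σ_eq : D.σ = (Measure.euclideanHausdorffMeasure 2).restrict D.S := by
  rw [σ, surfaceMeasure, frontier_eq]

theorem ae_S : ∀ᵐ x ∂D.σ, x ∈ D.S := by
  rw [σ_eq]
  exact ae_restrict_mem D.isClosed_S.measurableSet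

theorem grad_lower : ∃ c, 0 < c ∧ ∀ x ∈ D.S, c ≤ ‖gradient D.ρ x‖ :=
  D.isCompact_S.exists_forall_le' D.cont_grad.norm.continuousOn fun _ hx => D.grad_pos hx

theorem quad : ∃ C, 0 ≤ C ∧ ∀ x ∈ D.S, ∀ y ∈ D.S, |⟪D.n y, x - y⟫| ≤ C * ‖x - y‖ ^ 2 := by
  obtain ⟨R, -, -, hR⟩ := D.exists_ball
  obtain ⟨c, hc0, hc⟩ := D.grad_lower
  obtain ⟨L, hL⟩ := ((D.c2.fderiv_right (m := 1) le_rfl).contDiffOn
    (s := closedBall 0 R)).exists_lipschitzOnWith one_ne_zero (convex_closedBall 0 R)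
    (isCompact_closedBall 0 R)
  refine ⟨L / c, by positivity, fun x hx y hy => ?_⟩
  have h1 := ((convex_closedBall (0 : E3) R).inter
    (convex_closedBall y ‖x - y‖)).norm_image_sub_le_of_norm_fderiv_le' (𝕜 := ℝ) (f := D.ρ)
    (φ := fderiv ℝ D.ρ y) (C := L * ‖x - y‖) (fun z _ => D.diff z) (fun z hz => by
      refine (hL.norm_sub_le hz.1 (hR hy)).trans ?_
      gcongr
      exact mem_closedBall_iff_norm.1 hz.2)
    (x := y) (y := x) ⟨hR hy, mem_closedBall_self (norm_nonneg _)⟩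
    ⟨hR hx, mem_closedBall_iff_norm.2 le_rfl⟩
  rw [show D.ρ x = 0 from hx, show D.ρ y = 0 from hy, sub_zero, zero_sub, norm_neg,
    D.fderiv_eq hy, norm_mul, norm_norm, Real.norm_eq_abs] at h1
  rw [div_mul_eq_mul_div, le_div_iff₀ hc0]
  nlinarith [hc y hy, abs_nonneg ⟪D.n y, x - y⟫]

theorem cone {p : E3} (hp : p ∈ D.S) {ε : ℝ} (hε : 0 < ε) :
    ∃ U ∈ 𝓝 p, ∀ y ∈ D.S ∩ U, ∀ y' ∈ D.S ∩ U, |⟪D.n p, y - y'⟫| ≤ ε * ‖y - y'‖ := by
  have h0 := D.grad_pos hp
  obtain ⟨U, hU, h⟩ := (D.c1.contDiffAt.hasStrictFDerivAt (x := p)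
    one_ne_zero).approximates_deriv_on_nhds (c := NNReal.mk (ε * ‖gradient D.ρ p‖) (by positivity))
    (Or.inr (by rw [← NNReal.coe_pos]; exact mul_pos hε h0))
  refine ⟨U, hU, fun y hy y' hy' => ?_⟩
  have h1 := h y hy.2 y' hy'.2
  rw [show D.ρ y = 0 from hy.1, show D.ρ y' = 0 from hy'.1, sub_zero, zero_sub, norm_neg,
    D.fderiv_eq hp, norm_mul, norm_norm, Real.norm_eq_abs, NNReal.coe_mk] at h1
  exact le_of_mul_le_mul_left (h1.trans_eq (by ring)) h0

theorem graph {p e : E3} (hp : p ∈ D.S) (he : 0 < ⟪D.n p, e⟫) {U : Set E3} (hU : U ∈ 𝓝 p) :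
    ∀ᶠ u in 𝓝 (0 : E3), ∃ t : ℝ, p + u + t • e ∈ D.S ∩ U := by
  obtain ⟨r, hr0, hr⟩ := Metric.mem_nhds_iff.1 hU
  have h1 : ∀ᶠ δ : ℝ in 𝓝[>] 0, δ * ‖e‖ < r / 2 := by
    refine Tendsto.eventually (tendsto_nhdsWithin_of_tendsto_nhds
      (Continuous.tendsto' (f := fun δ : ℝ => δ * ‖e‖) (by fun_prop) 0 0 (by simp)))
      (gt_mem_nhds (half_pos hr0))
  obtain ⟨δ, ⟨⟨h2, h3⟩, h4⟩, h5 : 0 < δ⟩ := ((((D.ev_out hp he).and
    (D.ev_in (z := -e) hp (by simpa using he))).and h1).and self_mem_nhdsWithin).exists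
  have hc := D.cont
  have h6 : ∀ᶠ u in 𝓝 (0 : E3), 0 < D.ρ (p + u + δ • e) :=
    (Continuous.tendsto' (f := fun u => D.ρ (p + u + δ • e)) (by fun_prop) 0 _
      (by simp)).eventually (lt_mem_nhds h2)
  have h7 : ∀ᶠ u in 𝓝 (0 : E3), D.ρ (p + u + (-δ) • e) < 0 :=
    (Continuous.tendsto' (f := fun u => D.ρ (p + u + (-δ) • e)) (by fun_prop) 0 _
      (by simp)).eventually (gt_mem_nhds h3)
  filter_upwards [h6, h7, ball_mem_nhds 0 (half_pos hr0)] with u h6 h7 h8
  obtain ⟨t, ht, ht0⟩ := intermediate_value_Icc (f := fun t : ℝ => D.ρ (p + u + t • e))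
    (show -δ ≤ δ by linarith) (by fun_prop) ⟨h7.le, h6.le⟩
  refine ⟨t, ht0, hr ?_⟩
  rw [mem_ball_iff_norm, add_assoc, add_sub_cancel_left]
  have h9 : ‖t • e‖ ≤ δ * ‖e‖ := by
    rw [norm_smul]
    gcongr
    exact abs_le.2 ht
  linarith [norm_add_le u (t • e), mem_ball_zero_iff.1 h8]

theorem const_of_quad (hc : IsPreconnected D.S) {g : E3 → ℝ} {C : ℝ} (hC : 0 ≤ C)
    (h : ∀ y ∈ D.S, ∀ y' ∈ D.S, |g y - g y'| ≤ C * ‖y - y'‖ ^ 2) {x y : E3} (hx : x ∈ D.S)
    (hy : y ∈ D.S) : g x = g y := by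
  refine hc.induction₂' (fun x y => g x = g y) (fun p hp => ?_) (fun _ _ _ _ _ _ => Eq.trans) hx hy
  obtain ⟨U, hU, hU'⟩ := D.cone hp one_half_pos
  have hn := D.norm_n hp
  obtain ⟨r, hr0, hr⟩ := Metric.eventually_nhds_iff_ball.1
    (D.graph hp (e := D.n p) (by simp [hn]) hU)
  have key : ∀ y ∈ D.S ∩ U, ∀ y' ∈ D.S ∩ U, ∀ (v : E3) (t : ℝ), ⟪D.n p, v⟫ = 0 →
      y - y' = v + t • D.n p → ‖y - y'‖ ≤ 2 * ‖v‖ := by
    intro y hy y' hy' v t hv he
    have h1 := hU' y hy y' hy'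
    have h2 := norm_add_le v (t • D.n p)
    rw [← he, norm_smul, hn, Real.norm_eq_abs] at h2
    conv_lhs at h1 => rw [he]
    simp only [inner_add_right, hv, real_inner_smul_right, real_inner_self_eq_norm_sq, hn] at h1
    norm_num at h1
    linarith
  filter_upwards [self_mem_nhdsWithin, mem_nhdsWithin_of_mem_nhds hU,
    mem_nhdsWithin_of_mem_nhds (ball_mem_nhds p (half_pos hr0))] with y hy hyU hyr
  let u := y - p - ⟪D.n p, y - p⟫ • D.n p
  have hu0 : ⟪D.n p, u⟫ = 0 := by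
    simp only [u, inner_sub_right (D.n p) (y - p), real_inner_smul_right,
      real_inner_self_eq_norm_sq, hn]
    ring
  have hu1 : ‖u‖ < r := by
    have h1 := norm_sub_le (y - p) (⟪D.n p, y - p⟫ • D.n p)
    have h2 := abs_real_inner_le_norm (D.n p) (y - p)
    rw [norm_smul, hn, Real.norm_eq_abs] at h1
    rw [hn] at h2
    linarith [mem_ball_iff_norm.1 hyr]
  have h1 : ∀ s : ℝ, ∃ t : ℝ, s ∈ Icc (0 : ℝ) 1 → p + s • u + t • D.n p ∈ D.S ∩ U := by
    intro s
    by_cases hs : s ∈ Icc (0 : ℝ) 1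
    · obtain ⟨t, ht⟩ := hr (s • u) (by
        rw [mem_ball_zero_iff, norm_smul, Real.norm_of_nonneg hs.1]
        nlinarith [hs.1, hs.2, norm_nonneg u])
      exact ⟨t, fun _ => ht⟩
    · exact ⟨0, fun h => absurd h hs⟩
  choose t ht using h1
  have h2 := const_of_sq (f := fun s => g (p + s • u + t s • D.n p)) (C := C * (2 * ‖u‖) ^ 2)
    fun s hs s' hs' => by
      refine (h _ (ht s hs).1 _ (ht s' hs').1).trans ?_
      have := key _ (ht s hs) _ (ht s' hs') ((s - s') • u) (t s - t s')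
        (by rw [real_inner_smul_right, hu0, mul_zero]) (by module)
      rw [norm_smul, Real.norm_eq_abs] at this
      rw [mul_assoc, ← sq_abs (s - s'), ← mul_pow]
      gcongr
      linarith
  have h3 : p + (0 : ℝ) • u + t 0 • D.n p = p := by
    have := key _ (ht 0 (by simp)) p ⟨hp, mem_of_mem_nhds hU⟩ 0 (t 0) (by simp) (by module)
    rwa [norm_zero, mul_zero, norm_le_zero_iff, sub_eq_zero] at this
  have h4 : p + (1 : ℝ) • u + t 1 • D.n p = y := by
    have := key _ (ht 1 (by simp)) y ⟨hy, hyU⟩ 0 (t 1 - ⟪D.n p, y - p⟫) (by simp)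
      (by simp only [u]; module)
    rwa [norm_zero, mul_zero, norm_le_zero_iff, sub_eq_zero] at this
  simp only [h3, h4] at h2
  exact ⟨h2.symm, h2⟩

end Dom

end Pool.Agent.MP_ec20d8_an

end

-- part MP_ec20d8_an.Area
section

/-!
The area formula for the projection of the boundary onto a plane.
-/

open MeasureTheory Filter Topology Set Metric Module
open scoped RealInnerProductSpace NNReal ENNReal

namespace Pool.Agent.MP_ec20d8_an

theorem le_of_local {X : Type*} [TopologicalSpace X] [SecondCountableTopology X]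
    [MeasurableSpace X] [OpensMeasurableSpace X] {μ ν : Measure X}
    (h : ∀ K : ℝ≥0, 1 < K → ∀ x, ∃ U ∈ 𝓝 x, ∀ C ⊆ U, MeasurableSet C → μ C ≤ K * ν C) :
    μ ≤ ν := by
  refine Measure.le_iff.2 fun C hC => ENNReal.le_of_forall_lt_one_mul_le fun a ha => ?_
  rcases eq_or_ne a 0 with rfl | ha0
  · simp
  lift a to ℝ≥0 using ha.ne_top
  have h1 : 1 < a⁻¹ := (one_lt_inv₀ (pos_iff_ne_zero.2 (by exact_mod_cast ha0))).2
    (by exact_mod_cast ha)
  choose U hU hUC using h _ h1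
  rcases isEmpty_or_nonempty X with hX | hX
  · simp [Set.eq_empty_of_isEmpty C]
  obtain ⟨s, hs, hsU⟩ := TopologicalSpace.countable_cover_nhds
    (f := fun x => interior (U x)) fun x => interior_mem_nhds.2 (hU x)
  obtain ⟨x, rfl⟩ := hs.exists_eq_range (by
    by_contra h0
    rw [not_nonempty_iff_eq_empty.1 h0] at hsU
    simpa using hsU.symm)
  let V : ℕ → Set X := disjointed fun k => interior (U (x k))
  have hV : ∀ k, MeasurableSet (V k) :=
    MeasurableSet.disjointed fun k => isOpen_interior.measurableSet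
  have h2 : C = ⋃ k, C ∩ V k := by
    rw [← inter_iUnion, iUnion_disjointed]
    simp only [biUnion_range] at hsU
    rw [hsU, inter_univ]
  have h3 : Pairwise (Function.onFun Disjoint fun k => C ∩ V k) := fun i j hij =>
    (disjoint_disjointed _ hij).mono inter_subset_right inter_subset_right
  have h4 : μ C ≤ (a⁻¹ : ℝ≥0) * ν C := by
    rw [h2, measure_iUnion h3 fun k => hC.inter (hV k), measure_iUnion h3 fun k => hC.inter (hV k),
      ← ENNReal.tsum_mul_left]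
    exact ENNReal.tsum_le_tsum fun k => hUC _ _
      (inter_subset_right.trans ((disjointed_subset _ k).trans interior_subset)) (hC.inter (hV k))
  calc a * μ C ≤ a * ((a⁻¹ : ℝ≥0) * ν C) := by gcongr
    _ = ν C := by
      rw [← mul_assoc, ← ENNReal.coe_mul, mul_inv_cancel₀ (by exact_mod_cast ha0)]
      simp

theorem muHE_image_le {f : E3 → E3} {s : Set E3} {K : ℝ≥0} (h : LipschitzOnWith K f s) :
    μHE[2] (f '' s) ≤ K ^ 2 * μHE[2] s := by
  have := h.hausdorffMeasure_image_le (d := (2 : ℕ)) (by simp)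
  rw [ENNReal.rpow_natCast] at this
  simp only [Measure.euclideanHausdorffMeasure_def, Measure.smul_apply,
    Measure.nnreal_smul_coe_apply]
  rw [mul_left_comm]
  gcongr

/-- The plane orthogonal to `e`. -/
noncomputable abbrev Pl (e : E3) : Submodule ℝ E3 := (ℝ ∙ e)ᗮ

/-- The projection onto the plane. -/
noncomputable abbrev pr (e : E3) : E3 →L[ℝ] Pl e := (Pl e).orthogonalProjectionOnto

variable {e : E3}

theorem pr_val (he : ‖e‖ = 1) (y : E3) : (pr e y : E3) = y - ⟪e, y⟫ • e := by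
  rw [← Submodule.starProjection_unit_singleton ℝ he, ← Submodule.starProjection_orthogonal_val]
  rfl

theorem finrank_Pl (he : ‖e‖ = 1) : finrank ℝ (Pl e) = 2 := by
  have : Fact (finrank ℝ E3 = 2 + 1) := ⟨by simp⟩
  exact Submodule.finrank_orthogonal_span_singleton (norm_ne_zero_iff.1 (by simp [he]))

theorem inner_Pl (u : Pl e) : ⟪e, (u : E3)⟫ = 0 :=
  Submodule.mem_orthogonal_singleton_iff_inner_right.1 u.2

theorem oblique (he : ‖e‖ = 1) {n : E3} (hn : ‖n‖ = 1) (hc : 0 < ⟪n, e⟫) (A : Set E3) :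
    ENNReal.ofReal ⟪n, e⟫ * μHE[2] ((fun y => y - (⟪n, y⟫ / ⟪n, e⟫) • e) '' A) =
      volume (pr e '' A) := by
  let L : Pl e →ₗ[ℝ] E3 := (Pl e).subtype -
    (⟪n, e⟫⁻¹ • ((innerₗ E3 n) ∘ₗ (Pl e).subtype)).smulRight e
  have hL : ∀ u, L u = u - (⟪n, (u : E3)⟫ / ⟪n, e⟫) • e := fun u => by
    simp [L, div_eq_inv_mul]
  have h1 : (fun y => y - (⟪n, y⟫ / ⟪n, e⟫) • e) '' A = L '' (pr e '' A) := by
    rw [image_image]
    refine image_congr fun y _ => ?_
    rw [hL, pr_val he, inner_sub_right, real_inner_smul_right, sub_div,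
      mul_div_cancel_right₀ _ hc.ne']
    module
  have h2 : L.normDet = ⟪n, e⟫⁻¹ := by
    let b := (stdOrthonormalBasis ℝ (Pl e)).reindex (finCongr (finrank_Pl he))
    have h3 := L.normDet_sq_eq_det_gram b
    have h4 : ∀ u v, ⟪L u, L v⟫ = ⟪u, v⟫ + ⟪n, (u : E3)⟫ * ⟪n, (v : E3)⟫ / ⟪n, e⟫ ^ 2 := by
      intro u v
      simp only [hL, inner_sub_left, inner_sub_right, real_inner_smul_left, real_inner_smul_right,
        inner_Pl, real_inner_comm e (u : E3), real_inner_self_eq_norm_sq, he, Submodule.coe_inner]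
      ring
    have h5 := b.sum_sq_inner_left (pr e n)
    simp only [Fin.sum_univ_two, Submodule.inner_orthogonalProjectionOnto_eq_of_mem_right] at h5
    have h6 : ‖pr e n‖ ^ 2 = 1 - ⟪n, e⟫ ^ 2 := by
      rw [Submodule.coe_norm, pr_val he, norm_sub_sq_real, real_inner_smul_right, norm_smul, he, hn,
        real_inner_comm n e, Real.norm_eq_abs, mul_one, sq_abs]
      ring
    rw [Matrix.det_fin_two] at h3
    simp only [Matrix.gram_apply, h4, orthonormal_iff_ite.1 b.orthonormal] at h3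
    refine (pow_left_inj₀ L.normDet_nonneg (inv_pos.2 hc).le two_ne_zero).1 (h3.trans ?_)
    simp only [↓reduceIte, zero_ne_one, one_ne_zero]
    field_simp
    linear_combination (⟪n, e⟫ ^ 2) * (h5.trans h6)
  have h3 := L.euclideanHausdorffMeasure_image_eq_normDet_mul_volume (pr e '' A)
  rw [finrank_Pl he] at h3
  rw [h1, h3, h2, ← mul_assoc, ← ENNReal.ofReal_mul hc.le, mul_inv_cancel₀ hc.ne']
  simp

theorem fubini_line (he : ‖e‖ = 1) {F : E3 → ℝ} (hF : Integrable F) :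
    Integrable (fun u : Pl e => ∫ t : ℝ, F (u + t • e)) ∧
      ∫ u : Pl e, ∫ t : ℝ, F (u + t • e) = ∫ y, F y := by
  have h1 := ((ℝ ∙ e).measurePreserving_measurableEquivProd (0 : E3)).symm
  rw [InnerProductSpace.euclideanHausdorffMeasure_eq_volume] at h1
  let φ := (LinearIsometryEquiv.toSpanUnitSingleton (𝕜 := ℝ) e he).toMeasurableEquiv
  have h2 : MeasurePreserving (φ.prodCongr (MeasurableEquiv.refl (Pl e))) volume volume :=
    (LinearIsometryEquiv.toSpanUnitSingleton (𝕜 := ℝ) e he).measurePreserving.prod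
      (MeasurePreserving.id _)
  have h3 := h2.trans h1
  have h4 : ∀ z : ℝ × Pl e, (φ.prodCongr (MeasurableEquiv.refl (Pl e))).trans
      ((ℝ ∙ e).measurableEquivProd (0 : E3)).symm z = z.2 + z.1 • e := fun z => by
    simp [φ, MeasurableEquiv.prodCongr, add_comm]
  have h5 : Integrable (fun z : ℝ × Pl e => F (z.2 + z.1 • e)) (volume.prod volume) := by
    have := h3.integrable_comp_of_integrable hF
    simp only [Function.comp_def, h4] at this
    exact this
  refine ⟨h5.integral_prod_right, ?_⟩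
  rw [← h3.integral_comp', ← integral_prod_symm _ h5]
  simp only [h4]
  rfl

namespace Dom

variable (D : Dom)

theorem compare (he : ‖e‖ = 1) {p : E3} (hp : p ∈ D.S) (hc : 0 < ⟪D.n p, e⟫) {K : ℝ≥0}
    (hK : 1 < K) : ∃ U ∈ 𝓝 p, ∀ A ⊆ D.S ∩ U,
      volume (pr e '' A) ≤ K ^ 2 * (ENNReal.ofReal ⟪D.n p, e⟫ * μHE[2] A) ∧
      ENNReal.ofReal ⟪D.n p, e⟫ * μHE[2] A ≤ K ^ 2 * volume (pr e '' A) := by
  have hK1 : (1 : ℝ) < K := hK
  have hK0 : (0 : ℝ) < K := by linarith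
  have hε : 0 < 1 - (K : ℝ)⁻¹ := sub_pos.2 (inv_lt_one_of_one_lt₀ hK1)
  obtain ⟨U, hU, h⟩ := D.cone hp (mul_pos hε hc)
  refine ⟨U, hU, fun A hA => ?_⟩
  set q : E3 → E3 := fun y => y - (⟪D.n p, y⟫ / ⟪D.n p, e⟫) • e
  have h1 : ∀ y ∈ A, ∀ y' ∈ A, ‖(y - y') - (q y - q y')‖ ≤ (1 - (K : ℝ)⁻¹) * ‖y - y'‖ := by
    intro y hy y' hy'
    have : (y - y') - (q y - q y') = (⟪D.n p, y - y'⟫ / ⟪D.n p, e⟫) • e := by
      simp only [q, inner_sub_right, sub_div]
      module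
    rw [this, norm_smul, he, mul_one, Real.norm_eq_abs, abs_div, abs_of_pos hc, div_le_iff₀ hc]
    exact (h y (hA hy) y' (hA hy')).trans_eq (by ring)
  have h2 : LipschitzOnWith K q A := by
    refine LipschitzOnWith.of_dist_le_mul fun y hy y' hy' => ?_
    have h3 := h1 y hy y' hy'
    have h4 := norm_sub_norm_le (q y - q y') (y - y')
    rw [norm_sub_rev (q y - q y')] at h4
    have h5 : 2 - (K : ℝ)⁻¹ ≤ K := by
      rw [sub_le_comm, ← one_div, le_div_iff₀ hK0]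
      nlinarith [sq_nonneg ((K : ℝ) - 1)]
    rw [dist_eq_norm, dist_eq_norm]
    nlinarith [norm_nonneg (y - y')]
  have h3 : ∀ y ∈ A, ∀ y' ∈ A, ‖y - y'‖ ≤ K * ‖q y - q y'‖ := by
    intro y hy y' hy'
    have h3 := h1 y hy y' hy'
    have h4 := norm_sub_norm_le (y - y') (q y - q y')
    rw [← inv_mul_le_iff₀ hK0]
    linarith
  have h4 : InjOn q A := fun y hy y' hy' hq => by
    have := h3 y hy y' hy'
    rwa [hq, sub_self, norm_zero, mul_zero, norm_le_zero_iff, sub_eq_zero] at this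
  have h5 : LipschitzOnWith K (Function.invFunOn q A) (q '' A) := by
    refine LipschitzOnWith.of_dist_le_mul ?_
    rintro _ ⟨y, hy, rfl⟩ _ ⟨y', hy', rfl⟩
    rw [h4.leftInvOn_invFunOn hy, h4.leftInvOn_invFunOn hy', dist_eq_norm, dist_eq_norm]
    exact h3 y hy y' hy'
  have h6 := muHE_image_le h5
  rw [h4.leftInvOn_invFunOn.image_image] at h6
  rw [← oblique he (D.norm_n hp) hc, mul_left_comm, mul_left_comm ((K : ℝ≥0∞) ^ 2)]
  exact ⟨mul_le_mul_right (muHE_image_le h2) _, mul_le_mul_right h6 _⟩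

instance : IsFiniteMeasure D.σ := by
  refine ⟨?_⟩
  rw [σ_eq, Measure.restrict_apply_univ]
  refine D.isCompact_S.measure_lt_top_of_nhdsWithin fun p hp => ?_
  have hn := D.norm_n hp
  obtain ⟨U, hU, h⟩ := D.compare hn hp (by simp [hn]) (K := 2) one_lt_two
  refine ⟨D.S ∩ U, inter_mem_nhdsWithin _ hU, ?_⟩
  have h1 := (h _ subset_rfl).2
  simp only [real_inner_self_eq_norm_sq, hn, one_pow, ENNReal.ofReal_one, one_mul] at h1
  refine h1.trans_lt (ENNReal.mul_lt_top (by finiteness) ?_)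
  exact (measure_mono (image_mono inter_subset_left)).trans_lt
    (D.isCompact_S.image (pr _).continuous).measure_lt_top

instance : NullSingletonClass D.σ := by
  have : NullSingletonClass (μHE[2] : Measure E3) := ⟨fun x => by
    have := Measure.nullSingletonClass_hausdorff E3 (d := (2 : ℕ)) (by simp)
    simp [Measure.euclideanHausdorffMeasure_def]⟩
  rw [σ_eq]
  infer_instance

theorem σ_pos {p : E3} (hp : p ∈ D.S) {V : Set E3} (hV : V ∈ 𝓝 p) : D.σ V ≠ 0 := by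
  intro h0
  have hn := D.norm_n hp
  obtain ⟨U, hU, h⟩ := D.compare hn hp (by simp [hn]) (K := 2) one_lt_two
  have h1 := (h (D.S ∩ (U ∩ V)) (inter_subset_inter_right _ inter_subset_left)).1
  rw [σ_eq, Measure.restrict_apply' D.isClosed_S.measurableSet] at h0
  rw [measure_mono_null (show D.S ∩ (U ∩ V) ⊆ V ∩ D.S from fun y hy => ⟨hy.2.2, hy.1⟩) h0] at h1
  simp only [mul_zero, nonpos_iff_eq_zero] at h1
  refine (Measure.measure_pos_of_mem_nhds volume (x := pr _ p) ?_).ne' h1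
  have h2 := D.graph hp (e := D.n p) (by simp [hn]) (inter_mem hU hV)
  have h3 : Tendsto (fun w : Pl (D.n p) => (w : E3) - pr _ p) (𝓝 (pr _ p)) (𝓝 0) :=
    Continuous.tendsto' (by fun_prop) _ _ (sub_self _)
  filter_upwards [h3.eventually h2] with w ⟨t, ht⟩
  refine ⟨_, ht, Subtype.ext ?_⟩
  simp only [pr_val hn, inner_add_right, inner_sub_right, real_inner_smul_right, inner_Pl,
    real_inner_self_eq_norm_sq, hn]
  module

theorem area (he : ‖e‖ = 1) {P : Set E3} (hP : IsCompact P) (hS : P ⊆ D.S)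
    (hc : ∀ y ∈ P, 0 < ⟪D.n y, e⟫) (hi : InjOn (pr e) P) :
    (((μHE[2] : Measure E3).restrict P).withDensity fun y => ENNReal.ofReal ⟪D.n y, e⟫).map (pr e) =
      volume.restrict (pr e '' P) := by
  set ν := ((μHE[2] : Measure E3).restrict P).withDensity fun y => ENNReal.ofReal ⟪D.n y, e⟫
  have hm := (pr e).continuous.measurable
  have key : ∀ K : ℝ≥0, 1 < K → ∀ u : Pl e, ∃ U ∈ 𝓝 u, ∀ C ⊆ U, MeasurableSet C →
      ν.map (pr e) C ≤ K * volume.restrict (pr e '' P) C ∧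
      volume.restrict (pr e '' P) C ≤ K * ν.map (pr e) C := by
    intro K hK u
    have h0 : ∀ C, MeasurableSet C → ν.map (pr e) C =
        ∫⁻ y in pr e ⁻¹' C ∩ P, ENNReal.ofReal ⟪D.n y, e⟫ ∂μHE[2] ∧
        volume.restrict (pr e '' P) C = volume (pr e '' (pr e ⁻¹' C ∩ P)) := fun C hC => by
      rw [Measure.map_apply hm hC, withDensity_apply _ (hm hC), Measure.restrict_restrict (hm hC),
        Measure.restrict_apply hC, image_preimage_inter]
      exact ⟨rfl, rfl⟩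
    by_cases hu : u ∈ pr e '' P
    swap
    · refine ⟨_, (hP.image (pr e).continuous).isClosed.isOpen_compl.mem_nhds hu, fun C h hC => ?_⟩
      have : pr e ⁻¹' C ∩ P = ∅ := eq_empty_of_forall_notMem fun y hy => h hy.1 ⟨y, hy.2, rfl⟩
      simp [h0 C hC, this]
    obtain ⟨p, hp, rfl⟩ := hu
    obtain ⟨k, hk1, hk⟩ : ∃ k : ℝ≥0, 1 < k ∧ k ^ 3 ≤ K := by
      have : ∀ᶠ k in 𝓝[>] (1 : ℝ≥0), k ^ 3 < K := Tendsto.eventually
        (tendsto_nhdsWithin_of_tendsto_nhds (Continuous.tendsto' (f := fun k : ℝ≥0 => k ^ 3)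
          (by fun_prop) 1 1 (by simp))) (gt_mem_nhds hK)
      obtain ⟨k, h1, h2⟩ := (this.and self_mem_nhdsWithin).exists
      exact ⟨k, h2, h1.le⟩
    have hk1' : (1 : ℝ) < k := hk1
    have hK' : (k : ℝ≥0∞) * k ^ 2 ≤ K := by
      rw [← pow_succ']
      exact_mod_cast hk
    obtain ⟨U, hU, h⟩ := D.compare he (hS hp) (hc p hp) hk1
    have h1 : ContinuousWithinAt (fun y => ⟪D.n y, e⟫) D.S p :=
      (D.contOn_n p (hS hp)).inner (𝕜 := ℝ) continuousWithinAt_const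
    have h2 := (h1.eventually (gt_mem_nhds (lt_mul_of_one_lt_left (hc p hp) hk1'))).and
      ((h1.const_mul (k : ℝ)).eventually (lt_mem_nhds (lt_mul_of_one_lt_left (hc p hp) hk1')))
    obtain ⟨V, hV, hpV, hV'⟩ := mem_nhdsWithin.1 (h2.and (mem_nhdsWithin_of_mem_nhds hU))
    refine ⟨(pr e '' (P \ V))ᶜ, ((hP.diff hV).image (pr e).continuous).isClosed.isOpen_compl.mem_nhds
      (fun ⟨y, hy, hy'⟩ => hy.2 (hi hy.1 hp hy' ▸ hpV)), fun C hCU hC => ?_⟩
    set A := pr e ⁻¹' C ∩ P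
    have hA : ∀ y ∈ A, y ∈ V ∩ D.S := fun y hy =>
      ⟨by_contra fun h' => hCU hy.1 ⟨y, ⟨hy.2, h'⟩, rfl⟩, hS hy.2⟩
    have hAm : MeasurableSet A := (hm hC).inter hP.measurableSet
    obtain ⟨h3, h4⟩ := h A fun y hy => ⟨(hA y hy).2, (hV' (hA y hy)).2⟩
    rw [(h0 C hC).1, (h0 C hC).2]
    constructor
    · calc _ ≤ ∫⁻ _ in A, k * ENNReal.ofReal ⟪D.n p, e⟫ ∂μHE[2] := by
            refine setLIntegral_mono' hAm fun y hy => ?_
            rw [← ENNReal.ofReal_coe_nnreal, ← ENNReal.ofReal_mul k.coe_nonneg]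
            exact ENNReal.ofReal_le_ofReal (hV' (hA y hy)).1.1.le
        _ ≤ k * (k ^ 2 * volume (pr e '' A)) := by
            rw [setLIntegral_const, mul_assoc]
            gcongr
        _ ≤ _ := by rw [← mul_assoc]; gcongr
    · calc _ ≤ k ^ 2 * ∫⁻ _ in A, ENNReal.ofReal ⟪D.n p, e⟫ ∂μHE[2] := by
            rwa [setLIntegral_const]
        _ ≤ k ^ 2 * ∫⁻ y in A, k * ENNReal.ofReal ⟪D.n y, e⟫ ∂μHE[2] := by
            refine mul_le_mul_right (setLIntegral_mono' hAm fun y hy => ?_) _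
            rw [← ENNReal.ofReal_coe_nnreal, ← ENNReal.ofReal_mul k.coe_nonneg]
            exact ENNReal.ofReal_le_ofReal (hV' (hA y hy)).1.2.le
        _ ≤ _ := by
            rw [lintegral_const_mul' _ _ ENNReal.coe_ne_top, ← mul_assoc, mul_comm _ (k : ℝ≥0∞)]
            gcongr
  refine le_antisymm (le_of_local fun K hK u => ?_) (le_of_local fun K hK u => ?_)
  · obtain ⟨U, hU, h⟩ := key K hK u
    exact ⟨U, hU, fun C h1 h2 => (h C h1 h2).1⟩
  · obtain ⟨U, hU, h⟩ := key K hK u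
    exact ⟨U, hU, fun C h1 h2 => (h C h1 h2).2⟩

end Dom

end Pool.Agent.MP_ec20d8_an

end

-- part MP_ec20d8_an.GaussGreen
section

/-!
The Gauss-Green theorem for a smooth bounded domain and the Hausdorff surface measure.
-/

open MeasureTheory Filter Topology Set Metric Module
open scoped RealInnerProductSpace NNReal ENNReal Manifold

namespace Pool.Agent.MP_ec20d8_an

theorem line_facts {f : E3 → ℝ} (hf : ContDiff ℝ 1 f) (hs : HasCompactSupport f) {e : E3}
    (he : ‖e‖ = 1) (y : E3) : ∫ t in Iio (0 : ℝ), fderiv ℝ f (y + t • e) e = f y ∧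
      ∫ t : ℝ, fderiv ℝ f (y + t • e) e = 0 := by
  let φ : ℝ → ℝ := fun t => f (y + t • e)
  have h1 : ContDiff ℝ 1 φ := hf.comp (by fun_prop)
  have h2 : HasCompactSupport φ := hs.comp_isClosedEmbedding (g := fun t : ℝ => y + t • e)
    (Isometry.isClosedEmbedding (Isometry.of_dist_eq fun s t => by
      rw [dist_add_left, dist_eq_norm, ← sub_smul, norm_smul, he, mul_one, dist_eq_norm]))
  have h3 : ∀ t, HasDerivAt φ (fderiv ℝ f (y + t • e) e) t := fun t => by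
    have := (hf.differentiable one_ne_zero (y + t • e)).hasFDerivAt.comp_hasDerivAt t
      (((hasDerivAt_id t).smul_const e).const_add y)
    rwa [one_smul] at this
  have h4 : (fun t : ℝ => fderiv ℝ f (y + t • e) e) = deriv φ := funext fun t => (h3 t).deriv.symm
  constructor
  · rw [h4, ← integral_Iic_eq_integral_Iio, h2.integral_Iic_deriv_eq h1]
    simp [φ]
  · refine integral_eq_zero_of_hasDerivAt_of_integrable h3 ?_
      (h1.continuous.integrable_of_hasCompactSupport h2)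
    rw [h4]
    exact (h1.continuous_deriv le_rfl).integrable_of_hasCompactSupport h2.deriv

theorem cont_fderiv {f : E3 → ℝ} (hf : ContDiff ℝ 1 f) (v : E3) :
    Continuous fun y => fderiv ℝ f y v :=
  (hf.continuous_fderiv one_ne_zero).clm_apply continuous_const

namespace Dom

variable (D : Dom)

theorem int_Ω {f : E3 → ℝ} (hf : Continuous f) : IntegrableOn f D.Ω :=
  (hf.continuousOn.integrableOn_compact D.hb.isCompact_closure).mono_set subset_closure

theorem bdd_S {f : E3 → ℝ} (hf : Continuous f) : ∃ C, ∀ x ∈ D.S, ‖f x‖ ≤ C :=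
  D.isCompact_S.exists_bound_of_continuousOn hf.continuousOn

theorem int_σ {f : E3 → ℝ} (hf : Continuous f) (v : E3) :
    Integrable (fun y => f y * ⟪D.n y, v⟫) D.σ := by
  obtain ⟨C, hC⟩ := D.bdd_S hf
  have := hf.measurable
  refine (integrable_const (C * ‖v‖)).mono' (Measurable.aestronglyMeasurable (by fun_prop))
    (D.ae_S.mono fun y hy => ?_)
  rw [norm_mul]
  refine mul_le_mul (hC y hy) ((norm_inner_le_norm _ _).trans ?_) (norm_nonneg _)
    ((norm_nonneg _).trans (hC y hy))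
  rw [D.norm_n hy, one_mul]

/-- The Gauss-Green identity for `f` in the direction `v`. -/
def GG (v : E3) (f : E3 → ℝ) : Prop :=
  ∫ y in D.Ω, fderiv ℝ f y v = ∫ y, f y * ⟪D.n y, v⟫ ∂D.σ

theorem gg_local {p e : E3} (he : ‖e‖ = 1) (hp : p ∈ D.S) (hc : 0 < ⟪D.n p, e⟫) :
    ∃ r, 0 < r ∧ ∀ f : E3 → ℝ, ContDiff ℝ 1 f → HasCompactSupport f → tsupport f ⊆ ball p r →
      D.GG e f := by
  have h0 : ∀ᶠ y in 𝓝 p, 0 < fderiv ℝ D.ρ y e :=
    (cont_fderiv D.c1 e).continuousAt.eventually (lt_mem_nhds (by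
      simp only [D.fderiv_eq hp]
      exact mul_pos (D.grad_pos hp) hc))
  obtain ⟨r, hr0, hr⟩ := nhds_basis_closedBall.eventually_iff.1 h0
  refine ⟨r, hr0, fun f hf hs hsr => ?_⟩
  let I : E3 → Set ℝ := fun y => {t | y + t • e ∈ closedBall p r}
  have hI : ∀ y, Convex ℝ (I y) := fun y s hs t ht a b ha hb hab => by
    have := convex_closedBall p r hs ht ha hb hab
    rwa [show a • (y + s • e) + b • (y + t • e) = (a + b) • y + (a • s + b • t) • e by
      simp only [smul_eq_mul]; module, hab, one_smul] at this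
  have hcont : ∀ y, Continuous fun t : ℝ => D.ρ (y + t • e) := fun y =>
    D.cont.comp (by fun_prop)
  have hmono : ∀ y, StrictMonoOn (fun t : ℝ => D.ρ (y + t • e)) (I y) := fun y =>
    strictMonoOn_of_deriv_pos (hI y) (hcont y).continuousOn fun t ht => by
      rw [(D.hasDerivAt_line y e t).deriv]
      exact hr (interior_subset (s := I y) ht)
  let P := D.S ∩ closedBall p r
  have hP : IsCompact P := D.isCompact_S.inter_right isClosed_closedBall
  have hPc : ∀ y ∈ P, 0 < ⟪D.n y, e⟫ := fun y hy => by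
    have := hr hy.2
    rw [D.fderiv_eq hy.1] at this
    exact pos_of_mul_pos_right this (norm_nonneg _)
  have hP0 : ∀ y ∈ P, (0 : ℝ) ∈ I y := fun y hy => by simpa [I] using hy.2
  have hi : InjOn (pr e) P := by
    intro y hy y' hy' h
    have h1 : y' = y + (⟪e, y'⟫ - ⟪e, y⟫) • e := by
      have := congrArg Subtype.val h
      rw [pr_val he, pr_val he] at this
      rw [sub_smul, ← add_sub_assoc, add_sub_right_comm, this, sub_add_cancel]
    have h2 : ⟪e, y'⟫ - ⟪e, y⟫ = 0 := (hmono y).injOn (show _ ∈ closedBall p r from h1 ▸ hy'.2)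
      (hP0 y hy) (by
        simp only [← h1, zero_smul, add_zero]
        exact hy'.1.trans hy.1.symm)
    rw [h1, h2, zero_smul, add_zero]
  have hz : ∀ y, y ∉ closedBall p r → fderiv ℝ f y e = 0 := fun y hy => by
    rw [fderiv_of_notMem_tsupport ℝ fun h => hy (ball_subset_closedBall (hsr h))]
    rfl
  let F : E3 → ℝ := D.Ω.indicator fun y => fderiv ℝ f y e
  obtain ⟨hg1, hg2⟩ := fubini_line he (F := F)
    ((integrable_indicator_iff D.meas).2 (D.int_Ω (cont_fderiv hf e)))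
  set g : Pl e → ℝ := fun u => ∫ t : ℝ, F (u + t • e)
  have hg3 : ∀ y ∈ P, g (pr e y) = f y := by
    intro y hy
    have h1 : g (pr e y) = ∫ t : ℝ, F (y + t • e) := by
      rw [← integral_sub_right_eq_self (fun t : ℝ => F (y + t • e)) ⟪e, y⟫]
      simp only [g, pr_val he]
      congr 1
      ext t
      congr 1
      module
    rw [h1, ← (line_facts hf hs he y).1, ← integral_indicator measurableSet_Iio]
    congr 1
    ext t
    by_cases ht : t ∈ I y
    · have h2 : y + t • e ∈ D.Ω ↔ t ∈ Iio (0 : ℝ) := by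
        rw [mem_Iio, ← (hmono y).lt_iff_lt ht (hP0 y hy), D.mem_iff, zero_smul, add_zero,
          show D.ρ y = 0 from hy.1]
      simp only [F, indicator, h2]
    · simp [F, indicator, hz _ ht]
  have hg4 : ∀ u, u ∉ pr e '' P → g u = 0 := by
    intro u hu
    have h1 : ∀ t ∈ I u, D.ρ (u + t • e) ≠ 0 := fun t ht h => hu ⟨u + t • e, ⟨h, ht⟩,
      Subtype.ext (by simp [pr_val he, he])⟩
    by_cases h2 : ∀ t ∈ I u, D.ρ (u + t • e) < 0
    · rw [← (line_facts hf hs he u).2]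
      simp only [g]
      congr 1
      ext t
      by_cases ht : t ∈ I u
      · exact indicator_of_mem (D.mem_iff.2 (h2 t ht)) _
      · simp [F, indicator, hz _ ht]
    · push Not at h2
      obtain ⟨t₀, ht₀, h2⟩ := h2
      refine integral_eq_zero_of_ae (.of_forall fun t => ?_)
      by_cases ht : t ∈ I u
      · refine indicator_of_notMem (fun h => ?_) _
        obtain ⟨s, hs, hs0⟩ := (hI u).isPreconnected.intermediate_value ht ht₀
          (hcont u).continuousOn ⟨(D.mem_iff.1 h).le, h2⟩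
        exact h1 s hs hs0
      · simp [F, indicator, hz _ ht]
  have hA := D.area he hP inter_subset_left hPc hi
  have hm : AEStronglyMeasurable g (volume.restrict (pr e '' P)) := hg1.aestronglyMeasurable.restrict
  rw [GG, ← integral_indicator D.meas, ← hg2,
    ← setIntegral_eq_integral_of_forall_compl_eq_zero hg4, ← hA,
    integral_map (pr e).continuous.measurable.aemeasurable (hA ▸ hm),
    integral_withDensity_eq_integral_toReal_smul (by fun_prop) (by simp), σ_eq,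
    setIntegral_eq_of_subset_of_forall_sdiff_eq_zero (s := P) D.isClosed_S.measurableSet
      inter_subset_left fun y hy => ?_]
  · refine setIntegral_congr_fun hP.measurableSet fun y hy => ?_
    simp only [hg3 y hy, ENNReal.toReal_ofReal (hPc y hy).le, smul_eq_mul, mul_comm]
  · rw [image_eq_zero_of_notMem_tsupport fun h => hy.2 ⟨hy.1, ball_subset_closedBall (hsr h)⟩,
      zero_mul]

variable {D}

theorem GG.smul {v : E3} {f : E3 → ℝ} (h : D.GG v f) (c : ℝ) : D.GG (c • v) f := by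
  simp only [GG, map_smul, smul_eq_mul, real_inner_smul_right, mul_left_comm _ c,
    integral_const_mul] at h ⊢
  rw [h]

theorem GG.sub {v w : E3} {f : E3 → ℝ} (hf : ContDiff ℝ 1 f) (h : D.GG v f) (h' : D.GG w f) :
    D.GG (v - w) f := by
  simp only [GG, map_sub, inner_sub_right, mul_sub] at h h' ⊢
  rw [integral_sub (D.int_Ω (cont_fderiv hf v)) (D.int_Ω (cont_fderiv hf w)),
    integral_sub (D.int_σ hf.continuous v) (D.int_σ hf.continuous w), h, h']

theorem GG.add {v : E3} {f g : E3 → ℝ} (hf : ContDiff ℝ 1 f) (hg : ContDiff ℝ 1 g) (h : D.GG v f)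
    (h' : D.GG v g) : D.GG v fun y => f y + g y := by
  simp only [GG, add_mul, fderiv_fun_add (hf.differentiable one_ne_zero _)
    (hg.differentiable one_ne_zero _), add_apply] at h h' ⊢
  rw [integral_add (D.int_Ω (cont_fderiv hf v)) (D.int_Ω (cont_fderiv hg v)),
    integral_add (D.int_σ hf.continuous v) (D.int_σ hg.continuous v), h, h']

variable (D)

theorem gg_nhds (v x : E3) : ∃ U, IsOpen U ∧ x ∈ U ∧ ∀ f : E3 → ℝ, ContDiff ℝ 1 f →
    HasCompactSupport f → tsupport f ⊆ U → D.GG v f := by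
  have h0 : ∀ f : E3 → ℝ, (∀ y ∈ D.S, y ∉ tsupport f) → ∫ y, f y * ⟪D.n y, v⟫ ∂D.σ = 0 :=
    fun f h => integral_eq_zero_of_ae (D.ae_S.mono fun y hy => by
      simp [image_eq_zero_of_notMem_tsupport (h y hy)])
  rcases lt_trichotomy (D.ρ x) 0 with hx | hx | hx
  · refine ⟨D.Ω, D.isOpen, D.mem_iff.2 hx, fun f hf hs hU => ?_⟩
    rw [GG, h0 f fun y hy h => (D.mem_iff.1 (hU h)).ne hy,
      setIntegral_eq_integral_of_forall_compl_eq_zero fun y hy => by
        rw [fderiv_of_notMem_tsupport ℝ fun h => hy (hU h)]; rfl]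
    have := integral_mul_fderiv_eq_neg_fderiv_mul_of_integrable (μ := volume)
      (f := fun _ : E3 => (1 : ℝ)) (g := f) (v := v) (by simp)
      (by simpa using (cont_fderiv hf v).integrable_of_hasCompactSupport (hs.fderiv_apply ℝ v))
      (by simpa using hf.continuous.integrable_of_hasCompactSupport hs)
      (fun _ _ => differentiableAt_const _) fun y _ => hf.differentiable one_ne_zero y
    simpa using this
  · have hn := D.norm_n hx
    let w := v + (‖v‖ + 1) • D.n x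
    have hw : 0 < ⟪D.n x, w⟫ := by
      have := abs_real_inner_le_norm (D.n x) v
      simp only [w, inner_add_right, real_inner_smul_right, real_inner_self_eq_norm_sq, hn] at *
      linarith [neg_abs_le ⟪D.n x, v⟫]
    have hw0 : 0 < ‖w‖ := norm_pos_iff.2 fun h => by simp [h] at hw
    obtain ⟨r, hr, h1⟩ := D.gg_local hn hx (by simp [hn])
    obtain ⟨s, hs, h2⟩ := D.gg_local (e := ‖w‖⁻¹ • w) (by simp [norm_smul, hw0.ne']) hx
      (by rw [real_inner_smul_right]; positivity)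
    refine ⟨ball x r ∩ ball x s, isOpen_ball.inter isOpen_ball,
      ⟨mem_ball_self hr, mem_ball_self hs⟩, fun f hf hc hU => ?_⟩
    have := GG.sub hf ((h2 f hf hc (hU.trans inter_subset_right)).smul ‖w‖)
      ((h1 f hf hc (hU.trans inter_subset_left)).smul (‖v‖ + 1))
    rwa [smul_smul, mul_inv_cancel₀ hw0.ne', one_smul, add_sub_cancel_right] at this
  · refine ⟨{y | 0 < D.ρ y}, isOpen_lt continuous_const D.cont, hx, fun f hf hs hU => ?_⟩
    rw [GG, h0 f fun y hy h => (hU h).ne' hy]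
    refine setIntegral_eq_zero_of_forall_eq_zero fun y hy => ?_
    rw [fderiv_of_notMem_tsupport ℝ fun h => (D.mem_iff.1 hy).not_gt (hU h)]
    rfl

theorem gg_compact (v : E3) {f : E3 → ℝ} (hf : ContDiff ℝ 1 f) (hs : HasCompactSupport f) :
    D.GG v f := by
  suffices h : ∃ U, IsOpen U ∧ tsupport f ⊆ U ∧ ∀ f : E3 → ℝ, ContDiff ℝ 1 f →
      HasCompactSupport f → tsupport f ⊆ U → D.GG v f by
    obtain ⟨U, -, h1, h2⟩ := h
    exact h2 f hf hs h1
  refine IsCompact.induction_on (p := fun s => ∃ U, IsOpen U ∧ s ⊆ U ∧ ∀ f : E3 → ℝ,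
    ContDiff ℝ 1 f → HasCompactSupport f → tsupport f ⊆ U → D.GG v f) hs ?_ ?_ ?_ ?_
  · obtain ⟨U, h1, -, h2⟩ := D.gg_nhds v 0
    exact ⟨U, h1, empty_subset _, h2⟩
  · rintro s t hst ⟨U, h1, h2, h3⟩
    exact ⟨U, h1, hst.trans h2, h3⟩
  · rintro s t ⟨U, hU, hsU, h1⟩ ⟨V, hV, htV, h2⟩
    refine ⟨U ∪ V, hU.union hV, union_subset_union hsU htV, fun f hf hs hUV => ?_⟩
    obtain ⟨φ, h3, h4, -⟩ := exists_contMDiffMap_zero_one_nhds_of_isClosed (n := 1) 𝓘(ℝ, E3)
      ((isClosed_tsupport f).sdiff hU) ((isClosed_tsupport f).sdiff hV)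
      (disjoint_left.2 fun y hy hy' => (hUV hy.1).elim hy.2 hy'.2)
    have hφ : ContDiff ℝ 1 φ := φ.contMDiff.contDiff
    have h5 := h1 (fun y => φ y * f y) (hφ.mul hf) hs.mul_left fun y hy => by_contra fun hy' =>
      notMem_tsupport_iff_eventuallyEq.2
        (eventually_nhdsSet_iff_forall.1 h3 y ⟨tsupport_mul_subset_right hy, hy'⟩)
        (tsupport_mul_subset_left hy)
    have h6 := h2 (fun y => (1 - φ y) * f y) ((contDiff_const.sub hφ).mul hf) hs.mul_left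
      fun y hy => by_contra fun hy' => notMem_tsupport_iff_eventuallyEq.2
        ((eventually_nhdsSet_iff_forall.1 h4 y ⟨tsupport_mul_subset_right hy, hy'⟩).mono
          fun z hz => by simp [hz]) (tsupport_mul_subset_left (f := fun y => 1 - φ y) hy)
    have h7 := GG.add (hφ.mul hf) ((contDiff_const.sub hφ).mul hf) h5 h6
    simpa [← add_mul] using h7
  · intro x _
    obtain ⟨U, h1, h2, h3⟩ := D.gg_nhds v x
    exact ⟨U, mem_nhdsWithin_of_mem_nhds (h1.mem_nhds h2), U, h1, subset_rfl, h3⟩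

theorem exists_bump : ∃ χ : E3 → ℝ, ContDiff ℝ 1 χ ∧ HasCompactSupport χ ∧
    ∀ y ∈ D.Ω ∪ D.S, χ y = 1 := by
  obtain ⟨R, hR, h1, h2⟩ := D.exists_ball
  let b : ContDiffBump (0 : E3) := ⟨R, R + 1, hR, by linarith⟩
  exact ⟨b, b.contDiff, b.hasCompactSupport, fun y hy =>
    b.one_of_mem_closedBall (union_subset h1 h2 hy)⟩

theorem gauss_green (v : E3) {f : E3 → ℝ} (hf : ContDiff ℝ 1 f) : D.GG v f := by
  obtain ⟨χ, h1, h2, h3⟩ := D.exists_bump
  have := D.gg_compact v (h1.mul hf) h2.mul_right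
  rw [GG] at this ⊢
  rw [← integral_congr_ae (f := fun y => χ y * f y * ⟪D.n y, v⟫)
    (D.ae_S.mono fun y hy => by simp [h3 y (Or.inr hy)]), ← this]
  refine setIntegral_congr_fun D.meas fun y hy => ?_
  have : f =ᶠ[𝓝 y] fun y => χ y * f y := by
    filter_upwards [D.isOpen.mem_nhds hy] with z hz
    simp [h3 z (Or.inl hz)]
  simp only [this.fderiv_eq]

theorem gg_pd (i : Fin 3) {f : E3 → ℝ} (hf : ContDiff ℝ 1 f) :
    ∫ y in D.Ω, pd i f y = ∫ y, f y * D.n y i ∂D.σ := by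
  simpa [GG, EuclideanSpace.inner_single_right, pd] using
    D.gauss_green (EuclideanSpace.single i 1) hf

end Dom

end Pool.Agent.MP_ec20d8_an

end

-- part MP_ec20d8_an.Whole
section

/-!
Potential theory in the whole space: the reproducing formula and the composition of gradients.
-/

open MeasureTheory Filter Topology Set Metric
open scoped RealInnerProductSpace

namespace Pool.Agent.MP_ec20d8_an

theorem cont_pd (i : Fin 3) {f : E3 → ℝ} (hf : ContDiff ℝ 1 f) : Continuous (pd i f) :=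
  cont_fderiv hf _

theorem pd_mul (i : Fin 3) {f g : E3 → ℝ} (hf : ContDiff ℝ 1 f) (hg : ContDiff ℝ 1 g) (y : E3) :
    pd i (fun y => f y * g y) y = pd i f y * g y + f y * pd i g y := by
  simp only [pd, fderiv_fun_mul (hf.differentiable one_ne_zero y) (hg.differentiable one_ne_zero y),
    add_apply, smul_apply, smul_eq_mul]
  ring

theorem dct_gg {μ : Measure E3} [NullSingletonClass μ] (x : E3) {F : ℝ → Fin 3 → E3 → ℝ}
    {F₀ : Fin 3 → E3 → ℝ} {a : ℝ → ℝ} (ha : ∀ z : E3, z ≠ 0 → ∀ i,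
      Tendsto (fun δ => gg (a δ) i z) (𝓝[>] 0) (𝓝 (gg 0 i z)))
    (hF : ∀ δ, 0 < δ → ∀ i, Measurable (F δ i)) {b : E3 → ℝ}
    (hb : ∀ δ, 0 < δ → ∀ᵐ y ∂μ, ∀ i, |F δ i y| ≤ b y)
    (hi : Integrable (fun y => b y * ‖y - x‖⁻¹ ^ 2) μ)
    (hl : ∀ᵐ y ∂μ, ∀ i, Tendsto (fun δ => F δ i y) (𝓝[>] 0) (𝓝 (F₀ i y))) :
    Tendsto (fun δ => ∫ y, ∑ i, F δ i y * gg (a δ) i (y - x) ∂μ) (𝓝[>] 0)
      (𝓝 (∫ y, ∑ i, F₀ i y * gg 0 i (y - x) ∂μ)) := by
  refine tendsto_integral_filter_of_dominated_convergence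
    (fun y => 3 * c4 * (b y * ‖y - x‖⁻¹ ^ 2)) ?_ ?_ (hi.const_mul _) ?_
  · filter_upwards [self_mem_nhdsWithin] with δ hδ
    have := hF δ hδ
    exact Measurable.aestronglyMeasurable (by fun_prop)
  · filter_upwards [self_mem_nhdsWithin] with δ hδ
    filter_upwards [hb δ hδ] with y hy
    refine (norm_sum_le_of_le (n := fun _ => b y * (c4 * ‖y - x‖⁻¹ ^ 2)) _ fun i _ => ?_).trans_eq
      (by simp; ring)
    rw [Real.norm_eq_abs, abs_mul]
    exact mul_le_mul (hy i) (abs_gg_le _ _ _) (abs_nonneg _) ((abs_nonneg _).trans (hy i))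
  · filter_upwards [hl, μ.ae_ne x] with y hy hx
    exact tendsto_finsetSum _ fun i _ => (hy i).mul (ha _ (sub_ne_zero.2 hx) i)

theorem dct_Gm {μ : Measure E3} [NullSingletonClass μ] (x : E3) {g : E3 → ℝ} (hg : Measurable g)
    (hi : Integrable (fun y => Gm 0 (y - x) * g y) μ) :
    Tendsto (fun δ => ∫ y, Gm δ (y - x) * g y ∂μ) (𝓝[>] 0) (𝓝 (∫ y, Gm 0 (y - x) * g y ∂μ)) := by
  refine tendsto_integral_filter_of_dominated_convergence _
    (.of_forall fun δ => Measurable.aestronglyMeasurable (by fun_prop)) (.of_forall fun δ => ?_)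
    hi.norm ?_
  · filter_upwards [μ.ae_ne x] with y hx
    rw [norm_mul, norm_mul]
    refine mul_le_mul_of_nonneg_right ((abs_Gm_le δ (sub_ne_zero.2 hx)).trans ?_) (norm_nonneg _)
    rw [Gm, ww_zero]
    exact le_abs_self _
  · filter_upwards [μ.ae_ne x] with y hx
    exact (tendsto_Gm (sub_ne_zero.2 hx)).mul_const _

theorem abs_pd_gg {δ : ℝ} (hδ : 0 < δ) (i : Fin 3) {x y : E3} (h : y ≠ x) :
    |pd i (fun y => gg δ i (y - x)) y| ≤ 4 * c4 * δ⁻¹ * ‖y - x‖⁻¹ ^ 2 := by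
  have h0 := ww_nonneg δ (y - x)
  have hc := c4_pos
  have h1 : ww δ (y - x) ^ 3 ≤ δ⁻¹ * ‖y - x‖⁻¹ ^ 2 := by
    rw [pow_succ']
    gcongr
    · rw [← mul_one δ⁻¹, le_inv_mul_iff₀ hδ]
      exact mul_ww _ _
    · exact ww_le _ (sub_ne_zero.2 h)
  have h2 : ww δ (y - x) ^ 5 * (y - x) i ^ 2 ≤ ww δ (y - x) ^ 3 := by
    calc _ = ww δ (y - x) ^ 3 * (|(y - x) i| * ww δ (y - x)) ^ 2 := by rw [mul_pow, sq_abs]; ring
      _ ≤ ww δ (y - x) ^ 3 * 1 ^ 2 := by
        gcongr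
        exact le_trans (by gcongr; exact abs_coord_le _ _) (norm_mul_ww δ (y - x))
      _ = _ := by ring
  have h3 : 0 ≤ ww δ (y - x) ^ 5 * (y - x) i ^ 2 := by positivity
  have h4 : 0 ≤ ww δ (y - x) ^ 3 := by positivity
  rw [pd_gg hδ.ne', abs_mul, abs_of_pos hc]
  have : |3 * ww δ (y - x) ^ 5 * (y - x) i ^ 2 - ww δ (y - x) ^ 3| ≤
      4 * (δ⁻¹ * ‖y - x‖⁻¹ ^ 2) := abs_le.2 ⟨by nlinarith, by nlinarith⟩
  nlinarith

/-- The reproducing formula in the whole space. -/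
theorem whole_C {v b : E3 → ℝ} (hv : ContDiff ℝ 1 v) {C : ℝ} (hC : ∀ y, |v y| ≤ C) (x : E3)
    (h1 : Integrable fun y => |v y| * ‖y - x‖⁻¹ ^ 2) (hb : ∀ᵐ y, ∀ i, |pd i v y| ≤ b y)
    (h2 : Integrable fun y => b y * ‖y - x‖⁻¹ ^ 2) :
    ∫ y, ∑ i, pd i v y * gg 0 i (y - x) = v x := by
  have hm := hv.continuous.measurable
  have hp := fun i => (cont_pd i hv).measurable
  have l1 := dct_gg x (F := fun _ i => pd i v) (a := id) (fun z hz i => tendsto_gg i hz)
    (fun _ _ => hp) (fun _ _ => hb) h2 (.of_forall fun _ _ => tendsto_const_nhds)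
  have l2 := tendsto_rr (f₀ := fun _ => v x) hm hC x (.of_forall fun z =>
    tendsto_nhdsWithin_of_tendsto_nhds (Continuous.tendsto' (hv.continuous.comp (by fun_prop)) _ _
      (by simp)))
  rw [integral_const_mul, rr_one.2, mul_one] at l2
  refine tendsto_nhds_unique (l1.congr' ?_) l2
  filter_upwards [self_mem_nhdsWithin] with δ (hδ : 0 < δ)
  have i1 : ∀ i, Integrable fun y => gg δ i (y - x) * pd i v y := fun i =>
    (h2.const_mul c4).mono' (Measurable.aestronglyMeasurable (by fun_prop)) (hb.mono fun y hy => by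
      rw [Real.norm_eq_abs, abs_mul]
      exact (mul_le_mul (abs_gg_le _ _ _) (hy i) (abs_nonneg _)
        (mul_nonneg c4_pos.le (sq_nonneg _))).trans_eq (by ring))
  have i2 : ∀ i, Integrable fun y => pd i (fun y => gg δ i (y - x)) y * v y := fun i =>
    (h1.const_mul (4 * c4 * δ⁻¹)).mono'
      ((cont_pd i (contDiff_gg hδ.ne' i x)).mul hv.continuous).aestronglyMeasurable
      ((volume.ae_ne x).mono fun y hy => by
        rw [Real.norm_eq_abs, abs_mul]
        exact (mul_le_mul_of_nonneg_right (abs_pd_gg hδ i hy) (abs_nonneg _)).trans_eq (by ring))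
  have i3 : ∀ i, Integrable fun y => gg δ i (y - x) * v y := fun i =>
    (h1.const_mul c4).mono' (Measurable.aestronglyMeasurable (by fun_prop)) (.of_forall fun y => by
      rw [Real.norm_eq_abs, abs_mul]
      exact (mul_le_mul_of_nonneg_right (abs_gg_le _ _ _) (abs_nonneg _)).trans_eq (by ring))
  have e : ∀ i, ∫ y, gg δ i (y - x) * pd i v y = -∫ y, pd i (fun y => gg δ i (y - x)) y * v y :=
    fun i => integral_mul_fderiv_eq_neg_fderiv_mul_of_integrable (i2 i) (i1 i) (i3 i)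
      (fun y _ => (contDiff_gg hδ.ne' i x).differentiable one_ne_zero y)
      fun y _ => hv.differentiable one_ne_zero y
  simp only [id, mul_comm (pd _ v _)]
  rw [integral_finsetSum _ fun i _ => i1 i]
  simp only [e, Finset.sum_neg_distrib]
  rw [← integral_finsetSum _ fun i _ => i2 i, ← integral_neg]
  simp only [← Finset.sum_mul, sum_pd_gg hδ.ne']
  simp [mul_comm]

theorem ww_inv {δ : ℝ} (hδ : 0 < δ) (z : E3) : ww δ⁻¹ z = δ * ww 1 (δ • z) := by
  have := ww_smul (inv_pos.2 hδ) (δ • z)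
  rwa [smul_smul, inv_mul_cancel₀ hδ.ne', one_smul, inv_inv] at this

theorem whole_E {x x' : E3} (h : x ≠ x') :
    ∫ y, ∑ i, gg 0 i (y - x') * gg 0 i (y - x) = Gm 0 (x - x') := by
  have hc := c4_pos
  let v : ℝ → E3 → ℝ := fun δ y => Gm δ (y - x') * (δ⁻¹ * ww δ⁻¹ (y - x'))
  have hχ : ∀ δ : ℝ, 0 < δ → ContDiff ℝ 1 fun y => ww δ⁻¹ (y - x') := fun δ hδ =>
    (contDiff_ww (inv_pos.2 hδ).ne').comp (contDiff_id.sub contDiff_const)
  have hv : ∀ δ, 0 < δ → ContDiff ℝ 1 (v δ) := fun δ hδ =>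
    (contDiff_Gm hδ.ne' x').mul (contDiff_const.mul (hχ δ hδ))
  have hp : ∀ δ, 0 < δ → ∀ i y, pd i (v δ) y = gg δ i (y - x') * (δ⁻¹ * ww δ⁻¹ (y - x')) -
      Gm δ (y - x') * (δ⁻¹ * (ww δ⁻¹ (y - x') ^ 3 * (y - x') i)) := by
    intro δ hδ i y
    rw [pd_mul i (contDiff_Gm hδ.ne' x') (contDiff_const.mul (hχ δ hδ)), pd_Gm hδ.ne',
      pd_mul i contDiff_const (hχ δ hδ), pd_ww (inv_pos.2 hδ).ne']
    simp [pd, sub_eq_add_neg]
  have hb : ∀ δ, 0 < δ → ∀ᵐ y : E3, ∀ i, |pd i (v δ) y| ≤ 2 * c4 * ‖y - x'‖⁻¹ ^ 2 := by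
    intro δ hδ
    filter_upwards [volume.ae_ne x'] with y hy i
    have hz := sub_ne_zero.2 hy
    have h0 := ww_nonneg δ⁻¹ (y - x')
    have h1 := mul_ww δ⁻¹ (y - x')
    have h2 : |δ⁻¹ * (ww δ⁻¹ (y - x') ^ 3 * (y - x') i)| ≤ ‖y - x'‖⁻¹ := by
      calc _ = (δ⁻¹ * ww δ⁻¹ (y - x')) * (|(y - x') i| * ww δ⁻¹ (y - x')) * ww δ⁻¹ (y - x') := by
            rw [abs_mul, abs_mul, abs_of_pos (inv_pos.2 hδ), abs_of_nonneg (pow_nonneg h0 3)]
            ring
        _ ≤ 1 * 1 * ‖y - x'‖⁻¹ := by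
            gcongr
            · exact le_trans (by gcongr; exact abs_coord_le _ _) (norm_mul_ww δ⁻¹ (y - x'))
            · exact ww_le _ hz
        _ = _ := by ring
    rw [hp δ hδ]
    refine (abs_sub _ _).trans ?_
    rw [abs_mul, abs_mul (Gm _ _), abs_of_nonneg (a := δ⁻¹ * ww _ _) (by positivity)]
    calc _ ≤ c4 * ‖y - x'‖⁻¹ ^ 2 * 1 + c4 * ‖y - x'‖⁻¹ * ‖y - x'‖⁻¹ := by
          gcongr
          exacts [abs_gg_le _ _ _, abs_Gm_le _ hz]
      _ = _ := by ring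
  have hi : Integrable fun y : E3 => 2 * c4 * ‖y - x'‖⁻¹ ^ 2 * ‖y - x‖⁻¹ ^ 2 := by
    simpa only [mul_assoc] using (riesz h.symm).1.const_mul (2 * c4)
  have hw : ∀ z : E3, Tendsto (fun δ : ℝ => ww 1 (δ • z)) (𝓝[>] 0) (𝓝 1) := fun z =>
    tendsto_nhdsWithin_of_tendsto_nhds (Continuous.tendsto'
      ((contDiff_ww one_ne_zero).continuous.comp (by fun_prop)) _ _ (by simp [ww]))
  have hid : Tendsto (fun δ : ℝ => δ) (𝓝[>] 0) (𝓝 0) :=
    tendsto_nhdsWithin_of_tendsto_nhds tendsto_id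
  have l1 := dct_gg x (F := fun δ i => pd i (v δ)) (F₀ := fun i y => gg 0 i (y - x'))
    (a := fun _ => 0) (fun _ _ _ => tendsto_const_nhds)
    (fun δ hδ i => (cont_pd i (hv δ hδ)).measurable) hb hi (by
      filter_upwards [volume.ae_ne x'] with y hy i
      have hz := sub_ne_zero.2 hy
      have := ((tendsto_gg i hz).mul (hw (y - x'))).sub ((tendsto_Gm hz).mul
        (((hid.pow 2).mul ((hw (y - x')).pow 3)).mul_const ((y - x') i)))
      simp only [mul_one, ne_eq, OfNat.ofNat_ne_zero, not_false_eq_true, zero_pow, zero_mul,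
        mul_zero, sub_zero] at this
      refine this.congr' ?_
      filter_upwards [self_mem_nhdsWithin] with δ (hδ : 0 < δ)
      rw [hp δ hδ, ww_inv hδ]
      field_simp)
  have l2 := (tendsto_Gm (sub_ne_zero.2 h)).mul (hw (x - x'))
  rw [mul_one] at l2
  refine tendsto_nhds_unique (l1.congr' ?_) l2
  filter_upwards [self_mem_nhdsWithin] with δ (hδ : 0 < δ)
  have h1 : ∀ y, |v δ y| = c4 * δ⁻¹ * (ww δ (y - x') * ww δ⁻¹ (y - x')) := fun y => by
    have := ww_nonneg δ (y - x')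
    have := ww_nonneg δ⁻¹ (y - x')
    rw [← abs_of_nonneg (a := c4 * δ⁻¹ * _) (by positivity)]
    simp only [v, Gm]
    ring_nf
  rw [whole_C (hv δ hδ) (C := c4 * δ⁻¹) (fun y => ?_) x ?_ (hb δ hδ) hi]
  · simp only [v, ww_inv hδ, inv_mul_cancel_left₀ hδ.ne']
  · have hm := (hv δ hδ).continuous.measurable
    refine ((riesz h.symm).1.const_mul (c4 * δ⁻¹)).mono'
      (Measurable.aestronglyMeasurable (by fun_prop)) ?_
    filter_upwards [volume.ae_ne x'] with y hy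
    have hz := sub_ne_zero.2 hy
    rw [Real.norm_of_nonneg (by positivity), h1, mul_assoc, sq ‖y - x'‖⁻¹]
    gcongr
    exacts [ww_nonneg _ _, ww_le _ hz, ww_le _ hz]
  · rw [h1]
    refine mul_le_of_le_one_right (by positivity) ?_
    calc _ = (δ * ww δ (y - x')) * (δ⁻¹ * ww δ⁻¹ (y - x')) := by field_simp
      _ ≤ 1 * 1 := mul_le_mul (mul_ww _ _) (mul_ww _ _)
        (mul_nonneg (inv_pos.2 hδ).le (ww_nonneg _ _)) zero_le_one
      _ = 1 := mul_one 1

theorem whole_symm (i j : Fin 3) (x x' : E3) :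
    ∫ y, gg 0 i (y - x) * gg 0 j (y - x') = ∫ y, gg 0 j (y - x) * gg 0 i (y - x') := by
  rw [← integral_sub_left_eq_self _ volume (x + x')]
  congr 1
  ext y
  have : ∀ k z, gg 0 k (-z) = -gg 0 k z := fun k z => by simp [gg, ww]
  rw [show x + x' - y - x = -(y - x') by abel, show x + x' - y - x' = -(y - x) by abel, this, this]
  ring

end Pool.Agent.MP_ec20d8_an

end

-- part MP_ec20d8_an.Bdry
section

/-!
Potential theory on the boundary: pointwise Green formulas.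
-/

open MeasureTheory Filter Topology Set Metric
open scoped RealInnerProductSpace ENNReal NNReal

namespace Pool.Agent.MP_ec20d8_an

theorem sum_coord (a b : E3) : ∑ i, a i * b i = ⟪b, a⟫ := by
  simp [PiLp.inner_apply]

theorem Gm_nonneg (δ : ℝ) (z : E3) : 0 ≤ Gm δ z := mul_nonneg c4_pos.le (ww_nonneg _ _)

theorem Gm_sub_rev (δ : ℝ) (x y : E3) : Gm δ (x - y) = Gm δ (y - x) := by
  simp only [Gm, ww, norm_sub_rev x y]

namespace Dom

variable (D : Dom)

theorem abs_n_le (y : E3) (i : Fin 3) : |D.n y i| ≤ 1 := (abs_coord_le _ i).trans (D.norm_n_le y)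

theorem int_σ' {f : E3 → ℝ} (hf : Continuous f) (i : Fin 3) :
    Integrable (fun y => f y * D.n y i) D.σ := by
  simpa [EuclideanSpace.inner_single_right] using D.int_σ hf (EuclideanSpace.single i 1)

theorem bdd_Ω {f : E3 → ℝ} (hf : Continuous f) : ∃ C, 0 ≤ C ∧ ∀ y ∈ D.Ω ∪ D.S, |f y| ≤ C := by
  obtain ⟨R, -, h1, h2⟩ := D.exists_ball
  obtain ⟨C, hC⟩ := (isCompact_closedBall (0 : E3) R).exists_bound_of_continuousOn hf.continuousOn
  exact ⟨|C|, abs_nonneg C, fun y hy => (hC y (union_subset h1 h2 hy)).trans (le_abs_self C)⟩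

theorem bdd_Ω' {F : Fin 3 → E3 → ℝ} (hF : ∀ i, Continuous (F i)) :
    ∃ C, 0 ≤ C ∧ ∀ y ∈ D.Ω ∪ D.S, ∀ i, |F i y| ≤ C := by
  obtain ⟨C, h0, hC⟩ := D.bdd_Ω (f := fun y => ∑ i, |F i y|) (by fun_prop)
  exact ⟨C, h0, fun y hy i => ((Finset.single_le_sum (f := fun i => |F i y|)
    (fun _ _ => abs_nonneg _) (Finset.mem_univ i)).trans (le_abs_self _)).trans (hC y hy)⟩

theorem green {u : E3 → ℝ} {F : Fin 3 → E3 → ℝ} (hu : ContDiff ℝ 1 u)
    (hF : ∀ i, ContDiff ℝ 1 (F i)) :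
    (∫ y in D.Ω, ∑ i, pd i u y * F i y) + ∫ y in D.Ω, u y * ∑ i, pd i (F i) y =
      ∫ y, u y * ∑ i, F i y * D.n y i ∂D.σ := by
  have h1 := fun i => cont_pd i hu
  have h2 := fun i => cont_pd i (hF i)
  have h3 := hu.continuous
  have h4 := fun i => (hF i).continuous
  rw [← integral_add (D.int_Ω (by fun_prop)) (D.int_Ω (by fun_prop))]
  simp only [Finset.mul_sum, ← Finset.sum_add_distrib, ← pd_mul _ hu (hF _), ← mul_assoc]
  rw [integral_finsetSum _ fun i _ => D.int_Ω (cont_pd i (hu.mul (hF i))),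
    integral_finsetSum _ fun i _ => D.int_σ' (f := fun y => u y * F i y) (h3.mul (h4 i)) i]
  exact Finset.sum_congr rfl fun i _ => D.gg_pd i (hu.mul (hF i))

theorem loc : ∃ C, ∀ x ∈ D.S, IntegrableOn (fun y => ‖y - x‖⁻¹ ^ 2) D.Ω ∧
    ∫ y in D.Ω, ‖y - x‖⁻¹ ^ 2 ≤ C := by
  obtain ⟨R, -, h1, h2⟩ := D.exists_ball
  exact ⟨_, fun x hx => loc_int D.meas (R := R + R) fun y hy => (norm_sub_le _ _).trans
    (add_le_add (mem_closedBall_zero_iff.1 (h1 hy)) (mem_closedBall_zero_iff.1 (h2 hx)))⟩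

theorem sum_pd_n {y : E3} (hy : y ∈ D.S) : ∑ i, pd i D.ρ y * D.n y i = ‖gradient D.ρ y‖ := by
  simp only [pd, D.fderiv_eq hy, EuclideanSpace.inner_single_right, mul_assoc, ← Finset.mul_sum]
  simp [sum_coord, D.norm_n hy]

theorem c1_pd (i : Fin 3) : ContDiff ℝ 1 (pd i D.ρ) :=
  (D.c2.fderiv_right (m := 1) le_rfl).clm_apply contDiff_const

theorem single_bound : ∃ C : ℝ≥0, ∀ x ∈ D.S, ∫⁻ y, ‖Gm 0 (y - x)‖ₑ ∂D.σ ≤ C := by
  obtain ⟨c, hc0, hc⟩ := D.grad_lower
  obtain ⟨C, hC⟩ := D.loc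
  have h1 := fun i => (D.c1_pd i).continuous
  have h2 := fun i => cont_pd i (D.c1_pd i)
  obtain ⟨M, hM0, hM⟩ := D.bdd_Ω' h1
  obtain ⟨N, hN0, hN⟩ := D.bdd_Ω (f := fun y => ∑ i, pd i (pd i D.ρ) y) (by fun_prop)
  have hc4 := c4_pos
  let B := 3 * c4 * M * C + c4 * N * ((volume.restrict D.Ω).real univ + C)
  refine ⟨(c⁻¹ * B).toNNReal, fun x hx => ?_⟩
  have key : ∀ δ, 0 < δ → ∫⁻ y, ‖Gm δ (y - x)‖ₑ ∂D.σ ≤ ENNReal.ofReal (c⁻¹ * B) := by
    intro δ hδ
    have hG := (contDiff_Gm hδ.ne' x).continuous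
    have hi : Integrable (fun y => Gm δ (y - x)) D.σ := by
      obtain ⟨K, -, hK⟩ := D.bdd_Ω hG
      exact (integrable_const K).mono' hG.aestronglyMeasurable
        (D.ae_S.mono fun y hy => hK y (Or.inr hy))
    rw [← ofReal_integral_norm_eq_lintegral_enorm hi]
    refine ENNReal.ofReal_le_ofReal ((le_inv_mul_iff₀ hc0).2 ?_)
    have h3 := D.green (contDiff_Gm hδ.ne' x) D.c1_pd
    have h4 : c * ∫ y, ‖Gm δ (y - x)‖ ∂D.σ ≤
        ∫ y, Gm δ (y - x) * ∑ i, pd i D.ρ y * D.n y i ∂D.σ := by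
      rw [← integral_const_mul]
      refine integral_mono_ae (hi.norm.const_mul c) ?_ (D.ae_S.mono fun y hy => ?_)
      · simp only [Finset.mul_sum, ← mul_assoc]
        exact integrable_finsetSum _ fun i _ => D.int_σ' (hG.mul (h1 i)) i
      · simp only [D.sum_pd_n hy, Real.norm_of_nonneg (Gm_nonneg _ _), mul_comm c]
        exact mul_le_mul_of_nonneg_left (hc y hy) (Gm_nonneg _ _)
    have h5 : ∫ y in D.Ω, ∑ i, pd i (fun y => Gm δ (y - x)) y * pd i D.ρ y ≤ 3 * c4 * M * C := by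
      refine le_trans ?_ (mul_le_mul_of_nonneg_left (hC x hx).2 (by positivity))
      rw [← integral_const_mul]
      have := fun i => cont_pd i (contDiff_Gm hδ.ne' x)
      refine setIntegral_mono_on (D.int_Ω (by fun_prop)) ((hC x hx).1.const_mul _) D.meas
        fun y hy => (Finset.sum_le_sum (g := fun _ => c4 * ‖y - x‖⁻¹ ^ 2 * M) fun i _ => ?_).trans_eq
          (by simp; ring)
      rw [pd_Gm hδ.ne']
      refine (le_abs_self _).trans ?_
      rw [abs_mul]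
      exact mul_le_mul (abs_gg_le _ _ _) (hM y (Or.inl hy) i) (abs_nonneg _) (by positivity)
    have h6 : ∫ y in D.Ω, Gm δ (y - x) * ∑ i, pd i (pd i D.ρ) y ≤
        c4 * N * ((volume.restrict D.Ω).real univ + C) := by
      have h7 := D.int_Ω (f := fun _ => (1 : ℝ)) continuous_const
      refine le_trans (b := ∫ y in D.Ω, c4 * N * (1 + ‖y - x‖⁻¹ ^ 2)) ?_ ?_
      · refine integral_mono_ae (D.int_Ω (by fun_prop)) ((h7.add (hC x hx).1).const_mul _) ?_
        filter_upwards [ae_restrict_mem D.meas, (volume.restrict D.Ω).ae_ne x] with y hy hyx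
        refine (le_abs_self _).trans ?_
        rw [abs_mul]
        refine (mul_le_mul (abs_Gm_le δ (sub_ne_zero.2 hyx)) (hN y (Or.inl hy)) (abs_nonneg _)
          (by positivity)).trans ?_
        rw [mul_right_comm]
        gcongr
        nlinarith [sq_nonneg (‖y - x‖⁻¹ - 1)]
      · rw [integral_const_mul, integral_add h7 (hC x hx).1, integral_const, smul_eq_mul, mul_one]
        gcongr
        exact (hC x hx).2
    linarith
  calc _ = ∫⁻ y, liminf (fun δ => ‖Gm δ (y - x)‖ₑ) (𝓝[>] 0) ∂D.σ := by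
        refine lintegral_congr_ae ((D.σ.ae_ne x).mono fun y hy => ?_)
        exact (tendsto_Gm (sub_ne_zero.2 hy)).enorm.liminf_eq.symm
    _ ≤ _ := (lintegral_liminf_le fun δ => by fun_prop).trans (liminf_le_of_frequently_le'
        (Eventually.frequently (eventually_mem_nhdsWithin.mono fun δ hδ => key δ hδ)))

theorem int_Gm {x : E3} (hx : x ∈ D.S) : Integrable (fun y => Gm 0 (y - x)) D.σ := by
  obtain ⟨C, hC⟩ := D.single_bound
  exact ⟨Measurable.aestronglyMeasurable (by fun_prop), (hC x hx).trans_lt ENNReal.coe_lt_top⟩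

/-- The Neumann-Poincare kernel. -/
noncomputable def kk (x y : E3) : ℝ := npKernel D.ρ x y

theorem sum_gg_n (δ : ℝ) (x y : E3) :
    ∑ i, gg δ i (y - x) * D.n y i = -(c4 * ww δ (y - x) ^ 3 * ⟪D.n y, y - x⟫) := by
  simp only [gg, ← sum_coord, Fin.sum_univ_three]
  ring

theorem kk_eq (x y : E3) : D.kk x y = -∑ i, gg 0 i (y - x) * D.n y i := by
  rw [sum_gg_n, neg_neg, kk, npKernel, ww_zero, c4, norm_sub_rev x y, real_inner_comm, n]
  ring

theorem meas_kk : Measurable (Function.uncurry D.kk) := by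
  have : Function.uncurry D.kk = fun z => -∑ i, gg 0 i (z.2 - z.1) * D.n z.2 i :=
    funext fun z => D.kk_eq _ _
  rw [this]
  fun_prop

theorem gg_n_bound : ∃ C, 0 ≤ C ∧ ∀ δ, ∀ x ∈ D.S, ∀ y ∈ D.S,
    |∑ i, gg δ i (y - x) * D.n y i| ≤ C * Gm 0 (y - x) := by
  obtain ⟨C, h0, hC⟩ := D.quad
  refine ⟨C, h0, fun δ x hx y hy => ?_⟩
  rcases eq_or_ne y x with rfl | hyx
  · simp [gg, Gm, ww]
  have h1 := ww_nonneg δ (y - x)
  have hc := c4_pos
  have h2 := hC x hx y hy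
  rw [← neg_sub, inner_neg_right, abs_neg, norm_neg] at h2
  rw [sum_gg_n, abs_neg, abs_mul, abs_of_nonneg (by positivity), Gm, ww_zero]
  calc _ ≤ c4 * ww δ (y - x) ^ 3 * (C * ‖y - x‖ ^ 2) := by gcongr
    _ = C * (c4 * ww δ (y - x)) * (‖y - x‖ * ww δ (y - x)) ^ 2 := by ring
    _ ≤ C * (c4 * ‖y - x‖⁻¹) * 1 ^ 2 := by
      gcongr
      exacts [ww_le _ (sub_ne_zero.2 hyx), norm_mul_ww _ _]
    _ = _ := by ring

/-- Green's representation formula at a boundary point. -/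
theorem bdry_C {v : E3 → ℝ} (hv : ContDiff ℝ 1 v) {x : E3} (hx : x ∈ D.S) :
    ∫ y in D.Ω, ∑ i, pd i v y * gg 0 i (y - x) = v x / 2 - ∫ y, D.kk x y * v y ∂D.σ := by
  have hm := hv.continuous.measurable
  obtain ⟨M, hM0, hM⟩ := D.bdd_Ω' fun i => cont_pd i hv
  obtain ⟨N, hN0, hN⟩ := D.bdd_Ω hv.continuous
  obtain ⟨C, hC0, hC⟩ := D.gg_n_bound
  obtain ⟨_, hl⟩ := D.loc
  have l1 := dct_gg (μ := volume.restrict D.Ω) x (F := fun _ i => pd i v) (a := id)
    (fun z hz i => tendsto_gg i hz) (fun _ _ i => (cont_pd i hv).measurable)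
    (fun _ _ => (ae_restrict_mem D.meas).mono fun y hy => hM y (Or.inl hy))
    ((hl x hx).1.const_mul M) (.of_forall fun _ _ => tendsto_const_nhds)
  have hn : D.n x ≠ 0 := norm_ne_zero_iff.1 (by simp [D.norm_n hx])
  have l2 := tendsto_rr (f := D.Ω.indicator v) (C := N)
    (f₀ := fun z => v x * {z : E3 | ⟪D.n x, z⟫ < 0}.indicator (fun _ => (1 : ℝ)) z)
    (hm.indicator D.meas) (fun y => by
      by_cases hy : y ∈ D.Ω
      · rw [indicator_of_mem hy]; exact hN y (Or.inl hy)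
      · simpa [indicator_of_notMem hy] using hN0) x (by
      filter_upwards [ae_inner_ne hn] with z hz
      rcases lt_or_gt_of_ne hz with h | h
      · rw [indicator_of_mem (show z ∈ {z : E3 | ⟪D.n x, z⟫ < 0} from h), mul_one]
        refine Tendsto.congr' ((D.ev_in hx h).mono fun δ hδ =>
          (indicator_of_mem (D.mem_iff.2 hδ) v).symm) ?_
        exact tendsto_nhdsWithin_of_tendsto_nhds
          (Continuous.tendsto' (hv.continuous.comp (by fun_prop)) _ _ (by simp))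
      · rw [indicator_of_notMem (show z ∉ {z : E3 | ⟪D.n x, z⟫ < 0} from h.not_gt), mul_zero]
        exact tendsto_const_nhds.congr' ((D.ev_out hx h).mono fun δ hδ =>
          (indicator_of_notMem (fun h => (D.mem_iff.1 h).not_gt hδ) v).symm))
  simp only [mul_assoc, integral_const_mul, half_rr hn] at l2
  have l3 : Tendsto (fun δ => ∫ y, v y * ∑ i, gg δ i (y - x) * D.n y i ∂D.σ) (𝓝[>] 0)
      (𝓝 (∫ y, v y * ∑ i, gg 0 i (y - x) * D.n y i ∂D.σ)) := by
    refine tendsto_integral_filter_of_dominated_convergence (fun y => N * (C * Gm 0 (y - x)))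
      (.of_forall fun δ => Measurable.aestronglyMeasurable (by fun_prop))
      (.of_forall fun δ => D.ae_S.mono fun y hy => ?_)
      (((D.int_Gm hx).const_mul C).const_mul N) ((D.σ.ae_ne x).mono fun y hy => ?_)
    · rw [Real.norm_eq_abs, abs_mul]
      exact mul_le_mul (hN y (Or.inr hy)) (hC δ x hx y hy) (abs_nonneg _) hN0
    · exact (tendsto_finsetSum _ fun i _ =>
        (tendsto_gg i (sub_ne_zero.2 hy)).mul_const _).const_mul _
  have e : v x / 2 - ∫ y, D.kk x y * v y ∂D.σ =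
      v x * (1 / 2) + ∫ y, v y * ∑ i, gg 0 i (y - x) * D.n y i ∂D.σ := by
    simp only [kk_eq, neg_mul, integral_neg, mul_comm (v _)]
    ring
  rw [e]
  refine tendsto_nhds_unique (l1.congr' ?_) (l2.add l3)
  filter_upwards [self_mem_nhdsWithin] with δ (hδ : 0 < δ)
  rw [← D.green hv fun i => contDiff_gg hδ.ne' i x]
  have e2 : ∫ y, D.Ω.indicator v y * rr δ (y - x) = ∫ y in D.Ω, v y * rr δ (y - x) := by
    rw [← integral_indicator D.meas]
    exact integral_congr_ae (.of_forall fun y =>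
      (indicator_mul_left D.Ω v fun y => rr δ (y - x)).symm)
  simp only [sum_pd_gg hδ.ne', mul_neg, integral_neg, id, e2]
  ring

/-- The single layer potential of the normal component of a divergence free field. -/
theorem bdry_D {F : Fin 3 → E3 → ℝ} (hF : ∀ i, ContDiff ℝ 1 (F i))
    (hd : ∀ y, ∑ i, pd i (F i) y = 0) {x : E3} (hx : x ∈ D.S) :
    ∫ y in D.Ω, ∑ i, F i y * gg 0 i (y - x) =
      ∫ y, Gm 0 (y - x) * ∑ i, F i y * D.n y i ∂D.σ := by
  have hm := fun i => (hF i).continuous.measurable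
  obtain ⟨M, hM0, hM⟩ := D.bdd_Ω' fun i => (hF i).continuous
  obtain ⟨_, hl⟩ := D.loc
  have l1 := dct_gg (μ := volume.restrict D.Ω) x (F := fun _ => F) (a := id)
    (fun z hz i => tendsto_gg i hz) (fun _ _ => hm)
    (fun _ _ => (ae_restrict_mem D.meas).mono fun y hy => hM y (Or.inl hy))
    ((hl x hx).1.const_mul M) (.of_forall fun _ _ => tendsto_const_nhds)
  have l2 := dct_Gm (μ := D.σ) x (g := fun y => ∑ i, F i y * D.n y i) (by fun_prop)
    ((D.int_Gm hx).mul_bdd (c := ∑ _i : Fin 3, M * 1)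
      (Measurable.aestronglyMeasurable (by fun_prop)) (D.ae_S.mono fun y hy =>
        norm_sum_le_of_le _ fun i _ => by
          rw [Real.norm_eq_abs, abs_mul]
          exact mul_le_mul (hM y (Or.inr hy) i) (D.abs_n_le y i) (abs_nonneg _) hM0))
  refine tendsto_nhds_unique (l1.congr' ?_) l2
  filter_upwards [self_mem_nhdsWithin] with δ (hδ : 0 < δ)
  rw [← D.green (contDiff_Gm hδ.ne' x) hF]
  simp [hd, pd_Gm hδ.ne', mul_comm]

theorem bdry_E {x x' : E3} (hx : x ∈ D.S) (h : x ≠ x')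
    (hi : Integrable (fun y => Gm 0 (y - x') * D.kk x y) D.σ) :
    ∫ y in D.Ω, ∑ i, gg 0 i (y - x) * gg 0 i (y - x') =
      Gm 0 (x - x') / 2 - ∫ y, Gm 0 (y - x') * D.kk x y ∂D.σ := by
  have l1 := dct_gg (μ := volume.restrict D.Ω) x' (F := fun _ i y => gg 0 i (y - x)) (a := id)
    (fun z hz i => tendsto_gg i hz) (fun _ _ _ => by fun_prop)
    (fun _ _ => .of_forall fun y i => abs_gg_le 0 i (y - x))
    (by simpa only [mul_assoc] using ((riesz h).1.const_mul c4).restrict (s := D.Ω))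
    (.of_forall fun _ _ => tendsto_const_nhds)
  have l2 := dct_Gm (μ := D.σ) x' (D.meas_kk.of_uncurry_left (x := x)) hi
  refine tendsto_nhds_unique (l1.congr' ?_) (((tendsto_Gm (sub_ne_zero.2 h)).div_const 2).sub l2)
  filter_upwards [self_mem_nhdsWithin] with δ (hδ : 0 < δ)
  have := D.bdry_C (contDiff_Gm hδ.ne' x') hx
  simp only [pd_Gm hδ.ne'] at this
  simp only [id, mul_comm (Gm _ _), mul_comm (gg 0 _ _), this]

end Dom

end Pool.Agent.MP_ec20d8_an

end

-- part MP_ec20d8_an.KerOp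
section

/-!
Integral operators between `L²` spaces: Schur test, the `T T*` bound, Fubini formulas.
-/

open MeasureTheory Function
open scoped ENNReal NNReal RealInnerProductSpace

namespace Pool.Agent.MP_ec20d8_an

variable {X X' Y : Type*} [MeasurableSpace X] [MeasurableSpace X'] [MeasurableSpace Y]
  {σ : Measure X} {σ' : Measure X'} {μ : Measure Y}

theorem lcs (μ : Measure Y) {f g : Y → ℝ≥0∞} (hf : Measurable f) (hg : Measurable g) :
    (∫⁻ y, f y * g y ∂μ) ^ 2 ≤ (∫⁻ y, f y ^ 2 ∂μ) * ∫⁻ y, g y ^ 2 ∂μ := by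
  have h := ENNReal.lintegral_mul_le_Lp_mul_Lq μ Real.HolderConjugate.two_two hf.aemeasurable
    hg.aemeasurable
  simp only [Pi.mul_apply, ENNReal.rpow_ofNat] at h
  refine (pow_le_pow_left' h 2).trans_eq ?_
  rw [mul_pow, ← ENNReal.rpow_natCast, ← ENNReal.rpow_natCast, ← ENNReal.rpow_mul,
    ← ENNReal.rpow_mul]
  norm_num

theorem lcs_lt (μ : Measure Y) {f g : Y → ℝ≥0∞} (hf : Measurable f) (hg : Measurable g)
    (h1 : ∫⁻ y, f y ^ 2 ∂μ < ⊤) (h2 : ∫⁻ y, g y ^ 2 ∂μ < ⊤) : ∫⁻ y, f y * g y ∂μ < ⊤ := by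
  have := (lcs μ hf hg).trans_lt (ENNReal.mul_lt_top h1 h2)
  simpa [ENNReal.pow_lt_top_iff] using this

theorem lsq (f : Y → ℝ) : ∫⁻ y, ‖f y‖ₑ ^ 2 ∂μ = eLpNorm f 2 μ ^ 2 := by
  simpa using (eLpNorm_nnreal_pow_eq_lintegral (f := f) (μ := μ) (p := 2) two_ne_zero).symm

theorem lsq_lt (f : L2 μ) : ∫⁻ y, ‖f y‖ₑ ^ 2 ∂μ < ⊤ := by
  rw [lsq]
  exact ENNReal.pow_lt_top (Lp.eLpNorm_lt_top f)

theorem L2_meas (f : L2 μ) : Measurable f := (Lp.stronglyMeasurable f).measurable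

/-- A nonnegative kernel is bounded on `L²`. -/
def LBound (μ : Measure Y) (σ : Measure X) (w : Y → X → ℝ≥0∞) : Prop :=
  ∃ C : ℝ≥0, ∀ φ : X → ℝ≥0∞, Measurable φ →
    ∫⁻ y, (∫⁻ x, w y x * φ x ∂σ) ^ 2 ∂μ ≤ C ^ 2 * ∫⁻ x, φ x ^ 2 ∂σ

theorem LBound.mono {w w' : Y → X → ℝ≥0∞} (h : LBound μ σ w) (c : ℝ≥0)
    (hw : ∀ᵐ y ∂μ, ∀ᵐ x ∂σ, w' y x ≤ c * w y x) : LBound μ σ w' := by
  obtain ⟨C, hC⟩ := h
  refine ⟨c * C, fun φ hφ => ?_⟩
  calc _ ≤ ∫⁻ y, c ^ 2 * (∫⁻ x, w y x * φ x ∂σ) ^ 2 ∂μ := by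
        refine lintegral_mono_ae (hw.mono fun y hy => ?_)
        rw [← mul_pow, ← lintegral_const_mul' _ _ ENNReal.coe_ne_top]
        refine pow_le_pow_left' (lintegral_mono_ae (hy.mono fun x hx => ?_)) 2
        rw [← mul_assoc]
        gcongr
    _ ≤ _ := by
        rw [lintegral_const_mul' _ _ (by finiteness), ENNReal.coe_mul, mul_pow, mul_assoc]
        gcongr
        exact hC φ hφ

theorem lbound_schur [SFinite μ] [SFinite σ] {w : Y → X → ℝ≥0∞} (hw : Measurable (uncurry w))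
    (C : ℝ≥0) (h1 : ∀ᵐ y ∂μ, ∫⁻ x, w y x ∂σ ≤ C) (h2 : ∀ᵐ x ∂σ, ∫⁻ y, w y x ∂μ ≤ C) :
    LBound μ σ w := by
  refine ⟨C, fun φ hφ => ?_⟩
  calc _ ≤ ∫⁻ y, C * ∫⁻ x, w y x * φ x ^ 2 ∂σ ∂μ := by
        refine lintegral_mono_ae (h1.mono fun y hy => ?_)
        have hm : Measurable fun x => w y x ^ (1 / 2 : ℝ) :=
          (hw.of_uncurry_left (x := y)).pow_const _
        have e : ∀ t : ℝ≥0∞, (t ^ (1 / 2 : ℝ)) ^ 2 = t := fun t => by
          rw [← ENNReal.rpow_natCast, ← ENNReal.rpow_mul]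
          norm_num
        have := lcs σ hm (hm.mul hφ)
        simp only [Pi.mul_apply, ← mul_assoc, ← sq, mul_pow, e] at this
        exact this.trans (by gcongr)
    _ = C * ∫⁻ x, (∫⁻ y, w y x ∂μ) * φ x ^ 2 ∂σ := by
        rw [lintegral_const_mul' _ _ ENNReal.coe_ne_top, lintegral_lintegral_swap (by fun_prop)]
        congr 2
        ext x
        exact lintegral_mul_const _ (hw.of_uncurry_right (y := x))
    _ ≤ C * ∫⁻ x, C * φ x ^ 2 ∂σ := by
        gcongr _ * ?_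
        exact lintegral_mono_ae (h2.mono fun x hx => by gcongr)
    _ = _ := by rw [lintegral_const_mul' _ _ ENNReal.coe_ne_top, sq, mul_assoc]

theorem lbound_comp [SFinite μ] [SFinite σ] {m : Y → X → ℝ≥0∞} (hm : Measurable (uncurry m))
    (h : LBound σ σ fun x x' => ∫⁻ y, m y x * m y x' ∂μ) : LBound μ σ m := by
  obtain ⟨C, hC⟩ := h
  refine ⟨NNReal.sqrt C, fun φ hφ => ?_⟩
  have h1 : ∫⁻ y, (∫⁻ x, m y x * φ x ∂σ) ^ 2 ∂μ =
      ∫⁻ x, φ x * ∫⁻ x', (∫⁻ y, m y x * m y x' ∂μ) * φ x' ∂σ ∂σ := by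
    have e1 : ∀ y, (∫⁻ x, m y x * φ x ∂σ) ^ 2 =
        ∫⁻ x, (m y x * φ x) * ∫⁻ x', m y x' * φ x' ∂σ ∂σ := fun y => by
      rw [lintegral_mul_const _ (by fun_prop), sq]
    simp only [e1]
    rw [lintegral_lintegral_swap]
    · congr 1
      ext x
      have e2 : ∀ y, m y x * φ x * ∫⁻ x', m y x' * φ x' ∂σ =
          φ x * ∫⁻ x', m y x * m y x' * φ x' ∂σ := fun y => by
        simp only [mul_assoc]
        rw [lintegral_const_mul (m y x) (by fun_prop)]
        ring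
      simp only [e2]
      rw [lintegral_const_mul _ (Measurable.lintegral_prod_right (by fun_prop)),
        lintegral_lintegral_swap (by fun_prop)]
      congr 2
      ext x'
      exact lintegral_mul_const _ (by fun_prop)
    · refine Measurable.aemeasurable (Measurable.mul (by fun_prop) ?_)
      exact (Measurable.lintegral_prod_right (f := fun y x' => m y x' * φ x')
        (by fun_prop)).comp measurable_fst
  have h2 := lcs σ hφ (g := fun x => ∫⁻ x', (∫⁻ y, m y x * m y x' ∂μ) * φ x' ∂σ)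
    (Measurable.lintegral_prod_right (Measurable.mul
      (Measurable.lintegral_prod_right (f := fun (z : X × X) y => m y z.1 * m y z.2)
        (by fun_prop)) (by fun_prop)))
  rw [h1, ← ENNReal.coe_pow, NNReal.sq_sqrt]
  refine (ENNReal.pow_le_pow_left_iff two_ne_zero).1 (h2.trans ?_)
  calc _ ≤ (∫⁻ x, φ x ^ 2 ∂σ) * (C ^ 2 * ∫⁻ x, φ x ^ 2 ∂σ) := by gcongr; exact hC φ hφ
    _ = _ := by ring

/-- A real kernel whose modulus is bounded on `L²`. -/
structure IsKer (μ : Measure Y) (σ : Measure X) (a : Y → X → ℝ) : Prop where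
  meas : Measurable (uncurry a)
  bound : LBound μ σ fun y x => ‖a y x‖ₑ

variable [SFinite μ] [SFinite σ] [SFinite σ'] {a : Y → X → ℝ} {b : Y → X' → ℝ}

namespace IsKer

omit [SFinite μ] in
theorem lmeas (h : IsKer μ σ a) (φ : L2 σ) :
    Measurable fun y => ∫⁻ x, ‖a y x‖ₑ * ‖φ x‖ₑ ∂σ :=
  Measurable.lintegral_prod_right (h.meas.enorm.mul ((L2_meas φ).comp measurable_snd).enorm)

omit [SFinite μ] [SFinite σ] in
theorem lint_lt (h : IsKer μ σ a) (φ : L2 σ) :
    ∫⁻ y, (∫⁻ x, ‖a y x‖ₑ * ‖φ x‖ₑ ∂σ) ^ 2 ∂μ < ⊤ := by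
  obtain ⟨C, hC⟩ := h.bound
  exact (hC _ (L2_meas φ).enorm).trans_lt (ENNReal.mul_lt_top (by finiteness) (lsq_lt φ))

omit [SFinite μ] in
theorem ae_int (h : IsKer μ σ a) (φ : L2 σ) : ∀ᵐ y ∂μ, Integrable (fun x => a y x * φ x) σ := by
  filter_upwards [ae_lt_top ((h.lmeas φ).pow_const 2) (h.lint_lt φ).ne] with y hy
  refine ⟨((h.meas.of_uncurry_left (x := y)).mul (L2_meas φ)).aestronglyMeasurable, ?_⟩
  simpa [HasFiniteIntegral, ENNReal.pow_lt_top_iff] using hy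

omit [SFinite μ] [SFinite σ] in
theorem eLpNorm_le (h : IsKer μ σ a) : ∃ C : ℝ≥0, ∀ φ : L2 σ,
    eLpNorm (fun y => ∫ x, a y x * φ x ∂σ) 2 μ ≤ C * eLpNorm φ 2 σ := by
  obtain ⟨C, hC⟩ := h.bound
  refine ⟨C, fun φ => (ENNReal.pow_le_pow_left_iff two_ne_zero).1 ?_⟩
  rw [mul_pow, ← lsq, ← lsq]
  refine le_trans (lintegral_mono fun y => pow_le_pow_left' ?_ 2) (hC _ (L2_meas φ).enorm)
  simpa using enorm_integral_le_lintegral_enorm (μ := σ) fun x => a y x * φ x

omit [SFinite μ] in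
theorem memLp (h : IsKer μ σ a) (φ : L2 σ) : MemLp (fun y => ∫ x, a y x * φ x ∂σ) 2 μ := by
  obtain ⟨C, hC⟩ := h.eLpNorm_le
  refine ⟨(StronglyMeasurable.integral_prod_right (f := fun y x => a y x * φ x)
    (h.meas.mul ((L2_meas φ).comp measurable_snd)).stronglyMeasurable).aestronglyMeasurable,
    (hC φ).trans_lt (ENNReal.mul_lt_top ENNReal.coe_lt_top (Lp.eLpNorm_lt_top φ))⟩

/-- The integral operator as a linear map. -/
noncomputable def lin (h : IsKer μ σ a) : L2 σ →ₗ[ℝ] L2 μ where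
  toFun φ := (h.memLp φ).toLp _
  map_add' φ ψ := by
    rw [← MemLp.toLp_add, MemLp.toLp_eq_toLp_iff]
    filter_upwards [h.ae_int φ, h.ae_int ψ] with y h1 h2
    rw [Pi.add_apply, ← integral_add h1 h2]
    refine integral_congr_ae ?_
    filter_upwards [Lp.coeFn_add φ ψ] with x hx
    rw [hx, Pi.add_apply, mul_add]
  map_smul' c φ := by
    rw [RingHom.id_apply, ← MemLp.toLp_const_smul, MemLp.toLp_eq_toLp_iff]
    refine .of_forall fun y => ?_
    rw [Pi.smul_apply, smul_eq_mul, ← integral_const_mul]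
    refine integral_congr_ae ?_
    filter_upwards [Lp.coeFn_smul c φ] with x hx
    rw [hx, Pi.smul_apply, smul_eq_mul, mul_left_comm]

/-- The integral operator. -/
noncomputable def op (h : IsKer μ σ a) : L2 σ →L[ℝ] L2 μ :=
  h.lin.mkContinuousOfExistsBound <| by
    obtain ⟨C, hC⟩ := h.eLpNorm_le
    refine ⟨C, fun φ => ?_⟩
    change ‖(h.memLp φ).toLp _‖ ≤ _
    rw [Lp.norm_toLp, Lp.norm_def, ← ENNReal.coe_toReal, ← ENNReal.toReal_mul]
    exact ENNReal.toReal_mono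
      (ENNReal.mul_ne_top ENNReal.coe_ne_top (Lp.eLpNorm_ne_top φ)) (hC φ)

omit [SFinite μ] in
theorem op_ae (h : IsKer μ σ a) (φ : L2 σ) : h.op φ =ᵐ[μ] fun y => ∫ x, a y x * φ x ∂σ :=
  (h.memLp φ).coeFn_toLp

omit [SFinite μ] in
theorem op_ae' (h : IsKer μ σ a) {φ : L2 σ} {f : X → ℝ} (hf : φ =ᵐ[σ] f) :
    h.op φ =ᵐ[μ] fun y => ∫ x, a y x * f x ∂σ :=
  (h.op_ae φ).trans (.of_forall fun _ => integral_congr_ae (hf.mono fun x hx => by simp [hx]))

omit [SFinite μ] in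
theorem int_prod (h : IsKer μ σ a) (ψ : L2 μ) (φ : L2 σ) :
    Integrable (fun z : Y × X => ψ z.1 * a z.1 z.2 * φ z.2) (μ.prod σ) := by
  have hm : Measurable fun z : Y × X => ψ z.1 * a z.1 z.2 * φ z.2 :=
    (((L2_meas ψ).comp measurable_fst).mul h.meas).mul ((L2_meas φ).comp measurable_snd)
  refine ⟨hm.aestronglyMeasurable, ?_⟩
  rw [HasFiniteIntegral, lintegral_prod _ hm.enorm.aemeasurable]
  refine lt_of_eq_of_lt ?_ (lcs_lt μ (L2_meas ψ).enorm (h.lmeas φ) (lsq_lt ψ) (h.lint_lt φ))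
  congr 1
  ext y
  simp only [enorm_mul, mul_assoc]
  exact lintegral_const_mul _
    ((h.meas.of_uncurry_left (x := y)).enorm.mul (L2_meas φ).enorm)

theorem inner_prod (h : IsKer μ σ a) (ψ : L2 μ) (φ : L2 σ) :
    ⟪ψ, h.op φ⟫ = ∫ z : Y × X, ψ z.1 * a z.1 z.2 * φ z.2 ∂μ.prod σ := by
  rw [integral_prod _ (h.int_prod ψ φ), L2.inner_def]
  refine integral_congr_ae ?_
  filter_upwards [h.op_ae φ] with y hy
  simp only [hy, mul_assoc, integral_const_mul]
  simp [mul_comm]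

theorem inner_op (h : IsKer μ σ a) {ψ : L2 μ} {g : Y → ℝ} (hg : ψ =ᵐ[μ] g) (φ : L2 σ) :
    ⟪ψ, h.op φ⟫ = ∫ x, (∫ y, g y * a y x ∂μ) * φ x ∂σ := by
  rw [h.inner_prod, integral_prod_symm _ (h.int_prod ψ φ)]
  simp only [integral_mul_const]
  congr 1
  ext x
  congr 1
  exact integral_congr_ae (hg.mono fun y hy => by simp [hy])

theorem int_op (h : IsKer μ σ a) {ψ : L2 μ} {g : Y → ℝ} (hg : ψ =ᵐ[μ] g) (φ : L2 σ) :
    Integrable (fun x => (∫ y, g y * a y x ∂μ) * φ x) σ := by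
  refine (h.int_prod ψ φ).integral_prod_right.congr (.of_forall fun x => ?_)
  simp only [integral_mul_const]
  congr 1
  exact integral_congr_ae (hg.mono fun y hy => by simp [hy])

omit [SFinite μ] in
theorem int_triple (ha : IsKer μ σ a) (hb : IsKer μ σ' b) (φ : L2 σ) (ψ : L2 σ') :
    Integrable (fun w : Y × X × X' => (a w.1 w.2.1 * φ w.2.1) * (b w.1 w.2.2 * ψ w.2.2))
      (μ.prod (σ.prod σ')) := by
  have h1 := ha.meas
  have h2 := hb.meas
  have h3 := L2_meas φ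
  have h4 := L2_meas ψ
  have hm : Measurable fun w : Y × X × X' =>
      (a w.1 w.2.1 * φ w.2.1) * (b w.1 w.2.2 * ψ w.2.2) := by fun_prop
  refine ⟨hm.aestronglyMeasurable, ?_⟩
  rw [HasFiniteIntegral, lintegral_prod _ hm.enorm.aemeasurable]
  refine lt_of_eq_of_lt ?_ (lcs_lt μ (ha.lmeas φ) (hb.lmeas ψ) (ha.lint_lt φ) (hb.lint_lt ψ))
  congr 1
  ext y
  simp only [enorm_mul]
  exact lintegral_prod_mul (f := fun x => ‖a y x‖ₑ * ‖φ x‖ₑ) (g := fun x => ‖b y x‖ₑ * ‖ψ x‖ₑ)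
    (by fun_prop) (by fun_prop)

theorem inner_op_op (ha : IsKer μ σ a) (hb : IsKer μ σ' b) (φ : L2 σ) (ψ : L2 σ') :
    ⟪ha.op φ, hb.op ψ⟫ =
      ∫ z : X × X', φ z.1 * (∫ y, a y z.1 * b y z.2 ∂μ) * ψ z.2 ∂σ.prod σ' := by
  have h := integral_integral_swap (f := fun y (z : X × X') =>
    (a y z.1 * φ z.1) * (b y z.2 * ψ z.2)) (ha.int_triple hb φ ψ)
  have e : ∀ z : X × X', φ z.1 * (∫ y, a y z.1 * b y z.2 ∂μ) * ψ z.2 =
      ∫ y, (a y z.1 * φ z.1) * (b y z.2 * ψ z.2) ∂μ := fun z => by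
    rw [← integral_const_mul, ← integral_mul_const]
    congr 1
    ext y
    ring
  simp only [e]
  rw [← h, L2.inner_def]
  refine integral_congr_ae ?_
  filter_upwards [ha.op_ae φ, hb.op_ae ψ] with y h1 h2
  rw [h1, h2, integral_prod_mul (fun x => a y x * φ x) fun x => b y x * ψ x]
  simp [mul_comm]

theorem int_op_op (ha : IsKer μ σ a) (hb : IsKer μ σ' b) (φ : L2 σ) (ψ : L2 σ') :
    Integrable (fun z : X × X' => φ z.1 * (∫ y, a y z.1 * b y z.2 ∂μ) * ψ z.2) (σ.prod σ') := by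
  refine (ha.int_triple hb φ ψ).integral_prod_right.congr (.of_forall fun z => ?_)
  simp only
  rw [← integral_const_mul, ← integral_mul_const]
  congr 1
  ext y
  ring

theorem inner_flip {a' : X → Y → ℝ} (h : IsKer μ σ a) (h' : IsKer σ μ a')
    (e : ∀ x y, a' x y = a y x) (ψ : L2 μ) (φ : L2 σ) : ⟪h'.op ψ, φ⟫ = ⟪ψ, h.op φ⟫ := by
  rw [h.inner_op (ae_eq_refl _), L2.inner_def]
  refine integral_congr_ae ?_
  filter_upwards [h'.op_ae ψ] with x hx
  simp [hx, e, mul_comm]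

end IsKer

end Pool.Agent.MP_ec20d8_an

end

-- part MP_ec20d8_an.Ops
section

/-!
The layer potential operators and their Green identities.
-/

open MeasureTheory Filter Topology Set Metric
open scoped RealInnerProductSpace ENNReal NNReal

namespace Pool.Agent.MP_ec20d8_an

theorem inner_ae {X : Type*} [MeasurableSpace X] {μ : Measure X} {ψ φ : L2 μ} {g f : X → ℝ}
    (hg : ψ =ᵐ[μ] g) (hf : φ =ᵐ[μ] f) : ⟪ψ, φ⟫ = ∫ x, g x * f x ∂μ := by
  rw [L2.inner_def]
  refine integral_congr_ae ?_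
  filter_upwards [hg, hf] with x h1 h2
  simp [h1, h2, mul_comm]

theorem L2_sum_ae {X : Type*} [MeasurableSpace X] {μ : Measure X} {ψ : Fin 3 → L2 μ}
    {g : Fin 3 → X → ℝ} (h : ∀ i, ψ i =ᵐ[μ] g i) : (∑ i, ψ i : L2 μ) =ᵐ[μ] fun x => ∑ i, g i x := by
  simp only [Fin.sum_univ_three]
  filter_upwards [Lp.coeFn_add (ψ 0 + ψ 1) (ψ 2), Lp.coeFn_add (ψ 0) (ψ 1), h 0, h 1, h 2]
    with x h1 h2 h3 h4 h5
  rw [h1, Pi.add_apply, h2, Pi.add_apply, h3, h4, h5]

/-- Weighted continuous functions as elements of `L²`. -/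
noncomputable def wL2 {μ : Measure E3} {m : E3 → ℝ}
    (h : ∀ f : C(E3, ℝ), MemLp (fun y => f y * m y) 2 μ) : C(E3, ℝ) →ₗ[ℝ] L2 μ where
  toFun f := (h f).toLp _
  map_add' f g := by
    rw [← MemLp.toLp_add, MemLp.toLp_eq_toLp_iff]
    exact .of_forall fun y => by simp [add_mul]
  map_smul' c f := by
    rw [RingHom.id_apply, ← MemLp.toLp_const_smul, MemLp.toLp_eq_toLp_iff]
    exact .of_forall fun y => by simp [mul_assoc]

theorem wL2_ae {μ : Measure E3} {m : E3 → ℝ}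
    (h : ∀ f : C(E3, ℝ), MemLp (fun y => f y * m y) 2 μ) (f : C(E3, ℝ)) :
    wL2 h f =ᵐ[μ] fun y => f y * m y := (h f).coeFn_toLp

/-- The kernel of the gradient of the single layer potential, cut off to `A`. -/
noncomputable def vk (A : Set E3) (i : Fin 3) (y x : E3) : ℝ :=
  A.indicator (fun _ => (1 : ℝ)) y * gg 0 i (y - x)

theorem abs_vk (A : Set E3) (i : Fin 3) (y x : E3) : |vk A i y x| ≤ c4 * ‖y - x‖⁻¹ ^ 2 := by
  by_cases hy : y ∈ A
  · simpa [vk, hy] using abs_gg_le 0 i (y - x)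
  · have := c4_pos
    simp only [vk, indicator_of_notMem hy, zero_mul, abs_zero]
    positivity

namespace Dom

variable (D : Dom)

theorem lboundS : LBound D.σ D.σ fun x y => ‖Gm 0 (y - x)‖ₑ := by
  obtain ⟨C, hC⟩ := D.single_bound
  refine lbound_schur (by fun_prop) C (D.ae_S.mono hC) (D.ae_S.mono fun x hx => ?_)
  simpa only [Gm_sub_rev 0 x] using hC x hx

theorem isKer_of_le {a : E3 → E3 → ℝ} (hm : Measurable (Function.uncurry a)) {C : ℝ} (hC : 0 ≤ C)
    (h : ∀ x ∈ D.S, ∀ y ∈ D.S, |a x y| ≤ C * Gm 0 (y - x)) : IsKer D.σ D.σ a := by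
  refine ⟨hm, D.lboundS.mono C.toNNReal (D.ae_S.mono fun x hx => D.ae_S.mono fun y hy => ?_)⟩
  rw [Real.enorm_eq_ofReal_abs, Real.enorm_of_nonneg (Gm_nonneg _ _),
    ← ENNReal.ofReal.eq_1, ← ENNReal.ofReal_mul hC]
  exact ENNReal.ofReal_le_ofReal (h x hx y hy)

theorem kerS : IsKer D.σ D.σ fun x y => Gm 0 (y - x) := ⟨by fun_prop, D.lboundS⟩

theorem kerK : IsKer D.σ D.σ D.kk := by
  obtain ⟨C, h0, hC⟩ := D.gg_n_bound
  exact D.isKer_of_le D.meas_kk h0 fun x hx y hy => by rw [kk_eq, abs_neg]; exact hC 0 x hx y hy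

theorem kerKt : IsKer D.σ D.σ fun x y => D.kk y x := by
  obtain ⟨C, h0, hC⟩ := D.gg_n_bound
  have hm : Measurable (Function.uncurry fun x y => D.kk y x) := by
    have := D.meas_kk
    fun_prop
  refine D.isKer_of_le hm h0 fun x hx y hy => ?_
  rw [kk_eq, abs_neg, Gm_sub_rev]
  exact hC 0 y hy x hx

theorem kerV {A : Set E3} (hA : MeasurableSet A) (i : Fin 3) : IsKer volume D.σ (vk A i) := by
  have hm : Measurable (A.indicator fun _ => (1 : ℝ)) := measurable_const.indicator hA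
  refine ⟨by unfold vk; fun_prop, LBound.mono (w := fun y x => ENNReal.ofReal (‖y - x‖⁻¹ ^ 2))
    (lbound_comp (by fun_prop) (D.lboundS.mono ((10 * ∫ z, hr 1 z) * c4⁻¹).toNNReal
      (.of_forall fun x => (D.σ.ae_ne x).mono fun y hy => ?_))) c4.toNNReal
    (.of_forall fun y => .of_forall fun x => ?_)⟩
  · have h1 := riesz hy.symm
    have h2 : 0 ≤ ∫ z, hr 1 z := integral_nonneg fun z => hr_nonneg _ _
    have h3 := c4_pos
    simp only [← ENNReal.ofReal_mul (sq_nonneg _)]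
    rw [← ofReal_integral_eq_lintegral_ofReal h1.1 (.of_forall fun z => by positivity),
      Real.enorm_of_nonneg (Gm_nonneg _ _), ← ENNReal.ofReal.eq_1,
      ← ENNReal.ofReal_mul (by positivity)]
    refine ENNReal.ofReal_le_ofReal (h1.2.trans_eq ?_)
    rw [Gm, ww_zero, norm_sub_rev y x]
    field_simp
  · rw [Real.enorm_eq_ofReal_abs, ← ENNReal.ofReal.eq_1, ← ENNReal.ofReal_mul c4_pos.le]
    exact ENNReal.ofReal_le_ofReal (abs_vk _ _ _ _)

/-- The single layer operator. -/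
noncomputable def opS : L2 D.σ →L[ℝ] L2 D.σ := D.kerS.op

/-- The Neumann-Poincare operator. -/
noncomputable def opK : L2 D.σ →L[ℝ] L2 D.σ := D.kerK.op

/-- Its transpose. -/
noncomputable def opKt : L2 D.σ →L[ℝ] L2 D.σ := D.kerKt.op

/-- The gradient of the single layer potential on `A`. -/
noncomputable def opV {A : Set E3} (hA : MeasurableSet A) (i : Fin 3) :
    L2 D.σ →L[ℝ] L2 (volume : Measure E3) := (D.kerV hA i).op

theorem S_symm (φ ψ : L2 D.σ) : ⟪D.opS φ, ψ⟫ = ⟪φ, D.opS ψ⟫ :=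
  D.kerS.inner_flip D.kerS (fun _ _ => Gm_sub_rev _ _ _) φ ψ

theorem Kt_adj (φ ψ : L2 D.σ) : ⟪D.opKt φ, ψ⟫ = ⟪φ, D.opK ψ⟫ :=
  D.kerK.inner_flip D.kerKt (fun _ _ => rfl) φ ψ

theorem memLp_σ {m : E3 → ℝ} (hm : Measurable m) (h1 : ∀ y, |m y| ≤ 1) (f : C(E3, ℝ)) :
    MemLp (fun y => f y * m y) 2 D.σ := by
  obtain ⟨C, h0, hC⟩ := D.bdd_Ω f.continuous
  refine MemLp.of_bound (Measurable.aestronglyMeasurable (by fun_prop)) (C * 1)
    (D.ae_S.mono fun y hy => ?_)
  rw [Real.norm_eq_abs, abs_mul]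
  exact mul_le_mul (hC y (Or.inr hy)) (h1 y) (abs_nonneg _) h0

theorem memLp_Ω (f : C(E3, ℝ)) :
    MemLp (fun y => f y * D.Ω.indicator (fun _ => (1 : ℝ)) y) 2 volume := by
  obtain ⟨C, h0, hC⟩ := D.bdd_Ω f.continuous
  have : (fun y => f y * D.Ω.indicator (fun _ => (1 : ℝ)) y) = D.Ω.indicator f := by
    ext y
    by_cases hy : y ∈ D.Ω <;> simp [hy]
  have h1 : IsFiniteMeasure (volume.restrict D.Ω) := ⟨by simpa using D.hb.measure_lt_top⟩
  rw [this, memLp_indicator_iff_restrict D.meas]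
  exact MemLp.of_bound f.continuous.aestronglyMeasurable C
    ((ae_restrict_mem D.meas).mono fun y hy => hC y (Or.inl hy))

/-- The trace on the boundary. -/
noncomputable def rS : C(E3, ℝ) →ₗ[ℝ] L2 D.σ :=
  wL2 (D.memLp_σ (m := fun _ => 1) measurable_const (by simp))

/-- The trace times a component of the normal. -/
noncomputable def rN (i : Fin 3) : C(E3, ℝ) →ₗ[ℝ] L2 D.σ :=
  wL2 (D.memLp_σ (m := fun y => D.n y i) (by fun_prop) fun y => D.abs_n_le y i)

/-- The restriction to the domain, extended by zero. -/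
noncomputable def rO : C(E3, ℝ) →ₗ[ℝ] L2 (volume : Measure E3) := wL2 D.memLp_Ω

/-- The normal component of a field. -/
noncomputable def nrm (F : Fin 3 → C(E3, ℝ)) : L2 D.σ := ∑ i, D.rN i (F i)

theorem rS_ae (f : C(E3, ℝ)) : D.rS f =ᵐ[D.σ] f :=
  (wL2_ae _ f).trans (.of_forall fun _ => mul_one _)

theorem rO_ae (f : C(E3, ℝ)) :
    D.rO f =ᵐ[volume] fun y => f y * D.Ω.indicator (fun _ => (1 : ℝ)) y := wL2_ae _ f

theorem nrm_ae (F : Fin 3 → C(E3, ℝ)) : D.nrm F =ᵐ[D.σ] fun y => ∑ i, F i y * D.n y i :=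
  L2_sum_ae fun i => wL2_ae _ (F i)

theorem inner_rO (f g : C(E3, ℝ)) : ⟪D.rO f, D.rO g⟫ = ∫ y in D.Ω, f y * g y := by
  rw [inner_ae (D.rO_ae f) (D.rO_ae g), ← integral_indicator D.meas]
  congr 1
  ext y
  by_cases hy : y ∈ D.Ω <;> simp [hy]

theorem sum_inner_V {A : Set E3} (hA : MeasurableSet A) {ψ : Fin 3 → L2 (volume : Measure E3)}
    {g : Fin 3 → E3 → ℝ} (hg : ∀ i, ψ i =ᵐ[volume] g i)
    (hi : ∀ x ∈ D.S, ∀ i, Integrable fun y => g i y * vk A i y x) (φ : L2 D.σ) :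
    ∑ i, ⟪ψ i, D.opV hA i φ⟫ = ∫ x, (∫ y, ∑ i, g i y * vk A i y x) * φ x ∂D.σ := by
  simp only [opV, fun i => (D.kerV hA i).inner_op (hg i) φ]
  rw [← integral_finsetSum _ fun i _ => (D.kerV hA i).int_op (hg i) φ]
  refine integral_congr_ae (D.ae_S.mono fun x hx => ?_)
  simp only
  rw [integral_finsetSum _ fun i _ => hi x hx i, Finset.sum_mul]

theorem sum_rO_V {A : Set E3} (hA : MeasurableSet A) (h : D.Ω ⊆ A) (F : Fin 3 → C(E3, ℝ))
    (φ : L2 D.σ) : ∑ i, ⟪D.rO (F i), D.opV hA i φ⟫ =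
      ∫ x, (∫ y in D.Ω, ∑ i, F i y * gg 0 i (y - x)) * φ x ∂D.σ := by
  have e : ∀ x i, (fun y => F i y * D.Ω.indicator (fun _ => (1 : ℝ)) y * vk A i y x) =
      D.Ω.indicator fun y => F i y * gg 0 i (y - x) := fun x i => by
    ext y
    by_cases hy : y ∈ D.Ω
    · simp [vk, hy, h hy]
    · simp [hy]
  obtain ⟨_, hl⟩ := D.loc
  rw [D.sum_inner_V hA (fun i => D.rO_ae (F i)) fun x hx i => ?_]
  · congr 1
    ext x
    rw [← integral_indicator D.meas]
    congr 2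
    ext y
    by_cases hy : y ∈ D.Ω
    · simp [vk, hy, h hy]
    · simp [hy]
  · obtain ⟨C, h0, hC⟩ := D.bdd_Ω (F i).continuous
    rw [e, integrable_indicator_iff D.meas]
    refine ((hl x hx).1.const_mul (C * c4)).mono' (Measurable.aestronglyMeasurable (by fun_prop))
      ((ae_restrict_mem D.meas).mono fun y hy => ?_)
    rw [Real.norm_eq_abs, abs_mul, mul_assoc]
    exact mul_le_mul (hC y (Or.inl hy)) (abs_gg_le _ _ _) (abs_nonneg _) h0

theorem op_C {f : C(E3, ℝ)} {F : Fin 3 → C(E3, ℝ)} (hf : ContDiff ℝ 1 f)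
    (hF : ∀ i y, F i y = pd i f y) (φ : L2 D.σ) :
    ∑ i, ⟪D.rO (F i), D.opV D.meas i φ⟫ = ⟪(1 / 2 : ℝ) • D.rS f - D.opK (D.rS f), φ⟫ := by
  rw [D.sum_rO_V D.meas subset_rfl, inner_ae (ae_eq_refl _) (ae_eq_refl _)]
  refine integral_congr_ae ?_
  filter_upwards [D.ae_S, Lp.coeFn_sub ((1 / 2 : ℝ) • D.rS f) (D.opK (D.rS f)),
    Lp.coeFn_smul (1 / 2 : ℝ) (D.rS f), D.rS_ae f, D.kerK.op_ae' (D.rS_ae f)]
    with x hx h1 h2 h3 h4
  simp only [hF, D.bdry_C hf hx]
  rw [h1, Pi.sub_apply, h2, Pi.smul_apply, h3, opK, h4, smul_eq_mul]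
  ring

theorem op_D {A : Set E3} (hA : MeasurableSet A) (h : D.Ω ⊆ A) {F : Fin 3 → C(E3, ℝ)}
    (hF : ∀ i, ContDiff ℝ 1 (F i)) (hd : ∀ y, ∑ i, pd i (F i) y = 0) (φ : L2 D.σ) :
    ∑ i, ⟪D.rO (F i), D.opV hA i φ⟫ = ⟪D.opS (D.nrm F), φ⟫ := by
  rw [D.sum_rO_V hA h, opS, inner_ae (D.kerS.op_ae' (D.nrm_ae F)) (ae_eq_refl _)]
  refine integral_congr_ae (D.ae_S.mono fun x hx => ?_)
  simp only [D.bdry_D hF hd hx]

theorem op_G {f : C(E3, ℝ)} {F G : Fin 3 → C(E3, ℝ)} (hf : ContDiff ℝ 1 f)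
    (hF : ∀ i y, F i y = pd i f y) (hG : ∀ i, ContDiff ℝ 1 (G i))
    (hd : ∀ y, ∑ i, pd i (G i) y = 0) :
    ∑ i, ⟪D.rO (F i), D.rO (G i)⟫ = ⟪D.rS f, D.nrm G⟫ := by
  rw [inner_ae (D.rS_ae f) (D.nrm_ae G), ← D.green hf hG]
  simp only [inner_rO, hd, mul_zero, integral_zero, add_zero]
  rw [← integral_finsetSum _ fun i _ => D.int_Ω (by fun_prop)]
  simp only [hF]

theorem ae_pair : ∀ᵐ z ∂D.σ.prod D.σ, z.1 ∈ D.S ∧ z.1 ≠ z.2 := by
  refine (Measure.ae_prod_iff_ae_ae ?_).2 (D.ae_S.mono fun x hx => (D.σ.ae_ne x).mono fun y hy =>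
    ⟨hx, hy.symm⟩)
  exact (measurable_fst D.isClosed_S.measurableSet).inter
    (measurableSet_eq_fun measurable_fst measurable_snd).compl

theorem sum_V_V {A : Set E3} (hA : MeasurableSet A) (φ ψ : L2 D.σ) :
    ∑ i, ⟪D.opV hA i φ, D.opV hA i ψ⟫ = ∫ z : E3 × E3,
      φ z.1 * (∫ y in A, ∑ i, gg 0 i (y - z.1) * gg 0 i (y - z.2)) * ψ z.2 ∂D.σ.prod D.σ := by
  simp only [opV, IsKer.inner_op_op]
  rw [← integral_finsetSum _ fun i _ => (D.kerV hA i).int_op_op (D.kerV hA i) φ ψ]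
  refine integral_congr_ae (D.ae_pair.mono fun z hz => ?_)
  simp only [← Finset.sum_mul, ← Finset.mul_sum]
  rw [← integral_finsetSum _ fun i _ => ?_, ← integral_indicator hA]
  · congr 3
    ext y
    by_cases hy : y ∈ A <;> simp [vk, hy]
  · have := (D.kerV hA i).meas
    refine ((riesz hz.2).1.const_mul (c4 * c4)).mono'
      (Measurable.aestronglyMeasurable (by fun_prop)) (.of_forall fun y => ?_)
    rw [Real.norm_eq_abs, abs_mul]
    exact (mul_le_mul (abs_vk _ _ _ _) (abs_vk _ _ _ _) (abs_nonneg _)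
      (mul_nonneg c4_pos.le (sq_nonneg _))).trans_eq (by ring)

theorem op_Ew (φ ψ : L2 D.σ) :
    ∑ i, ⟪D.opV .univ i φ, D.opV .univ i ψ⟫ = ⟪φ, D.opS ψ⟫ := by
  rw [sum_V_V, opS, IsKer.inner_prod]
  refine integral_congr_ae (D.ae_pair.mono fun z hz => ?_)
  simp only [Measure.restrict_univ, whole_E hz.2.symm]

theorem op_X (i j : Fin 3) (φ ψ : L2 D.σ) :
    ⟪D.opV .univ i φ, D.opV .univ j ψ⟫ = ⟪D.opV .univ j φ, D.opV .univ i ψ⟫ := by
  simp only [opV, IsKer.inner_op_op, vk, indicator_univ, one_mul, whole_symm i j]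

theorem op_E (φ ψ : L2 D.σ) : ∑ i, ⟪D.opV D.meas i φ, D.opV D.meas i ψ⟫ =
    ⟪φ, D.opS ψ⟫ / 2 - ⟪D.opKt φ, D.opS ψ⟫ := by
  have h1 := (D.kerKt.int_triple D.kerS (D.rS 1) (D.rS 1)).prod_left_ae
  have h2 : ∀ᵐ z ∂D.σ.prod D.σ, D.rS 1 z.1 = 1 ∧ D.rS 1 z.2 = 1 :=
    (Measure.quasiMeasurePreserving_fst.ae (D.rS_ae 1)).and
      (Measure.quasiMeasurePreserving_snd.ae (D.rS_ae 1))
  rw [sum_V_V, opS, opKt, IsKer.inner_prod, IsKer.inner_op_op, ← integral_div,
    ← integral_sub ((D.kerS.int_prod φ ψ).div_const 2) (D.kerKt.int_op_op D.kerS φ ψ)]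
  refine integral_congr_ae ?_
  filter_upwards [D.ae_pair, h1, h2] with z hz h1 h2
  simp only [h2.1, h2.2, mul_one] at h1
  simp only [Gm_sub_rev 0 z.2, mul_comm (D.kk _ _)] at h1 ⊢
  rw [D.bdry_E hz.1 hz.2 h1]
  ring

theorem S_nonneg (φ : L2 D.σ) : 0 ≤ ⟪φ, D.opS φ⟫ := by
  rw [← op_Ew]
  exact Finset.sum_nonneg fun _ _ => real_inner_self_nonneg

theorem S_inj {φ : L2 D.σ} (h : D.opS φ = 0) {f : E3 → ℝ} (hf : ContDiff ℝ 1 f) :
    ∫ x, f x * φ x ∂D.σ = 0 := by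
  obtain ⟨χ, h1, h2, h3⟩ := D.exists_bump
  have h4 := D.op_Ew φ φ
  rw [h, inner_zero_right, Finset.sum_eq_zero_iff_of_nonneg
    fun _ _ => real_inner_self_nonneg] at h4
  set v : E3 → ℝ := fun y => χ y * f y
  have hv : ContDiff ℝ 1 v := h1.mul hf
  have hs : HasCompactSupport v := h2.mul_right
  have hs' : ∀ i, HasCompactSupport (pd i v) := fun i => hs.fderiv_apply ℝ _
  have key : ∀ g : E3 → ℝ, Continuous g → HasCompactSupport g → ∀ x,
      Integrable fun y => g y * ‖y - x‖⁻¹ ^ 2 := by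
    intro g hg hc x
    obtain ⟨R, hR⟩ := hc.isCompact.isBounded.subset_closedBall x
    obtain ⟨C, hC⟩ := hg.bounded_above_of_compact_support hc
    refine (integrableOn_iff_integrable_of_support_subset (s := closedBall x R) fun y hy =>
      hR (subset_tsupport _ fun h0 => hy (by simp [h0]))).1 ?_
    exact (loc_int measurableSet_closedBall (R := R) fun y hy =>
      mem_closedBall_iff_norm.1 hy).1.bdd_mul hg.aestronglyMeasurable (.of_forall hC)
  have hc := fun i => cont_pd i hv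
  have hb : HasCompactSupport fun y => ∑ i, |pd i v y| := by
    simp only [Fin.sum_univ_three]
    exact ((hs' 0).abs.add (hs' 1).abs).add (hs' 2).abs
  have hm : ∀ i, MemLp (pd i v) 2 volume := fun i => (hc i).memLp_of_hasCompactSupport (hs' i)
  have h5 := D.sum_inner_V .univ (fun i => (hm i).coeFn_toLp) (fun x _ i => by
    have := (D.kerV .univ i).meas
    have := (hc i).measurable
    refine ((key _ (hc i).abs (hs' i).abs x).const_mul c4).mono'
      (Measurable.aestronglyMeasurable (by fun_prop)) (.of_forall fun y => ?_)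
    rw [Real.norm_eq_abs, abs_mul]
    exact (mul_le_mul_of_nonneg_left (abs_vk _ _ _ _) (abs_nonneg _)).trans_eq (by ring)) φ
  simp only [fun i => inner_self_eq_zero.1 (h4 i (Finset.mem_univ i)), inner_zero_right,
    Finset.sum_const_zero, vk, indicator_univ, one_mul] at h5
  rw [h5]
  refine integral_congr_ae (D.ae_S.mono fun x hx => ?_)
  obtain ⟨C, hC⟩ := hv.continuous.bounded_above_of_compact_support hs
  simp only
  rw [whole_C hv hC x (key _ hv.continuous.abs hs.abs x) (b := fun y => ∑ i, |pd i v y|)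
    (.of_forall fun y i => Finset.single_le_sum (f := fun i => |pd i v y|)
      (fun _ _ => abs_nonneg _) (Finset.mem_univ i)) (key _ (by fun_prop) hb x)]
  simp [v, h3 x (Or.inr hx)]

end Dom

end Pool.Agent.MP_ec20d8_an

end

-- part MP_ec20d8_an.KyFan
section

/-!
Singular values: elementary bounds and the inequality of Ky Fan.
-/

open scoped RealInnerProductSpace

namespace Pool.Agent.MP_ec20d8_an

section Normed

variable {H : Type*} [NormedAddCommGroup H] [NormedSpace ℝ H]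

theorem singularValue_le (K F : H →L[ℝ] H) {j : ℕ} (hF : LinearMap.rank F.toLinearMap ≤ j) :
    singularValue K j ≤ ‖K - F‖ :=
  csInf_le ⟨0, by rintro _ ⟨F, -, rfl⟩; exact norm_nonneg _⟩ ⟨F, hF, rfl⟩

theorem le_singularValue (K : H →L[ℝ] H) {j : ℕ} {c : ℝ}
    (h : ∀ F : H →L[ℝ] H, LinearMap.rank F.toLinearMap ≤ j → c ≤ ‖K - F‖) :
    c ≤ singularValue K j :=
  le_csInf ⟨_, 0, by simp, rfl⟩ (by rintro _ ⟨F, hF, rfl⟩; exact h F hF)

theorem singularValue_nonneg (K : H →L[ℝ] H) (j : ℕ) : 0 ≤ singularValue K j :=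
  le_singularValue K fun _ _ => norm_nonneg _

end Normed

variable {H : Type*} [NormedAddCommGroup H] [InnerProductSpace ℝ H]

theorem le_singularValue_of_subspace (K : H →L[ℝ] H) {j : ℕ} {c : ℝ} {W : Type}
    [AddCommGroup W] [Module ℝ W] [FiniteDimensional ℝ W] (hW : j < Module.finrank ℝ W)
    (f : W →ₗ[ℝ] H) (hf : Function.Injective f)
    (h : ∀ x, c * ‖f x‖ ^ 2 ≤ ⟪K (f x), f x⟫) : c ≤ singularValue K j := by
  refine le_singularValue K fun F hF => ?_
  have h1 : Module.finrank ℝ (LinearMap.range (F.toLinearMap ∘ₗ f)) ≤ j := by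
    refine Module.finrank_le_of_rank_le ?_
    exact (Submodule.rank_mono (LinearMap.range_comp_le_range _ _)).trans hF
  have h2 := LinearMap.finrank_range_add_finrank_ker (F.toLinearMap ∘ₗ f)
  have h3 : 0 < Module.finrank ℝ (LinearMap.ker (F.toLinearMap ∘ₗ f)) := by omega
  obtain ⟨⟨x, hx⟩, hx0⟩ := Module.finrank_pos_iff_exists_ne_zero.1 h3
  have hx1 : F (f x) = 0 := hx
  have hx2 : f x ≠ 0 := fun h' => hx0 (Subtype.ext (hf (h'.trans (map_zero f).symm)))
  have h4 : c * ‖f x‖ ^ 2 ≤ ‖K - F‖ * ‖f x‖ ^ 2 := by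
    refine (h x).trans ?_
    have : K (f x) = (K - F) (f x) := by simp [hx1]
    rw [this]
    refine (real_inner_le_norm _ _).trans ?_
    rw [sq, ← mul_assoc]
    exact mul_le_mul_of_nonneg_right ((K - F).le_opNorm _) (norm_nonneg _)
  exact le_of_mul_le_mul_right h4 (by positivity)

/-- The inequality of Ky Fan. -/
theorem kyFan [CompleteSpace H] (K : H →L[ℝ] H) {N : ℕ} {u : Fin N → H} (hu : Orthonormal ℝ u) :
    ∑ i, ⟪K (u i), u i⟫ ≤ ∑ j ∈ Finset.range N, singularValue K j := by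
  let e := EuclideanSpace.basisFun (Fin N) ℝ
  let ι : EuclideanSpace ℝ (Fin N) →ₗᵢ[ℝ] H :=
    (e.toBasis.constr ℝ u).isometryOfOrthonormal (v := e.toBasis) (by simp)
      (by
        have : (e.toBasis.constr ℝ u) ∘ e.toBasis = u := by
          ext i
          simp
        rwa [this])
  have hι : ∀ i, ι (e i) = u i := fun i => by
    simp [ι]
  let A := (ContinuousLinearMap.adjoint ι.toContinuousLinearMap) ∘L K ∘L ι.toContinuousLinearMap
  have hA : ∀ x y, ⟪A x, y⟫ = ⟪K (ι x), ι y⟫ := fun x y => by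
    simp [A, ContinuousLinearMap.adjoint_inner_left]
  let T : EuclideanSpace ℝ (Fin N) →ₗ[ℝ] EuclideanSpace ℝ (Fin N) :=
    (1 / 2 : ℝ) • (A + ContinuousLinearMap.adjoint A).toLinearMap
  have hT' : ∀ x y, ⟪T x, y⟫ = (⟪A x, y⟫ + ⟪A y, x⟫) / 2 := fun x y => by
    simp only [T, LinearMap.smul_apply, ContinuousLinearMap.coe_coe,
      add_apply, real_inner_smul_left, inner_add_left,
      ContinuousLinearMap.adjoint_inner_left, real_inner_comm (A y) x]
    ring
  have hT : T.IsSymmetric := fun x y => by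
    rw [real_inner_comm (T y) x, hT', hT', add_comm]
  have hq : ∀ x, ⟪T x, x⟫ = ⟪K (ι x), ι x⟫ := fun x => by
    rw [hT', hA]
    ring
  have hn : Module.finrank ℝ (EuclideanSpace ℝ (Fin N)) = N := by simp
  let b := hT.eigenvectorBasis hn
  let μ := hT.eigenvalues hn
  have h1 : ∑ i, ⟪K (u i), u i⟫ = ∑ i, μ i := by
    have h2 := T.trace_eq_sum_inner e
    rw [hT.trace_eq_sum_eigenvalues hn] at h2
    simp only [RCLike.ofReal_real_eq_id, id] at h2
    rw [h2]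
    exact Finset.sum_congr rfl fun i _ => by rw [real_inner_comm (T (e i)), hq, hι]
  rw [h1, Finset.sum_range]
  refine Finset.sum_le_sum fun j _ => ?_
  have hb : Orthonormal ℝ fun i : Finset.Iic j => b i :=
    b.orthonormal.comp _ Subtype.val_injective
  refine le_singularValue_of_subspace K (W := Finset.Iic j → ℝ)
    (by rw [Module.finrank_fintype_fun_eq_card, Fintype.card_coe, Fin.card_Iic]; omega)
    (ι.toLinearMap ∘ₗ Fintype.linearCombination ℝ fun i : Finset.Iic j => b i)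
    (ι.injective.comp
      (linearIndependent_iff_injective_fintypeLinearCombination.1 hb.linearIndependent))
    fun c => ?_
  simp only [LinearMap.comp_apply, LinearIsometry.coe_toLinearMap, ← hq, LinearIsometry.norm_map,
    Fintype.linearCombination_apply]
  have h3 : T (∑ i : Finset.Iic j, c i • b i) = ∑ i : Finset.Iic j, (μ i * c i) • b i := by
    rw [map_sum]
    refine Finset.sum_congr rfl fun i _ => ?_
    rw [map_smul, hT.apply_eigenvectorBasis hn, smul_smul, mul_comm]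
    rfl
  rw [h3, ← real_inner_self_eq_norm_sq, hb.inner_sum, hb.inner_sum, Finset.mul_sum]
  refine Finset.sum_le_sum fun i _ => ?_
  have h4 : μ j ≤ μ i := hT.eigenvalues_antitone hn (Finset.mem_Iic.1 i.2)
  simp only [conj_trivial]
  nlinarith [mul_self_nonneg (c i)]

open Matrix

/-- Cauchy-Schwarz inequality for Gram determinants. -/
theorem det_cs {Z : Type*} [AddCommGroup Z] [Module ℝ Z] (Q : Z →ₗ[ℝ] Z →ₗ[ℝ] ℝ)
    (hs : ∀ x y, Q x y = Q y x) (hp : ∀ x, 0 ≤ Q x x) {n : ℕ} (a b : Fin n → Z) :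
    (of fun i j => Q (a i) (b j)).det ^ 2 ≤
      (of fun i j => Q (a i) (a j)).det * (of fun i j => Q (b i) (b j)).det := by
  open scoped MatrixOrder in
  let w : Fin n ⊕ Fin n → Z := Sum.elim a b
  have hG : (of fun s t => Q (w s) (w t)).PosSemidef := by
    refine .of_dotProduct_mulVec_nonneg ?_ fun x => ?_
    · ext s t
      simp [hs (w t) (w s)]
    · have := hp (∑ s, x s • w s)
      simp only [map_sum, map_smul, LinearMap.sum_apply, LinearMap.smul_apply, smul_eq_mul]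
        at this
      simp only [star_trivial, dotProduct, mulVec, of_apply]
      refine this.trans_eq (Finset.sum_congr rfl fun s _ => ?_)
      congr 1
      exact Finset.sum_congr rfl fun t _ => by rw [hs, mul_comm]
  obtain ⟨R, hR⟩ := CStarAlgebra.nonneg_iff_eq_star_mul_self.mp hG.nonneg
  let c : Fin n ⊕ Fin n → EuclideanSpace ℝ (Fin n ⊕ Fin n) :=
    fun s => WithLp.toLp 2 fun r => R r s
  have hc : ∀ s t, ⟪c s, c t⟫ = Q (w s) (w t) := fun s t => by
    have := congrFun (congrFun hR s) t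
    simp only [of_apply, mul_apply, star_apply, star_trivial] at this
    rw [this]
    simp [c, PiLp.inner_apply, mul_comm]
  have h := real_inner_mul_inner_self_le (exteriorPower.ιMulti ℝ n fun i => c (Sum.inr i))
    (exteriorPower.ιMulti ℝ n fun i => c (Sum.inl i))
  simp only [exteriorPower.inner_ιMulti_ιMulti, hc, w, Sum.elim_inl, Sum.elim_inr] at h
  simp only [hs (b _) (a _)] at h
  simp only [hs (a _) (a _), hs (b _) (b _)] at h
  rw [sq, mul_comm (det _) (det (of fun i j => Q (b i) (b j)))]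
  exact h

theorem det_le_exp_trace {n : ℕ} {G : Matrix (Fin n) (Fin n) ℝ} (hG : G.PosSemidef) :
    G.det ≤ Real.exp (G.trace - n) := by
  rw [hG.1.det_eq_prod_eigenvalues, hG.1.trace_eq_sum_eigenvalues]
  simp only [RCLike.ofReal_real_eq_id, id]
  have : ∑ i, hG.1.eigenvalues i - (n : ℝ) = ∑ i : Fin n, (hG.1.eigenvalues i - 1) := by
    simp [Finset.sum_sub_distrib]
  rw [this, Real.exp_sum]
  refine Finset.prod_le_prod (fun i _ => hG.eigenvalues_nonneg i) fun i _ => ?_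
  linarith [Real.add_one_le_exp (hG.1.eigenvalues i - 1)]

end Pool.Agent.MP_ec20d8_an

end
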