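import Pool.Agent.MP_ec20d8_an.Mg.KyFan

-- part MP_ec20d8_an.Abstract
section

/-!
Abstract linear algebra: the averaged trace bound, the quaternion identity, and the upper bound
for singular values of a diagonalised operator.
-/

open scoped RealInnerProductSpace
open Module

namespace Pool.Agent.MP_ec20d8_an

theorem sum_form_eq {M : Type*} [NormedAddCommGroup M] [InnerProductSpace ℝ M]
    (q : M →ₗ[ℝ] M →ₗ[ℝ] ℝ) {ι κ : Type*} [Fintype ι] [Fintype κ] (b : OrthonormalBasis ι ℝ M)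
    (c : OrthonormalBasis κ ℝ M) : ∑ k, q (c k) (c k) = ∑ j, q (b j) (b j) := by
  have h1 : ∀ k, q (c k) (c k) = ∑ j, ⟪c k, b j⟫ * q (c k) (b j) := fun k => by
    conv_lhs => rw [← b.sum_repr' (c k)]
    rw [b.sum_repr' (c k)]
    conv_lhs => arg 2; rw [← b.sum_repr' (c k)]
    simp [real_inner_comm]
  have h2 : ∀ j, q (b j) (b j) = ∑ k, ⟪c k, b j⟫ * q (c k) (b j) := fun j => by
    conv_lhs => arg 1; arg 2; rw [← c.sum_repr' (b j)]
    simp
  simp only [h1, h2]
  exact Finset.sum_comm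

theorem trace_bound_aux {M : Type*} [NormedAddCommGroup M] [InnerProductSpace ℝ M]
    [FiniteDimensional ℝ M] (q : M →ₗ[ℝ] M →ₗ[ℝ] ℝ) (hq : ∀ x, 0 ≤ q x x)
    (R : Fin 4 → M →ₗ[ℝ] M) (hR : ∀ e x y, ⟪R e x, R e y⟫ = ⟪x, y⟫)
    (hsum : ∀ x, ∑ e, q (R e x) (R e x) ≤ ⟪x, x⟫) (M₀ : Submodule ℝ M) {N : ℕ}
    (hN : N ≤ finrank ℝ M₀) : ∃ F : Fin N → M, (∀ i, F i ∈ M₀) ∧ Orthonormal ℝ F ∧
      4 * ∑ i, q (F i) (F i) ≤ finrank ℝ M := by
  classical
  let F : Fin N → M := fun i => stdOrthonormalBasis ℝ M₀ (Fin.castLE hN i)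
  have hF : Orthonormal ℝ F :=
    ((stdOrthonormalBasis ℝ M₀).orthonormal.comp _ (Fin.castLE_injective hN)).comp_linearIsometry
      M₀.subtypeₗᵢ
  refine ⟨F, fun i => Subtype.prop _, hF, ?_⟩
  have hi := hF.linearIndependent.injective
  obtain ⟨u, b, hu, hb⟩ :=
    ((orthonormal_subtype_range hi).2 hF).exists_orthonormalBasis_extension
  have h1 : ∑ i, q (F i) (F i) ≤ ∑ j, q (b j) (b j) := by
    rw [hb, Finset.sum_coe_sort u fun x => q x x,
      ← Finset.sum_image (f := fun x => q x x) (g := F) fun x _ y _ h => hi h]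
    refine Finset.sum_le_sum_of_subset_of_nonneg (fun x hx => ?_) fun x _ _ => hq x
    obtain ⟨i, -, rfl⟩ := Finset.mem_image.1 hx
    exact hu ⟨i, rfl⟩
  have h2 : ∀ e, ∑ j, q (b j) (b j) = ∑ j, q (R e (b j)) (R e (b j)) := fun e =>
    sum_form_eq q (b.map (((R e).isometryOfInner (hR e)).toLinearIsometryEquiv rfl)) b
  have h3 : 4 * ∑ j, q (b j) (b j) = ∑ j, ∑ e, q (R e (b j)) (R e (b j)) := by
    rw [Finset.sum_comm, Fin.sum_univ_four, ← h2, ← h2, ← h2, ← h2]
    ring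
  have h4 : ∑ j, ∑ e, q (R e (b j)) (R e (b j)) ≤ ∑ _j : u, (1 : ℝ) :=
    Finset.sum_le_sum fun j _ => (hsum _).trans_eq (by simp)
  rw [finrank_eq_card_basis b.toBasis]
  simp only [Finset.sum_const, Finset.card_univ, nsmul_eq_mul, mul_one] at h4
  linarith

theorem trace_bound {M : Type*} [AddCommGroup M] [Module ℝ M] [FiniteDimensional ℝ M]
    (g q : M →ₗ[ℝ] M →ₗ[ℝ] ℝ) (hg : ∀ x y, g x y = g y x) (hg0 : ∀ x, 0 ≤ g x x)
    (hg1 : ∀ x, g x x = 0 → x = 0) (hq : ∀ x, 0 ≤ q x x)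
    (R : Fin 4 → M →ₗ[ℝ] M) (hR : ∀ e x y, g (R e x) (R e y) = g x y)
    (hsum : ∀ x, ∑ e, q (R e x) (R e x) ≤ g x x) (M₀ : Submodule ℝ M) {N : ℕ}
    (hN : N ≤ finrank ℝ M₀) : ∃ F : Fin N → M, (∀ i, F i ∈ M₀) ∧
      (∀ i j, g (F i) (F j) = if i = j then 1 else 0) ∧
      4 * ∑ i, q (F i) (F i) ≤ finrank ℝ M := by
  let c : InnerProductSpace.Core ℝ M :=
    { inner := fun x y => g x y
      conj_inner_symm := fun x y => hg y x
      re_inner_nonneg := hg0
      add_left := fun x y z => by simp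
      smul_left := fun x y r => by simp
      definite := hg1 }
  let _ : NormedAddCommGroup M := @InnerProductSpace.Core.toNormedAddCommGroup ℝ M _ _ _ c
  let _ : InnerProductSpace ℝ M := InnerProductSpace.ofCore c.toCore
  obtain ⟨F, h1, h2, h3⟩ := trace_bound_aux q hq R hR hsum M₀ hN
  exact ⟨F, h1, orthonormal_iff_ite.1 h2, h3⟩

theorem psd_zero {Z : Type*} [AddCommGroup Z] [Module ℝ Z] (Q : Z →ₗ[ℝ] Z →ₗ[ℝ] ℝ)
    (hs : ∀ x y, Q x y = Q y x) (hp : ∀ x, 0 ≤ Q x x) {x : Z} (hx : Q x x = 0) (y : Z) :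
    Q x y = 0 := by
  have := det_cs Q hs hp (fun _ : Fin 1 => x) fun _ => y
  simp only [Matrix.det_unique, Matrix.of_apply, hx, zero_mul] at this
  exact pow_eq_zero_iff two_ne_zero |>.1 (le_antisymm this (sq_nonneg _))

variable {H : Type*} [NormedAddCommGroup H] [InnerProductSpace ℝ H]

/-- Signs of the quaternion multiplication table. -/
def sg : Fin 4 → Fin 4 → ℝ := ![![1, 1, 1, 1], ![-1, 1, 1, -1], ![-1, -1, 1, 1], ![-1, 1, -1, 1]]

/-- Indices of the quaternion multiplication table. -/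
def pm : Fin 4 → Fin 4 → Fin 4 := ![![0, 1, 2, 3], ![1, 0, 3, 2], ![2, 3, 0, 1], ![3, 2, 1, 0]]

theorem quat_bound (V : Fin 3 → Fin 4 → H) (hV : ∀ i j e f, ⟪V i e, V j f⟫ = ⟪V j e, V i f⟫)
    (G : Fin 4 → H) {t : ℝ} (h1 : t = ∑ e, ∑ i, ⟪V i e, V i e⟫)
    (h2 : t = ∑ e, ∑ i : Fin 3, sg e i.succ * ⟪G (pm e i.succ), V i e⟫) :
    t ≤ ∑ c, ⟪G c, G c⟫ := by
  let W : Fin 4 → H := ![V 0 1 + V 1 2 + V 2 3, V 0 0 + V 2 2 - V 1 3, V 1 0 - V 2 1 + V 0 3,
    V 2 0 + V 1 1 - V 0 2]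
  have h3 : ∑ c, ⟪G c, W c⟫ = t := by
    rw [h2]
    simp [W, Fin.sum_univ_four, Fin.sum_univ_three, sg, pm, inner_add_right, inner_sub_right]
    ring
  have h4 : ∑ c, ⟪W c, W c⟫ = t := by
    rw [h1]
    simp only [W, Fin.sum_univ_four, Fin.sum_univ_three, Matrix.cons_val_zero, Matrix.cons_val_one,
      Matrix.cons_val, inner_add_right, inner_sub_right, inner_add_left, inner_sub_left]
    linarith [hV 0 1 1 2, hV 0 1 2 1, hV 0 2 1 3, hV 0 2 3 1, hV 1 2 2 3, hV 1 2 3 2,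
      hV 0 2 0 2, hV 0 2 2 0, hV 0 1 0 3, hV 0 1 3 0, hV 1 2 0 1, hV 1 2 1 0]
  have h5 : 0 ≤ ∑ c, ⟪G c - W c, G c - W c⟫ :=
    Finset.sum_nonneg fun c _ => real_inner_self_nonneg
  simp only [inner_sub_left, inner_sub_right, Finset.sum_sub_distrib,
    real_inner_comm (G _) (W _), h3, h4] at h5
  linarith

theorem singularValue_le_of_eigen (K : H →L[ℝ] H) (hK : ∀ x y, ⟪K x, y⟫ = ⟪x, K y⟫)
    {c : ℕ → ℝ} (hc : StrictAnti c) (hc0 : ∀ k, 0 ≤ c k) {n N : ℕ} (W : Submodule ℝ H)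
    [FiniteDimensional ℝ W] (hW : finrank ℝ W ≤ N) {s : Set H} (hs : Dense s)
    (h : ∀ x ∈ s, ∃ (m : ℕ) (u : ℕ → H), x = ∑ k ∈ Finset.range m, u k ∧
      (∀ k, K (u k) = c k • u k) ∧ ∀ k < n, u k ∈ W) : singularValue K N ≤ c n := by
  classical
  have orth : ∀ {k l : ℕ} {u v : H}, k ≠ l → K u = c k • u → K v = c l • v → ⟪u, v⟫ = 0 := by
    intro k l u v hkl hu hv
    have h1 := hK u v
    rw [hu, hv, real_inner_smul_left, real_inner_smul_right, ← sub_eq_zero, ← sub_mul] at h1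
    exact (mul_eq_zero.1 h1).resolve_left (sub_ne_zero.2 (hc.injective.ne hkl))
  let U := Submodule.span ℝ {v | ∃ k, n ≤ k ∧ K v = c k • v}
  let W₀ := W ⊓ Uᗮ
  have : FiniteDimensional ℝ W₀ := Submodule.finiteDimensional_of_le inf_le_left
  refine (singularValue_le K (K ∘L W₀.starProjection) ?_).trans ?_
  · refine (LinearMap.rank_comp_le_right W₀.starProjection.toLinearMap K.toLinearMap).trans ?_
    have h1 : LinearMap.range W₀.starProjection.toLinearMap = W₀ := W₀.range_starProjection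
    rw [LinearMap.rank, h1, ← finrank_eq_rank]
    exact_mod_cast (Submodule.finrank_mono inf_le_left).trans hW
  refine ContinuousLinearMap.opNorm_le_bound _ (hc0 n) fun x => ?_
  refine hs.induction (P := fun x => ‖(K - K ∘L W₀.starProjection) x‖ ≤ c n * ‖x‖) ?_
    (isClosed_le (by fun_prop) (by fun_prop)) x
  intro x hx
  obtain ⟨m, u, rfl, hu, huW⟩ := h x hx
  let t := (Finset.range m).filter fun k => ¬ k < n
  have h1 : ∑ k ∈ (Finset.range m).filter (· < n), u k ∈ W₀ := by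
    refine W₀.sum_mem fun k hk => ⟨huW k (Finset.mem_filter.1 hk).2, ?_⟩
    refine (Submodule.mem_orthogonal _ _).2 fun v hv => ?_
    induction hv using Submodule.span_induction with
    | mem v hv =>
      obtain ⟨l, hl, hv⟩ := hv
      exact orth (by have := (Finset.mem_filter.1 hk).2; omega) hv (hu k)
    | zero => simp
    | add _ _ _ _ h1 h2 => rw [inner_add_left, h1, h2, add_zero]
    | smul _ _ _ h1 => rw [real_inner_smul_left, h1, mul_zero]
  have h2 : ∑ k ∈ t, u k ∈ W₀ᗮ := by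
    refine Submodule.orthogonal_le inf_le_right (U.le_orthogonal_orthogonal ?_)
    exact U.sum_mem fun k hk =>
      Submodule.subset_span ⟨k, not_lt.1 (Finset.mem_filter.1 hk).2, hu k⟩
  have h3 := (Finset.sum_filter_add_sum_filter_not (Finset.range m) (· < n) u).symm
  have h4 := Submodule.eq_starProjection_of_mem_orthogonal' h1 h2 h3
  have h5 : ∑ k ∈ Finset.range m, u k - W₀.starProjection (∑ k ∈ Finset.range m, u k) =
      ∑ k ∈ t, u k := by
    rw [h4, h3]
    exact add_sub_cancel_left _ _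
  have h6 : ‖∑ k ∈ t, u k‖ ≤ ‖∑ k ∈ Finset.range m, u k‖ := by
    rw [← h5, ← Submodule.starProjection_orthogonal_val]
    exact Submodule.norm_starProjection_apply_le _ _
  have h7 : ∀ a : ℕ → ℝ, ‖∑ k ∈ t, a k • u k‖ ^ 2 = ∑ k ∈ t, a k ^ 2 * ‖u k‖ ^ 2 := by
    intro a
    rw [← real_inner_self_eq_norm_sq, sum_inner]
    refine Finset.sum_congr rfl fun k hk => ?_
    rw [inner_sum, Finset.sum_eq_single_of_mem k hk fun l _ hl => by
      rw [real_inner_smul_left, real_inner_smul_right, orth hl.symm (hu k) (hu l)]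
      simp]
    rw [real_inner_smul_left, real_inner_smul_right, real_inner_self_eq_norm_sq]
    ring
  have h8 : (K - K ∘L W₀.starProjection) (∑ k ∈ Finset.range m, u k) = ∑ k ∈ t, c k • u k := by
    change K _ - K (W₀.starProjection _) = _
    rw [← map_sub, h5, map_sum]
    exact Finset.sum_congr rfl fun k _ => hu k
  refine le_trans ?_ (mul_le_mul_of_nonneg_left h6 (hc0 n))
  rw [h8]
  refine (pow_le_pow_iff_left₀ (norm_nonneg _) (mul_nonneg (hc0 n) (norm_nonneg _))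
    two_ne_zero).1 ?_
  have h9 := h7 fun _ => 1
  simp only [one_smul, one_pow, one_mul] at h9
  rw [h7, mul_pow, h9, Finset.mul_sum]
  refine Finset.sum_le_sum fun k hk => mul_le_mul_of_nonneg_right ?_ (sq_nonneg _)
  exact pow_le_pow_left₀ (hc0 k) (hc.antitone (not_lt.1 (Finset.mem_filter.1 hk).2)) 2

end Pool.Agent.MP_ec20d8_an

end

-- part MP_ec20d8_an.Poly
section

/-!
Polynomials in three variables: harmonic and monogenic polynomials and their dimensions.
-/

open MvPolynomial Module Finsupp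

namespace Pool.Agent.MP_ec20d8_an

/-- Real polynomials in three variables. -/
abbrev P3 := MvPolynomial (Fin 3) ℝ

/-- The polynomial function centred at `a`. -/
noncomputable def ev (a : E3) : P3 →ₐ[ℝ] C(E3, ℝ) :=
  aeval fun i => ⟨fun y => y i - a i, by fun_prop⟩

theorem ev_X (a : E3) (i : Fin 3) (y : E3) : ev a (X i) y = y i - a i := by simp [ev]

theorem ev_C (a : E3) (c : ℝ) (y : E3) : ev a (C c) y = c := by simp [ev]

theorem ev_apply (a : E3) (p : P3) (y : E3) : ev a p y = eval (fun i => y i - a i) p := by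
  induction p using MvPolynomial.induction_on with
  | C c => simp
  | add p q hp hq => simp [hp, hq]
  | mul_X p i hp => simp [hp, ev_X]

theorem contDiff_ev (a : E3) (p : P3) : ContDiff ℝ 1 (ev a p) := by
  induction p using MvPolynomial.induction_on with
  | C c => exact (funext (ev_C a c)).symm ▸ contDiff_const
  | add p q hp hq => rw [map_add]; exact hp.add hq
  | mul_X p i hp =>
    rw [map_mul]
    refine hp.mul ?_
    rw [funext (ev_X a i)]
    fun_prop

theorem pd_ev (a : E3) (i : Fin 3) (p : P3) (y : E3) : ev a (pderiv i p) y = pd i (ev a p) y := by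
  induction p using MvPolynomial.induction_on with
  | C c => rw [funext (ev_C a c)]; simp [pd]
  | add p q hp hq =>
    simp only [map_add, ContinuousMap.coe_add, Pi.add_apply, hp, hq, pd]
    rw [fderiv_add ((contDiff_ev a p).differentiable one_ne_zero y)
      ((contDiff_ev a q).differentiable one_ne_zero y), _root_.add_apply]
  | mul_X p j hp =>
    have h1 := pd_mul i (contDiff_ev a p) (contDiff_ev a (X j)) y
    have h2 : pd i (ev a (X j)) y = ev a (pderiv i (X j)) y := by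
      have : HasFDerivAt (fun y : E3 => y j - a j) (EuclideanSpace.proj j : E3 →L[ℝ] ℝ) y :=
        (EuclideanSpace.proj j : E3 →L[ℝ] ℝ).hasFDerivAt.sub_const (a j)
      rw [pd, funext (ev_X a j), this.fderiv]
      by_cases h : j = i
      · simp [h]
      · simp [h, pderiv_X_of_ne h]
    rw [map_mul (ev a) p, show ⇑(ev a p * ev a (X j)) = fun y => ev a p y * ev a (X j) y from rfl,
      h1, h2, ← hp, pderiv_mul]
    simp

theorem eq_zero_of_open (a : E3) {p : P3} {U : Set E3} (hU : IsOpen U) (hne : U.Nonempty)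
    (h : ∀ y ∈ U, ev a p y = 0) : p = 0 := by
  obtain ⟨x, hx⟩ := hne
  let φ : (Fin 3 → ℝ) → E3 := fun t => a + WithLp.toLp 2 t
  have hφ : Continuous φ := by fun_prop
  obtain ⟨u, hu, hu'⟩ := isOpen_pi_iff'.1 (hU.preimage hφ) (fun i => x i - a i)
    (show φ _ ∈ U by rwa [show φ (fun i => x i - a i) = x by ext i; simp [φ]])
  refine funext_set u (fun i => infinite_of_mem_nhds _ ((hu i).1.mem_nhds (hu i).2))
    fun t ht => ?_
  have := h _ (hu' ht)
  rw [ev_apply] at this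
  simpa [φ] using this

theorem pderiv_swap (i j : Fin 3) (p : P3) : pderiv i (pderiv j p) = pderiv j (pderiv i p) := by
  ext d
  rcases eq_or_ne i j with rfl | h
  · rfl
  simp only [coeff_pderiv, add_right_comm d, Finsupp.add_apply, single_eq_of_ne h,
    single_eq_of_ne h.symm, add_zero]
  ring

theorem eq_C_of_pderiv {p : P3} (h : ∀ i, pderiv i p = 0) : p = C (coeff 0 p) := by
  ext d
  rcases eq_or_ne d 0 with rfl | hd
  · simp
  obtain ⟨i, hi⟩ := Finsupp.ne_iff.1 hd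
  have h1 := coeff_pderiv (i := i) p (d - single i 1)
  rw [h, coeff_zero, tsub_add_cancel_of_le (single_le_iff.2 (Nat.pos_of_ne_zero hi))] at h1
  rw [coeff_C, if_neg hd.symm]
  exact (mul_eq_zero.1 h1.symm).resolve_right (by positivity)

/-- The Laplacian. -/
noncomputable def lap : P3 →ₗ[ℝ] P3 := ∑ i, (pderiv i).toLinearMap ∘ₗ (pderiv i).toLinearMap

theorem lap_apply (p : P3) : lap p = ∑ i, pderiv i (pderiv i p) := by simp [lap]

theorem lap_component {p : P3} (h : lap p = 0) (k : ℕ) : lap (homogeneousComponent k p) = 0 := by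
  ext d
  have h1 := congrArg (coeff d) h
  simp only [lap_apply, coeff_sum, coeff_pderiv, coeff_homogeneousComponent, map_add,
    degree_single, coeff_zero] at h1 ⊢
  split_ifs
  · exact h1
  · simp

/-- Polynomials of degree less than `n`. -/
noncomputable def Pd (n : ℕ) : Submodule ℝ P3 := restrictSupport ℝ {d | d.degree < n}

theorem mem_Pd {n : ℕ} {p : P3} : p ∈ Pd n ↔ ∀ d, n ≤ d.degree → coeff d p = 0 := by
  rw [Pd, mem_restrictSupport_iff]
  exact forall_congr' fun d => by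
    simp only [Finset.mem_coe, MvPolynomial.mem_support_iff, Set.mem_ofPred_eq, ← not_le, not_imp_not]

instance (n : ℕ) : FiniteDimensional ℝ (Pd n) :=
  Submodule.finiteDimensional_of_le (S₂ := restrictTotalDegree (Fin 3) ℝ n)
    (restrictSupport_mono ℝ fun d hd => show d.degree ≤ n from le_of_lt hd)

theorem pderiv_mem {n : ℕ} {p : P3} (h : p ∈ Pd n) (i : Fin 3) : pderiv i p ∈ Pd (n - 1) :=
  mem_Pd.2 fun d hd => by
    rw [coeff_pderiv, mem_Pd.1 h _ (by rw [map_add, degree_single]; omega), zero_mul]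

theorem exists_Pd (p : P3) : p ∈ Pd (p.totalDegree + 1) :=
  mem_Pd.2 fun _ hd => coeff_eq_zero_of_totalDegree_lt hd

/-- Index set of the plane exponents of degree less than `n`. -/
abbrev Ix (n : ℕ) := Σ k : Fin n, Fin (k + 1)

/-- The exponent with prescribed last entry. -/
noncomputable def ex {n : ℕ} (m : ℕ) (t : Ix n) : Fin 3 →₀ ℕ :=
  equivFunOnFinite.symm ![t.2, t.1 - t.2, m]

theorem card_Ix (n : ℕ) : 2 * Fintype.card (Ix n) = n * (n + 1) := by
  simp only [Fintype.card_sigma, Fintype.card_fin]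
  rw [Fin.sum_univ_eq_sum_range (fun k => k + 1) n]
  induction n with
  | zero => simp
  | succ n ih => rw [Finset.sum_range_succ, mul_add, ih]; ring

theorem deg3 (d : Fin 3 →₀ ℕ) : d.degree = d 0 + d 1 + d 2 := by
  rw [degree_eq_sum, Fin.sum_univ_three]

theorem ex_surj {n : ℕ} {d : Fin 3 →₀ ℕ} (h : d 0 + d 1 < n) : ∃ t : Ix n, ex (d 2) t = d :=
  ⟨⟨⟨d 0 + d 1, h⟩, ⟨d 0, by simp only; omega⟩⟩, by ext i; fin_cases i <;> simp [ex]⟩

theorem ex_zero {n : ℕ} (m : ℕ) (t : Ix n) : ex m t 0 = t.2 := rfl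

theorem ex_one {n : ℕ} (m : ℕ) (t : Ix n) : ex m t 1 = t.1 - t.2 := rfl

theorem ex_two {n : ℕ} (m : ℕ) (t : Ix n) : ex m t 2 = m := rfl

theorem ex_inj {n : ℕ} (m : ℕ) : Function.Injective (ex (n := n) m) := by
  rintro ⟨k, j⟩ ⟨k', j'⟩ h
  have h0 := congrArg (· 0) h
  have h1 := congrArg (· 1) h
  simp only [ex_zero, ex_one] at h0 h1
  have := j.2
  have := j'.2
  obtain rfl : k = k' := Fin.ext (by omega)
  obtain rfl : j = j' := Fin.ext h0
  rfl

/-- Exponents of degree at most `n` whose last entry is at most one. -/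
noncomputable def dm {n : ℕ} : Ix (n + 1) ⊕ Ix n → Fin 3 →₀ ℕ := Sum.elim (ex 0) (ex 1)

theorem card_J (n : ℕ) : Fintype.card (Ix (n + 1) ⊕ Ix n) = (n + 1) ^ 2 := by
  have h1 := card_Ix n
  have h2 := card_Ix (n + 1)
  rw [Fintype.card_sum]
  nlinarith

theorem dm_inj {n : ℕ} : Function.Injective (dm (n := n)) :=
  (ex_inj 0).sumElim (ex_inj 1) fun s t h => by simpa [ex_two] using congrArg (· 2) h

theorem dm_prop {n : ℕ} (j : Ix (n + 1) ⊕ Ix n) : (dm j).degree < n + 1 ∧ dm j 2 ≤ 1 := by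
  rcases j with ⟨k, j⟩ | ⟨k, j⟩ <;>
  · have := j.2
    have := k.2
    simp only [dm, Sum.elim_inl, Sum.elim_inr, deg3, ex_zero, ex_one, ex_two]
    omega

theorem dm_surj {n : ℕ} {d : Fin 3 →₀ ℕ} (h : d.degree < n + 1) (h2 : d 2 ≤ 1) :
    ∃ j : Ix (n + 1) ⊕ Ix n, dm j = d := by
  rw [deg3] at h
  rcases Nat.le_one_iff_eq_zero_or_eq_one.1 h2 with h3 | h3
  · obtain ⟨t, ht⟩ := ex_surj (n := n + 1) (d := d) (by omega)
    exact ⟨.inl t, by rwa [h3] at ht⟩
  · obtain ⟨t, ht⟩ := ex_surj (n := n) (d := d) (by omega)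
    exact ⟨.inr t, by rwa [h3] at ht⟩

theorem finrank_harm (n : ℕ) :
    (n + 1) ^ 2 ≤ finrank ℝ (Pd (n + 1) ⊓ LinearMap.ker lap : Submodule ℝ P3) := by
  classical
  let E : ((Ix (n + 1) ⊕ Ix n → ℝ) × Pd (n - 1)) →ₗ[ℝ] P3 :=
    (Fintype.linearCombination ℝ fun j => monomial (dm j) 1).coprod
      (LinearMap.mulLeft ℝ (monomial (single 2 2) 1) ∘ₗ (Pd (n - 1)).subtype)
  have hE : ∀ z d, coeff d (E z) = (∑ j, if dm j = d then z.1 j else 0) +
      if single 2 2 ≤ d then coeff (d - single 2 2) (z.2 : P3) else 0 := fun z d => by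
    simp [E, Fintype.linearCombination_apply, coeff_sum, coeff_monomial, coeff_monomial_mul']
  have h1 : Function.Injective E := by
    refine (injective_iff_map_eq_zero E).2 fun z hz => ?_
    have h2 : z.1 = 0 := funext fun j => by
      have := hE z (dm j)
      have h3 := (dm_prop j).2
      rw [hz, if_neg (by rw [single_le_iff]; omega)] at this
      simpa [dm_inj.eq_iff] using this.symm
    refine Prod.ext h2 (Subtype.ext (MvPolynomial.ext _ _ fun d => ?_))
    have := hE z (single 2 2 + d)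
    rw [if_pos le_self_add, add_tsub_cancel_left] at this
    simpa [hz, h2] using this.symm
  have h2 : ∀ z, E z ∈ Pd (n + 1) := fun z => mem_Pd.2 fun d hd => by
    rw [hE, Finset.sum_eq_zero fun j _ => if_neg fun h => by
      have := (dm_prop j).1; rw [h] at this; omega, zero_add]
    split_ifs with h
    · refine mem_Pd.1 z.2.2 _ ?_
      have := congrArg degree (tsub_add_cancel_of_le h)
      rw [map_add, degree_single] at this
      omega
    · rfl
  let L := (lap ∘ₗ E).codRestrict (Pd (n - 1)) fun z => by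
    rw [LinearMap.comp_apply, lap_apply]
    exact Submodule.sum_mem _ fun i _ => pderiv_mem (pderiv_mem (h2 z) i) i
  have h3 := L.finrank_range_add_finrank_ker
  have h4 := Submodule.finrank_le (LinearMap.range L)
  rw [finrank_prod, finrank_fintype_fun_eq_card, card_J] at h3
  have h5 : (LinearMap.ker L).map E ≤ Pd (n + 1) ⊓ LinearMap.ker lap := by
    rintro _ ⟨z, hz, rfl⟩
    exact ⟨h2 z, congrArg Subtype.val hz⟩
  have : FiniteDimensional ℝ (Pd (n + 1) ⊓ LinearMap.ker lap : Submodule ℝ P3) :=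
    Submodule.finiteDimensional_of_le inf_le_left
  have h6 := Submodule.finrank_mono h5
  rw [← (Submodule.equivMapOfInjective E h1 _).finrank_eq] at h6
  omega

theorem finrank_sphere {H : Type*} [AddCommGroup H] [Module ℝ H] (T : P3 →ₗ[ℝ] H) {c : ℝ}
    (hT : ∀ q, T ((X 0 ^ 2 + X 1 ^ 2 + X 2 ^ 2) * q) = c • T q) (n : ℕ) :
    finrank ℝ ((Pd (n + 1)).map T) ≤ (n + 1) ^ 2 := by
  let W := Submodule.span ℝ (Set.range fun j : Ix (n + 1) ⊕ Ix n => T (monomial (dm j) 1))
  have key : ∀ m (d : Fin 3 →₀ ℕ), d 2 = m → d.degree < n + 1 → T (monomial d 1) ∈ W := by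
    intro m
    induction m using Nat.strong_induction_on with
    | _ m ih =>
      intro d hd hn
      by_cases h : d 2 ≤ 1
      · obtain ⟨j, rfl⟩ := dm_surj hn h
        exact Submodule.subset_span ⟨j, rfl⟩
      obtain ⟨e, rfl⟩ := exists_add_of_le (show single 2 2 ≤ d from single_le_iff.2 (by omega))
      have h1 := hT (monomial e 1)
      simp only [add_mul, X_pow_eq_monomial, monomial_mul, mul_one, map_add] at h1
      simp only [map_add, degree_single, Finsupp.add_apply, single_eq_same] at hd hn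
      rw [eq_sub_of_add_eq' h1]
      refine W.sub_mem (W.smul_mem _ (ih _ (by omega) e rfl (by omega))) (W.add_mem
        (ih (e 2) (by omega) _ (by simp) (by simpa using hn))
        (ih (e 2) (by omega) _ (by simp) (by simpa using hn)))
  have h1 : (Pd (n + 1)).map T ≤ W := by
    rw [Pd, restrictSupport_eq_span, Submodule.map_span_le]
    rintro _ ⟨d, hd, rfl⟩
    exact key _ d rfl hd
  have : FiniteDimensional ℝ W := FiniteDimensional.span_of_finite ℝ (Set.finite_range _)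
  exact (Submodule.finrank_mono h1).trans ((finrank_range_le_card _).trans_eq (card_J n))

/-- Quaternion multiplication by the basis elements. -/
noncomputable def RR (e : Fin 4) : (Fin 4 → P3) →ₗ[ℝ] Fin 4 → P3 :=
  LinearMap.pi fun c => sg e c • LinearMap.proj (pm e c)

theorem RR_apply (e : Fin 4) (G : Fin 4 → P3) (c : Fin 4) : RR e G c = sg e c • G (pm e c) := rfl

/-- The divergence of the vector part. -/
noncomputable def dv : (Fin 4 → P3) →ₗ[ℝ] P3 :=
  ∑ i : Fin 3, (pderiv i).toLinearMap ∘ₗ LinearMap.proj i.succ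

theorem dv_apply (G : Fin 4 → P3) : dv G = ∑ i : Fin 3, pderiv i (G i.succ) := by simp [dv]

/-- Monogenic polynomials of degree less than `n`. -/
noncomputable def Mono (n : ℕ) : Submodule ℝ (Fin 4 → P3) :=
  (Submodule.pi Set.univ fun _ => Pd n) ⊓ ⨅ e, LinearMap.ker (dv ∘ₗ RR e)

theorem mem_Mono {n : ℕ} {G : Fin 4 → P3} :
    G ∈ Mono n ↔ (∀ c, G c ∈ Pd n) ∧ ∀ e, dv (RR e G) = 0 := by
  simp [Mono, Submodule.mem_pi]

theorem RR_RR (e f : Fin 4) (G : Fin 4 → P3) :
    RR e (RR f G) = (sg e 0 * sg f e * sg (pm e f) 0) • RR (pm e f) G := by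
  ext1 c
  simp only [RR_apply, Pi.smul_apply, smul_smul]
  fin_cases e <;> fin_cases f <;> fin_cases c <;> simp [sg, pm]

theorem RR_mem {n : ℕ} (f : Fin 4) {G : Fin 4 → P3} (h : G ∈ Mono n) : RR f G ∈ Mono n :=
  mem_Mono.2 ⟨fun c => (Pd n).smul_mem _ ((mem_Mono.1 h).1 _), fun e => by
    rw [RR_RR, map_smul, (mem_Mono.1 h).2, smul_zero]⟩

theorem finrank_Mono (n : ℕ) :
    FiniteDimensional ℝ (Mono n) ∧ finrank ℝ (Mono n) ≤ 2 * (n * (n + 1)) := by
  let L : Mono n →ₗ[ℝ] (Fin 4 × Ix n → ℝ) :=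
    LinearMap.pi fun z => lcoeff ℝ (ex 0 z.2) ∘ₗ LinearMap.proj z.1 ∘ₗ (Mono n).subtype
  have hL : Function.Injective L := by
    refine (injective_iff_map_eq_zero L).2 fun ⟨G, hG⟩ h => Subtype.ext ?_
    obtain ⟨h1, h2⟩ := mem_Mono.1 hG
    have key : ∀ m (d : Fin 3 →₀ ℕ), d 2 = m → ∀ c, coeff d (G c) = 0 := by
      intro m
      induction m with
      | zero =>
        intro d hd c
        by_cases hn : d 0 + d 1 < n
        · obtain ⟨t, ht⟩ := ex_surj hn
          rw [← ht, hd]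
          exact congrFun h (c, t)
        · exact mem_Pd.1 (h1 c) d (by rw [deg3]; omega)
      | succ m ih =>
        intro d hd c
        obtain ⟨e, rfl⟩ := exists_add_of_le (show single 2 1 ≤ d from single_le_iff.2 (by omega))
        simp only [Finsupp.add_apply, single_eq_same] at hd
        have h3 := congrArg (coeff e) (h2 (pm c 3))
        simp only [dv_apply, Fin.sum_univ_three, RR_apply, coeff_add, coeff_pderiv, coeff_smul,
          ih (e + single 0 1) (by simp; omega), ih (e + single 1 1) (by simp; omega),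
          zero_mul, zero_add, coeff_zero, smul_eq_mul, mul_zero] at h3
        have h4 : (e 2 : ℝ) + 1 ≠ 0 := by positivity
        rw [add_comm]
        fin_cases c <;> simpa [sg, pm, h4] using h3
    funext c
    exact MvPolynomial.ext _ _ fun d => key _ d rfl c
  refine ⟨.of_injective L hL, (LinearMap.finrank_le_finrank_of_injective hL).trans_eq ?_⟩
  rw [finrank_fintype_fun_eq_card, Fintype.card_prod, Fintype.card_fin, ← card_Ix]
  ring

/-- The gradient as a purely vectorial quaternion. -/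
noncomputable def gr : P3 →ₗ[ℝ] Fin 4 → P3 :=
  LinearMap.pi (Fin.cons 0 fun i => (pderiv i).toLinearMap)

theorem gr_zero (p : P3) : gr p 0 = 0 := rfl

theorem gr_succ (p : P3) (i : Fin 3) : gr p i.succ = pderiv i p := rfl

theorem gr_mem {n : ℕ} {p : P3} (h : p ∈ Pd (n + 1)) (hl : lap p = 0) : gr p ∈ Mono n := by
  refine mem_Mono.2 ⟨Fin.cases (Pd n).zero_mem (pderiv_mem h), fun e => ?_⟩
  rw [lap_apply, Fin.sum_univ_three] at hl
  have h1 : gr p 1 = pderiv 0 p := rfl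
  have h2 : gr p 2 = pderiv 1 p := rfl
  have h3 : gr p 3 = pderiv 2 p := rfl
  fin_cases e <;> simp [dv_apply, Fin.sum_univ_three, RR_apply, sg, pm, gr_zero, h1, h2, h3, hl,
    pderiv_swap 1 0, pderiv_swap 2 0, pderiv_swap 2 1]

theorem finrank_gr (n : ℕ) :
    n * (n + 2) ≤ finrank ℝ ((Pd (n + 1) ⊓ LinearMap.ker lap).map gr) := by
  set U : Submodule ℝ P3 := Pd (n + 1) ⊓ LinearMap.ker lap
  have : FiniteDimensional ℝ U := Submodule.finiteDimensional_of_le inf_le_left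
  have h1 := (gr.domRestrict U).finrank_range_add_finrank_ker
  rw [LinearMap.range_domRestrict] at h1
  have h2 : finrank ℝ (LinearMap.ker (gr.domRestrict U)) ≤ finrank ℝ ℝ :=
    LinearMap.finrank_le_finrank_of_injective
      (f := lcoeff ℝ 0 ∘ₗ U.subtype ∘ₗ (LinearMap.ker (gr.domRestrict U)).subtype)
      ((injective_iff_map_eq_zero _).2 fun z hz => Subtype.ext (Subtype.ext (by
        have h3 := eq_C_of_pderiv (p := z.1.1) fun i => congrFun z.2 i.succ
        rw [h3, show coeff 0 z.1.1 = 0 from hz]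
        simp)))
  have h3 := finrank_harm n
  rw [finrank_self] at h2
  nlinarith

end Pool.Agent.MP_ec20d8_an

end

-- part MP_ec20d8_an.Krein
section

/-!
A Krein type inequality: the trace of a symmetrisable operator, compressed with respect to the
symmetrising form, is bounded by the Ky Fan norm.
-/

open scoped RealInnerProductSpace
open Matrix Filter Topology

namespace Pool.Agent.MP_ec20d8_an

variable {H : Type*} [NormedAddCommGroup H] [InnerProductSpace ℝ H]

theorem det_gram_step (T : H →L[ℝ] H) {n : ℕ} {μ : ℝ} (hμ0 : 0 ≤ μ)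
    (hμ : ∀ u : Fin n → H, Orthonormal ℝ u → (gram ℝ fun i => T (u i)).det ≤ μ)
    (a : Fin n → H) : (gram ℝ fun i => T (a i)).det ≤ μ * (gram ℝ a).det := by
  by_cases ha : LinearIndependent ℝ a
  · let W := Submodule.span ℝ (Set.range a)
    have : FiniteDimensional ℝ W := FiniteDimensional.span_of_finite ℝ (Set.finite_range a)
    have hW : Module.finrank ℝ W = n := by simpa using finrank_span_eq_card ha
    let b : OrthonormalBasis (Fin n) ℝ W := (stdOrthonormalBasis ℝ W).reindex (finCongr hW)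
    let u : Fin n → H := fun g => b g
    have hu : Orthonormal ℝ u := b.orthonormal.comp_linearIsometry W.subtypeₗᵢ
    let A : Matrix (Fin n) (Fin n) ℝ :=
      of fun g i => b.repr ⟨a i, Submodule.subset_span ⟨i, rfl⟩⟩ g
    have hA : ∀ i, a i = ∑ g, A g i • u g := fun i => by
      have := congrArg Subtype.val (b.sum_repr ⟨a i, Submodule.subset_span ⟨i, rfl⟩⟩)
      simpa [A, u] using this.symm
    have key : ∀ S : H →L[ℝ] H, (gram ℝ fun i => S (a i)).det =
        A.det ^ 2 * (gram ℝ fun i => S (u i)).det := by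
      intro S
      have : (gram ℝ fun i => S (a i)) = Aᵀ * (gram ℝ fun i => S (u i)) * A := by
        ext i j
        simp only [gram_apply, mul_apply, transpose_apply]
        rw [hA i, hA j]
        simp only [map_sum, map_smul, sum_inner, inner_sum, real_inner_smul_left,
          real_inner_smul_right, Finset.sum_mul]
        exact Finset.sum_congr rfl fun _ _ => Finset.sum_congr rfl fun _ _ => by ring
      rw [this, det_mul, det_mul, det_transpose]
      ring
    have h1 := key (ContinuousLinearMap.id ℝ H)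
    simp only [ContinuousLinearMap.id_apply] at h1
    rw [gram_eq_one_iff_orthonormal.2 hu, det_one, mul_one] at h1
    rw [key T, h1, mul_comm]
    exact mul_le_mul_of_nonneg_right (hμ u hu) (sq_nonneg _)
  · have h1 : (gram ℝ fun i => T (a i)).det = 0 := by
      by_contra h
      exact ha (LinearIndependent.of_comp T.toLinearMap
        (det_gram_ne_zero_iff_linearIndependent.1 h))
    rw [h1]
    exact mul_nonneg hμ0 (posSemidef_gram ℝ a).det_nonneg

theorem det_gram_pow (T : H →L[ℝ] H) {n : ℕ} {μ : ℝ} (hμ0 : 0 ≤ μ)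
    (hμ : ∀ u : Fin n → H, Orthonormal ℝ u → (gram ℝ fun i => T (u i)).det ≤ μ)
    (a : Fin n → H) (k : ℕ) : (gram ℝ fun i => (T ^ k) (a i)).det ≤ μ ^ k * (gram ℝ a).det := by
  induction k with
  | zero => simp
  | succ k ih =>
    have := det_gram_step T hμ0 hμ fun i => (T ^ k) (a i)
    simp only [pow_succ', mul_apply_eq_comp]
    refine this.trans ?_
    rw [mul_assoc]
    exact mul_le_mul_of_nonneg_left ih hμ0

theorem det_gram_one_add [CompleteSpace H] (K : H →L[ℝ] H) {ε : ℝ} (hε : 0 ≤ ε) {n : ℕ}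
    {u : Fin n → H} (hu : Orthonormal ℝ u) : (gram ℝ fun i => (1 + ε • K) (u i)).det ≤
      Real.exp (2 * ε * ∑ j ∈ Finset.range n, singularValue K j + ε ^ 2 * (n * ‖K‖ ^ 2)) := by
  refine (det_le_exp_trace (posSemidef_gram ℝ _)).trans (Real.exp_le_exp.2 ?_)
  have h1 : ∀ i, ⟪(1 + ε • K) (u i), (1 + ε • K) (u i)⟫ ≤
      1 + 2 * ε * ⟪K (u i), u i⟫ + ε ^ 2 * ‖K‖ ^ 2 := by
    intro i
    have h2 : ‖K (u i)‖ ≤ ‖K‖ := by simpa [hu.1 i] using K.le_opNorm (u i)
    have h3 : ‖K (u i)‖ ^ 2 ≤ ‖K‖ ^ 2 := by gcongr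
    have h6 : (1 + ε • K) (u i) = u i + ε • K (u i) := rfl
    rw [h6, inner_add_left, inner_add_right, inner_add_right]
    simp only [real_inner_smul_left, real_inner_smul_right]
    rw [real_inner_self_eq_norm_sq, real_inner_self_eq_norm_sq, hu.1 i,
      real_inner_comm (K (u i)) (u i)]
    nlinarith [sq_nonneg ε]
  have h4 := Finset.sum_le_sum fun i (_ : i ∈ Finset.univ) => h1 i
  simp only [Finset.sum_add_distrib, Finset.sum_const, Finset.card_univ, Fintype.card_fin,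
    nsmul_eq_mul, mul_one, ← Finset.mul_sum] at h4
  have h5 := kyFan K hu
  simp only [trace, diag, gram_apply]
  nlinarith

theorem deriv_nonneg_of_pos {f : ℝ → ℝ} {f' : ℝ} (hf : HasDerivAt f f' 0) (h0 : f 0 = 0)
    (h : ∀ ε, 0 < ε → 0 ≤ f ε) : 0 ≤ f' := by
  have h1 := hf.tendsto_slope_zero_right
  refine ge_of_tendsto h1 ?_
  filter_upwards [self_mem_nhdsWithin] with ε hε
  simp only [zero_add, h0, sub_zero, smul_eq_mul]
  exact mul_nonneg (inv_nonneg.2 (le_of_lt hε)) (h ε hε)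

/-- The data of a symmetrisable operator with the extra eigenvalue `1/2`. -/
structure SymData (K : H →L[ℝ] H) (Z : Type*) [AddCommGroup Z] [Module ℝ Z] where
  τ : Z →ₗ[ℝ] H
  ϑ : Z →ₗ[ℝ] H
  A : Module.End ℝ Z
  one : H
  hτ : ∀ z, τ (A z) = K (τ z)
  symm : ∀ z z', ⟪τ z, ϑ z'⟫ = ⟪τ z', ϑ z⟫
  pos : ∀ z, 0 ≤ ⟪τ z, ϑ z⟫
  symmK : ∀ z z', ⟪K (τ z), ϑ z'⟫ = ⟪K (τ z'), ϑ z⟫
  one_ne : one ≠ 0
  K_one : K one = (1 / 2 : ℝ) • one
  one_orth : ∀ z, ⟪one, ϑ z⟫ = 0

theorem SymData.bound [CompleteSpace H] {K : H →L[ℝ] H} {Z : Type*} [AddCommGroup Z] [Module ℝ Z]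
    (D : SymData K Z) {N : ℕ} (z : Fin N → Z)
    (hz : ∀ i j, ⟪D.τ (z i), D.ϑ (z j)⟫ = if i = j then 1 else 0) :
    1 / 2 + ∑ i, ⟪K (D.τ (z i)), D.ϑ (z i)⟫ ≤ ∑ j ∈ Finset.range (N + 1), singularValue K j := by
  set κ := ∑ j ∈ Finset.range (N + 1), singularValue K j
  set c := ((N + 1 : ℕ) : ℝ) * ‖K‖ ^ 2
  let M : Matrix (Fin N) (Fin N) ℝ := of fun i j => ⟪K (D.τ (z i)), D.ϑ (z j)⟫
  let Q : Z →ₗ[ℝ] Z →ₗ[ℝ] ℝ := (innerₗ H).compl₁₂ D.τ D.ϑ
  have hQ : ∀ x y, Q x y = ⟪D.τ x, D.ϑ y⟫ := fun x y => rfl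
  have main : ∀ ε : ℝ, 0 < ε →
      ((1 + ε / 2) * (1 + ε • M).det) ^ 2 ≤ Real.exp (2 * ε * κ + ε ^ 2 * c) := by
    intro ε hε
    set μ := Real.exp (2 * ε * κ + ε ^ 2 * c)
    have hμ : 0 < μ := Real.exp_pos _
    let T : H →L[ℝ] H := 1 + ε • K
    let S : Module.End ℝ Z := 1 + ε • D.A
    have hS1 : ∀ x, D.τ (S x) = T (D.τ x) := fun x => by simp [S, T, D.hτ]
    have hS : ∀ k x, D.τ ((S ^ k) x) = (T ^ k) (D.τ x) := by
      intro k
      induction k with
      | zero => simp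
      | succ k ih => intro x; simp only [pow_succ', Module.End.mul_apply,
          mul_apply_eq_comp, hS1, ih]
    have hs1 : ∀ x y, Q (S x) y = Q x (S y) := fun x y => by
      rw [hQ, hQ, D.symm x, hS1, hS1]
      have h6 : ∀ v, T v = v + ε • K v := fun v => rfl
      simp only [h6, inner_add_left, real_inner_smul_left]
      rw [D.symm x y, D.symmK x y]
    have hs : ∀ k x y, Q ((S ^ k) x) y = Q x ((S ^ k) y) := by
      intro k
      induction k with
      | zero => simp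
      | succ k ih =>
        intro x y
        conv_lhs => rw [pow_succ', Module.End.mul_apply, hs1, ih]
        rw [pow_succ, Module.End.mul_apply]
    let d : ℕ → ℝ := fun k => (of fun i j => Q ((S ^ k) (z i)) (z j)).det
    have hd0 : (of fun i j => Q (z i) (z j)).det = 1 := by
      have : (of fun i j => Q (z i) (z j)) = 1 := by
        ext i j
        simp [hQ, hz, one_apply]
      rw [this, det_one]
    have hd1 : d 1 = (1 + ε • M).det := by
      simp only [d]
      congr 1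
      ext i j
      simp [hQ, hS1, T, M, inner_add_left, real_inner_smul_left, hz, one_apply]
    have hd2 : ∀ m, d m ^ 2 ≤ d (2 * m) := by
      intro m
      have := det_cs Q (fun x y => D.symm x y) (fun x => D.pos x) (fun i => (S ^ m) (z i)) z
      rw [hd0, mul_one] at this
      refine this.trans_eq ?_
      simp only [d]
      congr 1
      ext i j
      simp only [of_apply]
      rw [← hs, two_mul, pow_add, Module.End.mul_apply]
    have hd3 : ∀ j : ℕ, (d 1 ^ 2) ^ (2 ^ j) ≤ d (2 ^ (j + 1)) := by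
      intro j
      induction j with
      | zero => simpa using hd2 1
      | succ j ih =>
        rw [pow_succ 2 j, pow_mul, pow_succ' 2 (j + 1)]
        refine le_trans ?_ (hd2 _)
        gcongr
    let a : Fin (N + 1) → H := Fin.cons D.one fun i => D.τ (z i)
    let b : Fin (N + 1) → H := Fin.cons D.one fun i => D.ϑ (z i)
    have hT1 : ∀ k, (T ^ k) D.one = (1 + ε / 2) ^ k • D.one := by
      intro k
      induction k with
      | zero => simp
      | succ k ih =>
        rw [pow_succ', mul_apply_eq_comp, ih, map_smul]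
        have h6 : ∀ v, T v = v + ε • K v := fun v => rfl
        rw [h6, D.K_one]
        module
    have hD : ∀ k, (of fun i j => innerₗ H ((T ^ k) (a i)) (b j)).det =
        (1 + ε / 2) ^ k * ‖D.one‖ ^ 2 * d k := by
      intro k
      rw [det_succ_row_zero, Fin.sum_univ_succ]
      have h1 : ∀ j : Fin N, (of fun i j => innerₗ H ((T ^ k) (a i)) (b j)) 0 j.succ = 0 := by
        intro j
        change ⟪(T ^ k) D.one, D.ϑ (z j)⟫ = 0
        rw [hT1, real_inner_smul_left, D.one_orth, mul_zero]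
      simp only [h1, mul_zero, zero_mul, Finset.sum_const_zero, add_zero]
      simp only [d, hQ, hS]
      congr 1
      change (-1) ^ ((0 : Fin (N + 1)) : ℕ) * ⟪(T ^ k) D.one, D.one⟫ = _
      rw [hT1, real_inner_smul_left, real_inner_self_eq_norm_sq]
      simp
    have hgrow : ∀ k, ((1 + ε / 2) ^ k * ‖D.one‖ ^ 2 * d k) ^ 2 ≤
        μ ^ k * ((gram ℝ a).det * (gram ℝ b).det) := by
      intro k
      rw [← hD]
      refine (det_cs (innerₗ H) (fun x y => real_inner_comm y x)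
        (fun x => real_inner_self_nonneg) (fun i => (T ^ k) (a i)) b).trans ?_
      rw [← mul_assoc]
      exact mul_le_mul_of_nonneg_right
        (det_gram_pow T hμ.le (fun u hu => det_gram_one_add K hε.le hu) a k)
        (posSemidef_gram ℝ b).det_nonneg
    rw [← hd1]
    by_contra hn
    push Not at hn
    set r := ((1 + ε / 2) * d 1) ^ 2 / μ with hr
    have hr1 : 1 < r := (one_lt_div hμ).2 hn
    have hc : 0 < (‖D.one‖ ^ 2) ^ 2 := by
      have := norm_pos_iff.2 D.one_ne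
      positivity
    obtain ⟨j, hj⟩ := pow_unbounded_of_one_lt
      ((gram ℝ a).det * (gram ℝ b).det / (‖D.one‖ ^ 2) ^ 2) hr1
    have h1 : r ^ j ≤ r ^ (2 ^ (j + 1)) :=
      pow_le_pow_right₀ hr1.le (Nat.lt_two_pow_self.le.trans (Nat.pow_le_pow_right two_pos
        (Nat.le_succ j)))
    have h2 := hgrow (2 ^ (j + 1))
    have h3 : ((1 + ε / 2) ^ (2 ^ (j + 1)) * ‖D.one‖ ^ 2 * (d 1 ^ 2) ^ (2 ^ j)) ^ 2 ≤
        ((1 + ε / 2) ^ (2 ^ (j + 1)) * ‖D.one‖ ^ 2 * d (2 ^ (j + 1))) ^ 2 := by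
      gcongr
      exact hd3 j
    have h4 : ((1 + ε / 2) ^ (2 ^ (j + 1)) * ‖D.one‖ ^ 2 * (d 1 ^ 2) ^ (2 ^ j)) ^ 2 =
        μ ^ (2 ^ (j + 1)) * (r ^ (2 ^ (j + 1)) * (‖D.one‖ ^ 2) ^ 2) := by
      rw [hr, div_pow, ← pow_mul (d 1), ← pow_succ', ← pow_mul, mul_comm 2 (2 ^ (j + 1)),
        pow_mul, mul_pow (1 + ε / 2)]
      field_simp
    have h5 := le_of_mul_le_mul_left ((h4.symm.trans_le h3).trans h2) (pow_pos hμ _)
    rw [div_lt_iff₀ hc] at hj
    nlinarith
  let P := (det (1 + (Polynomial.X : Polynomial ℝ) • M.map Polynomial.C)).divX.divX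
  have hP : ∀ ε : ℝ, (1 + ε • M).det = 1 + M.trace * ε + P.eval ε * ε ^ 2 :=
    fun ε => det_one_add_smul ε M
  have h1 : HasDerivAt (fun ε : ℝ => Real.exp (2 * ε * κ + ε ^ 2 * c) -
      ((1 + ε / 2) * (1 + M.trace * ε + P.eval ε * ε ^ 2)) ^ 2) (2 * κ - (1 + 2 * M.trace)) 0 := by
    have e1 : HasDerivAt (fun ε : ℝ => 2 * ε * κ + ε ^ 2 * c) (2 * κ) 0 := by
      simpa using (((hasDerivAt_id (0 : ℝ)).const_mul 2).mul_const κ).fun_add
        (((hasDerivAt_id (0 : ℝ)).pow 2).mul_const c)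
    have e2 : HasDerivAt (fun ε : ℝ => 1 + M.trace * ε + P.eval ε * ε ^ 2) M.trace 0 := by
      simpa using (((hasDerivAt_id (0 : ℝ)).const_mul M.trace).const_add 1).fun_add
        ((P.hasDerivAt 0).fun_mul ((hasDerivAt_id (0 : ℝ)).pow 2))
    have e3 : HasDerivAt (fun ε : ℝ => 1 + ε / 2) (1 / 2) 0 :=
      ((hasDerivAt_id (0 : ℝ)).div_const 2).const_add 1
    refine (e1.exp.fun_sub ((e3.fun_mul e2).pow 2)).congr_deriv ?_
    simp
    ring
  have h2 := deriv_nonneg_of_pos h1 (by simp) fun ε hε => by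
    rw [← hP]
    exact sub_nonneg.2 (main ε hε)
  have h3 : M.trace = ∑ i, ⟪K (D.τ (z i)), D.ϑ (z i)⟫ := rfl
  linarith

end Pool.Agent.MP_ec20d8_an

end

-- part MP_ec20d8_an.Lower
section

/-!
The lower bound for the Ky Fan norms of the Neumann-Poincare operator.
-/

open MeasureTheory MvPolynomial Module
open scoped RealInnerProductSpace

namespace Pool.Agent.MP_ec20d8_an

theorem div_ev (a : E3) {G : Fin 4 → P3} (h : dv G = 0) (y : E3) :
    ∑ i, pd i (ev a (G i.succ)) y = 0 := by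
  have := congrArg (fun p => ev a p y) h
  simpa [dv_apply, pd_ev] using this

theorem dv_gr (p : P3) : dv (gr p) = lap p := by
  simp [dv_apply, lap_apply, gr_succ]

namespace Dom

variable (D : Dom)

/-- The operator `1/2 - K`. -/
noncomputable def opB : L2 D.σ →L[ℝ] L2 D.σ := (1 / 2 : ℝ) • 1 - D.opK

/-- Its transpose. -/
noncomputable def opBt : L2 D.σ →L[ℝ] L2 D.σ := (1 / 2 : ℝ) • 1 - D.opKt

theorem B_apply (φ : L2 D.σ) : D.opB φ = (1 / 2 : ℝ) • φ - D.opK φ := rfl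

theorem Bt_adj (φ ψ : L2 D.σ) : ⟪φ, D.opBt ψ⟫ = ⟪D.opB φ, ψ⟫ := by
  rw [show D.opBt ψ = (1 / 2 : ℝ) • ψ - D.opKt ψ from rfl, B_apply, inner_sub_right, inner_sub_left,
    real_inner_smul_left, real_inner_smul_right, real_inner_comm (D.opKt ψ), Kt_adj,
    real_inner_comm ψ (D.opK φ)]

theorem inner_K (φ ψ : L2 D.σ) : ⟪D.opK φ, ψ⟫ = ⟪φ, ψ⟫ / 2 - ⟪D.opB φ, ψ⟫ := by
  rw [B_apply, inner_sub_left, real_inner_smul_left]
  ring

theorem op_E' (φ ψ : L2 D.σ) :
    ∑ i, ⟪D.opV D.meas i φ, D.opV D.meas i ψ⟫ = ⟪D.opB (D.opS ψ), φ⟫ := by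
  rw [op_E, Kt_adj, real_inner_comm (D.opK _), inner_K, real_inner_comm φ]
  ring

/-- The normal component of the vector part. -/
noncomputable def nv (a : E3) : (Fin 4 → P3) →ₗ[ℝ] L2 D.σ :=
  ∑ i : Fin 3, D.rN i ∘ₗ (ev a).toLinearMap ∘ₗ LinearMap.proj i.succ

theorem nv_apply (a : E3) (G : Fin 4 → P3) : D.nv a G = D.nrm fun i => ev a (G i.succ) := by
  simp [nv, nrm]

theorem S_nv (a : E3) {p : P3} (h : lap p = 0) :
    D.opS (D.nv a (gr p)) = D.opB (D.rS (ev a p)) := by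
  refine ext_inner_right ℝ fun φ => ?_
  rw [nv_apply, ← D.op_D D.meas subset_rfl (fun i => contDiff_ev a _)
    (div_ev a ((dv_gr p).trans h)), B_apply, ← D.op_C (contDiff_ev a p) fun i => pd_ev a i p]
  rfl

theorem quat (a : E3) {G : Fin 4 → P3} (h : ∀ e, dv (RR e G) = 0) :
    ∑ e, ⟪D.opS (D.nv a (RR e G)), D.nv a (RR e G)⟫ ≤
      ∑ c, ⟪D.rO (ev a (G c)), D.rO (ev a (G c))⟫ := by
  refine quat_bound (fun i e => D.opV .univ i (D.nv a (RR e G))) (fun i j _ _ => D.op_X i j _ _)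
    (fun c => D.rO (ev a (G c))) (by simp only [op_Ew, S_symm]) ?_
  refine Finset.sum_congr rfl fun e _ => ?_
  conv_lhs => arg 2; rw [nv_apply]
  rw [← D.op_D .univ (Set.subset_univ _) (fun i => contDiff_ev a _) (div_ev a (h e))]
  simp only [RR_apply, map_smul, real_inner_smul_left]

/-- Harmonic polynomials and densities. -/
abbrev Z := LinearMap.ker lap × L2 D.σ

/-- Dirichlet data. -/
noncomputable def τ : D.Z →ₗ[ℝ] L2 D.σ :=
  (D.rS ∘ₗ (ev 0).toLinearMap ∘ₗ (LinearMap.ker lap).subtype).coprod D.opS.toLinearMap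

/-- Neumann data. -/
noncomputable def ϑ : D.Z →ₗ[ℝ] L2 D.σ :=
  (D.nv 0 ∘ₗ gr ∘ₗ (LinearMap.ker lap).subtype).coprod D.opBt.toLinearMap

/-- The gradient in the domain. -/
noncomputable def U (i : Fin 3) (z : D.Z) : L2 (volume : Measure E3) :=
  D.rO (ev 0 (pderiv i z.1.1)) + D.opV D.meas i z.2

theorem τ_apply (z : D.Z) : D.τ z = D.rS (ev 0 z.1.1) + D.opS z.2 := rfl

theorem ϑ_apply (z : D.Z) : D.ϑ z = D.nv 0 (gr z.1.1) + D.opBt z.2 := rfl

theorem Q_eq (z z' : D.Z) : ⟪D.τ z, D.ϑ z'⟫ = ∑ i, ⟪D.U i z, D.U i z'⟫ := by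
  simp only [τ_apply, ϑ_apply, U, inner_add_left, inner_add_right, Finset.sum_add_distrib]
  have h1 := fun (z : D.Z) φ => D.op_C (contDiff_ev 0 z.1.1) (fun i => pd_ev 0 i z.1.1) φ
  have h2 := D.op_G (G := fun i => ev 0 (gr z'.1.1 i.succ)) (contDiff_ev 0 z.1.1)
    (fun i => pd_ev 0 i z.1.1) (fun i => contDiff_ev 0 _) (div_ev 0 ((dv_gr _).trans z'.1.2))
  simp only [gr_succ] at h2
  simp only [real_inner_comm (D.rO _) (D.opV _ _ _), real_inner_comm (D.opV _ _ z'.2) (D.opV _ _ _)]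
  rw [h1, h1, h2, op_E', Bt_adj, Bt_adj, S_symm, D.S_nv 0 z'.1.2, nv_apply, real_inner_comm _ z.2]
  rfl

theorem Q_symm (z z' : D.Z) : ⟪D.τ z, D.ϑ z'⟫ = ⟪D.τ z', D.ϑ z⟫ := by
  simp only [Q_eq, real_inner_comm]

theorem Q_nonneg (z : D.Z) : 0 ≤ ⟪D.τ z, D.ϑ z⟫ := by
  rw [Q_eq]
  exact Finset.sum_nonneg fun _ _ => real_inner_self_nonneg

theorem S_ϑ (z : D.Z) : D.opS (D.ϑ z) = D.opB (D.τ z) := by
  rw [τ_apply, ϑ_apply, map_add, map_add, D.S_nv 0 z.1.2]
  congr 1
  refine ext_inner_right ℝ fun φ => ?_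
  rw [S_symm, real_inner_comm, Bt_adj, ← op_E', ← op_E']
  simp only [real_inner_comm]

theorem eq_zero_on_S {f : E3 → ℝ} (hf : ContinuousOn f D.S) (h : ∀ᵐ y ∂D.σ, f y = 0) {p : E3}
    (hp : p ∈ D.S) : f p = 0 := by
  by_contra h0
  obtain ⟨V, hV, h1⟩ := mem_nhdsWithin_iff_exists_mem_nhds_inter.1 ((hf p hp).eventually_ne h0)
  refine D.σ_pos hp hV (measure_eq_zero_iff_ae_notMem.2 ?_)
  filter_upwards [h, D.ae_S] with y h2 h3 h4 using h1 ⟨h4, h3⟩ h2

theorem one_ne (hne : D.S.Nonempty) : D.rS 1 ≠ 0 := by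
  intro h
  obtain ⟨p, hp⟩ := hne
  have h1 := D.rS_ae 1
  rw [h] at h1
  exact one_ne_zero (D.eq_zero_on_S (f := fun _ => 1) continuousOn_const
    (h1.symm.trans (Lp.coeFn_zero _ _ _)) hp)

theorem lap_one : lap 1 = 0 := by simp [lap_apply]

theorem B_one : D.opB (D.rS 1) = 0 := by
  have := D.S_nv 0 lap_one
  rw [map_one (ev 0), show gr 1 = 0 by ext1 c; refine Fin.cases rfl (fun i => ?_) c; simp [gr_succ],
    map_zero, map_zero] at this
  exact this.symm

theorem K_one : D.opK (D.rS 1) = (1 / 2 : ℝ) • D.rS 1 := (sub_eq_zero.1 D.B_one).symm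

/-- The symmetrisation data. -/
noncomputable def sym (hne : D.S.Nonempty) : SymData D.opK D.Z where
  τ := D.τ
  ϑ := D.ϑ
  A := (1 / 2 : ℝ) • 1 - LinearMap.inr ℝ _ _ ∘ₗ D.ϑ
  one := D.rS 1
  hτ z := by
    have : D.τ (0, D.ϑ z) = D.opB (D.τ z) := by simp [τ_apply, S_ϑ]
    simp [this, B_apply]
  symm := D.Q_symm
  pos := D.Q_nonneg
  symmK z z' := by rw [inner_K, inner_K, Q_symm, ← S_ϑ, ← S_ϑ, S_symm, real_inner_comm (D.opS _)]
  one_ne := D.one_ne hne
  K_one := D.K_one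
  one_orth z := by
    have := D.Q_eq (⟨1, lap_one⟩, 0) z
    simpa [τ_apply, U] using this

theorem Ω_nonempty (hne : D.S.Nonempty) : D.Ω.Nonempty := by
  rw [← D.frontier_eq] at hne
  exact closure_nonempty_iff.1 (hne.mono frontier_subset_closure)

theorem rO_inj (hne : D.S.Nonempty) (a : E3) {p : P3} (h : D.rO (ev a p) = 0) : p = 0 := by
  refine eq_zero_of_open a D.isOpen (D.Ω_nonempty hne) ?_
  have h1 := D.rO_ae (ev a p)
  rw [h] at h1
  refine Measure.eqOn_open_of_ae_eq (μ := volume) (g := fun _ => 0) ?_ D.isOpen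
    (ev a p).continuous.continuousOn continuousOn_const
  filter_upwards [ae_restrict_mem D.meas,
    ae_restrict_of_ae (h1.symm.trans (Lp.coeFn_zero _ _ _))] with y h2 h3
  simpa [h2] using h3

theorem lower (hne : D.S.Nonempty) (n : ℕ) :
    ((n : ℝ) + 1) / 2 ≤ ∑ j ∈ Finset.range ((n + 1) ^ 2), singularValue D.opK j := by
  let L : Fin 4 → Mono n →ₗ[ℝ] L2 (volume : Measure E3) := fun c =>
    D.rO ∘ₗ (ev 0).toLinearMap ∘ₗ LinearMap.proj c ∘ₗ (Mono n).subtype
  let g : Mono n →ₗ[ℝ] Mono n →ₗ[ℝ] ℝ := ∑ c, (innerₗ _).compl₁₂ (L c) (L c)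
  have hg : ∀ x y, g x y = ∑ c, ⟪D.rO (ev 0 (x.1 c)), D.rO (ev 0 (y.1 c))⟫ := fun x y => by
    simp [g, L]
  let q : Mono n →ₗ[ℝ] Mono n →ₗ[ℝ] ℝ := (innerₗ _).compl₁₂
    (D.opS.toLinearMap ∘ₗ D.nv 0 ∘ₗ (Mono n).subtype) (D.nv 0 ∘ₗ (Mono n).subtype)
  have hq : ∀ x y, q x y = ⟪D.opS (D.nv 0 x.1), D.nv 0 y.1⟫ := fun x y => rfl
  have := (finrank_Mono n).1
  have hle : (Pd (n + 1) ⊓ LinearMap.ker lap).map gr ≤ Mono n := by
    rintro _ ⟨p, hp, rfl⟩
    exact gr_mem hp.1 hp.2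
  obtain ⟨F, h1, h2, h3⟩ := trace_bound g q (fun x y => by simp only [hg, real_inner_comm])
    (fun x => hg x x ▸ Finset.sum_nonneg fun _ _ => real_inner_self_nonneg)
    (fun x hx => Subtype.ext (funext fun c => D.rO_inj hne 0 (inner_self_eq_zero.1
      ((Finset.sum_eq_zero_iff_of_nonneg fun _ _ => real_inner_self_nonneg).1 ((hg x x).symm.trans hx) c
        (Finset.mem_univ c)))))
    (fun x => by rw [hq, S_symm]; exact D.S_nonneg _)
    (fun e => (RR e).restrict fun _ h => RR_mem e h)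
    (fun e x y => by
      simp only [hg, LinearMap.coe_restrict_apply, RR_apply, map_smul, real_inner_smul_left,
        real_inner_smul_right, Fin.sum_univ_four]
      fin_cases e <;> simp [sg, pm] <;> ring)
    (fun x => hg x x ▸ D.quat 0 (mem_Mono.1 x.2).2)
    (((Pd (n + 1) ⊓ LinearMap.ker lap).map gr).comap (Mono n).subtype)
    ((finrank_gr n).trans_eq (Submodule.comapSubtypeEquivOfLe hle).finrank_eq.symm)
  choose h hh hF using h1
  let z : Fin (n * (n + 2)) → D.Z := fun i => (⟨h i, (hh i).2⟩, 0)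
  have hF' : ∀ i, (F i).1 = gr (h i) := fun i => (hF i).symm
  have hz : ∀ i j, ⟪D.τ (z i), D.ϑ (z j)⟫ = if i = j then 1 else 0 := fun i j => by
    rw [← h2, hg, Q_eq, Fin.sum_univ_succ (n := 3)]
    simp [hF', gr_zero, gr_succ, U, z]
  have h4 := (D.sym hne).bound z hz
  have h5 : ∀ i, ⟪D.opK (D.τ (z i)), D.ϑ (z i)⟫ = 1 / 2 - q (F i) (F i) := fun i => by
    rw [inner_K, hz, if_pos rfl, ← S_ϑ, hq, hF']
    simp [ϑ_apply, z]
  have h6 : (finrank ℝ (Mono n) : ℝ) ≤ 2 * (n * (n + 1)) := by exact_mod_cast (finrank_Mono n).2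
  change 1 / 2 + ∑ i, ⟪D.opK (D.τ (z i)), D.ϑ (z i)⟫ ≤ _ at h4
  simp only [h5, Finset.sum_sub_distrib, Finset.sum_const, Finset.card_univ, Fintype.card_fin,
    nsmul_eq_mul] at h4
  rw [show (n + 1) ^ 2 = n * (n + 2) + 1 by ring]
  push_cast at h4
  linarith

end Dom

end Pool.Agent.MP_ec20d8_an

end

-- part MP_ec20d8_an.Equal
section

/-!
The equality case: the first two singular values characterise the sphere.
-/

open MeasureTheory MvPolynomial Module Set Metric Filter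
open scoped RealInnerProductSpace ContDiff

namespace Pool.Agent.MP_ec20d8_an

namespace Dom

variable (D : Dom)

theorem S_injective {φ : L2 D.σ} (h : D.opS φ = 0) : ∀ᵐ y ∂D.σ, φ y = 0 :=
  ae_eq_zero_of_integral_contDiff_smul_eq_zero
    ((Lp.memLp φ).integrable one_le_two).locallyIntegrable fun _ hg _ =>
    D.S_inj h (hg.of_le (mod_cast le_top))

theorem subset_of_preconn {s : Set E3} (hs : IsPreconnected s) (h : ∀ y ∈ s, y ∉ D.S) {y₀ : E3}
    (h0 : y₀ ∈ s) (h1 : y₀ ∈ D.Ω) : s ⊆ D.Ω := fun y hy => by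
  by_contra h2
  obtain ⟨z, hz, h3⟩ := hs.intermediate_value h0 hy D.cont.continuousOn
    ⟨(D.mem_iff.1 h1).le, not_lt.1 fun h' => h2 (D.mem_iff.2 h')⟩
  exact h z hz h3

theorem ball_of_sphere (hne : D.S.Nonempty) {a : E3} {r : ℝ} (h : D.S ⊆ sphere a r) :
    0 < r ∧ D.Ω = ball a r := by
  have h1 : D.Ω ⊆ closedBall a r := fun y hy => by
    by_contra h2
    rw [mem_closedBall_iff_norm, not_le] at h2
    obtain ⟨p, hp⟩ := hne
    have hr : 0 ≤ r := (mem_sphere_iff_norm.1 (h hp)) ▸ norm_nonneg _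
    have h3 := D.subset_of_preconn (s := (fun t : ℝ => a + t • (y - a)) '' Ici 1)
      (isPreconnected_Ici.image _ (by fun_prop)) (by
        rintro _ ⟨t, ht : 1 ≤ t, rfl⟩ hS
        have := mem_sphere_iff_norm.1 (h hS)
        rw [add_sub_cancel_left, norm_smul, Real.norm_of_nonneg (by linarith)] at this
        nlinarith) ⟨1, self_mem_Ici, by simp⟩ hy
    obtain ⟨R, hR0, hR⟩ := D.hb.subset_closedBall_lt 0 a
    have h4 : 0 < ‖y - a‖ := by linarith
    have h5 : 0 < R / ‖y - a‖ := by positivity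
    have := mem_closedBall_iff_norm.1 (hR (h3 ⟨R / ‖y - a‖ + 1, by simp [h5.le], rfl⟩))
    rw [add_sub_cancel_left, norm_smul, Real.norm_of_nonneg (by linarith), add_mul,
      div_mul_cancel₀ _ h4.ne'] at this
    linarith
  have h2 : D.Ω ⊆ ball a r := interior_closedBall' a r ▸ interior_maximal h1 D.isOpen
  obtain ⟨y, hy⟩ := D.Ω_nonempty hne
  exact ⟨nonempty_ball.1 ⟨y, h2 hy⟩, h2.antisymm (D.subset_of_preconn isPreconnected_ball
    (fun z hz hS => (mem_ball_iff_norm.1 hz).ne (mem_sphere_iff_norm.1 (h hS))) (h2 hy) hy)⟩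

theorem kerB (hne : D.S.Nonempty) (h1 : singularValue D.opK 1 < 1 / 2) {f : L2 D.σ}
    (hf : D.opB f = 0) : ∃ c : ℝ, f = c • D.rS 1 := by
  by_contra h
  push Not at h
  have hK : D.opK f = (1 / 2 : ℝ) • f := (sub_eq_zero.1 hf).symm
  refine h1.not_ge (le_singularValue_of_subspace D.opK (W := ℝ × ℝ) (by simp)
    ((LinearMap.toSpanSingleton ℝ _ (D.rS 1)).coprod (LinearMap.toSpanSingleton ℝ _ f))
    ((injective_iff_map_eq_zero _).2 fun x hx => ?_) fun x => ?_)
  · simp only [LinearMap.coprod_apply, LinearMap.toSpanSingleton_apply] at hx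
    have h2 : x.2 = 0 := by
      by_contra h2
      refine h (-(x.2⁻¹ * x.1)) ?_
      rw [neg_smul, mul_smul, eq_neg_of_add_eq_zero_left hx, smul_neg, neg_neg, smul_smul,
        inv_mul_cancel₀ h2, one_smul]
    rw [h2, zero_smul, add_zero, smul_eq_zero] at hx
    exact Prod.ext (hx.resolve_right (D.one_ne hne)) h2
  · simp only [LinearMap.coprod_apply, LinearMap.toSpanSingleton_apply, map_add, map_smul, hK,
      K_one, smul_comm _ (1 / 2 : ℝ), ← smul_add, real_inner_smul_left,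
      real_inner_self_eq_norm_sq, le_refl]

theorem lap_X (i : Fin 3) : lap (X i) = 0 := by
  rw [lap_apply]
  refine Finset.sum_eq_zero fun j _ => ?_
  by_cases h : i = j
  · simp [h]
  · simp [pderiv_X_of_ne h]

theorem B_normal (hne : D.S.Nonempty)
    (h : singularValue D.opK 0 + singularValue D.opK 1 ≤ 2 / 3) (i : Fin 3) :
    D.opB (D.opS (D.nv 0 (gr (X i))) - (1 / 3 : ℝ) • D.rS (ev 0 (X i))) = 0 := by
  let R : D.Z →ₗ[ℝ] D.Z →ₗ[ℝ] ℝ := (innerₗ _).compl₁₂ (D.opS.toLinearMap ∘ₗ D.ϑ) D.ϑ -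
    (1 / 3 : ℝ) • (innerₗ _).compl₁₂ D.τ D.ϑ
  have hR : ∀ z z', R z z' = ⟪D.opS (D.ϑ z), D.ϑ z'⟫ - 1 / 3 * ⟪D.τ z, D.ϑ z'⟫ := fun _ _ => rfl
  have h1 : ∀ z z', R z z' = R z' z := fun z z' => by
    rw [hR, hR, Q_symm, S_symm, real_inner_comm (D.opS _)]
  have h2 : ∀ z, ⟪D.τ z, D.ϑ z⟫ = 1 → 0 ≤ R z z := fun z hz => by
    have := (D.sym hne).bound (N := 1) (fun _ => z) fun i j => by
      rw [if_pos (Subsingleton.elim i j)]; exact hz
    change 1 / 2 + ∑ _i : Fin 1, ⟪D.opK (D.τ z), D.ϑ z⟫ ≤ _ at this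
    simp only [Fin.sum_univ_one, Finset.sum_range_succ, Finset.sum_range_zero, inner_K, hz,
      ← S_ϑ] at this
    rw [hR, hz]
    linarith
  have h3 : ∀ z, 0 ≤ R z z := fun z => by
    rcases (D.Q_nonneg z).eq_or_lt with h0 | h0
    · rw [hR, ← h0, mul_zero, sub_zero, S_symm]
      exact D.S_nonneg _
    · have h4 := Real.sqrt_pos.2 h0
      have := h2 ((√⟪D.τ z, D.ϑ z⟫)⁻¹ • z) (by
        simp only [map_smul, real_inner_smul_left, real_inner_smul_right]
        rw [← mul_assoc, ← mul_inv, Real.mul_self_sqrt h0.le, inv_mul_cancel₀ h0.ne'])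
      simp only [map_smul, LinearMap.smul_apply, smul_eq_mul] at this
      exact nonneg_of_mul_nonneg_right (nonneg_of_mul_nonneg_right this (inv_pos.2 h4))
        (inv_pos.2 h4)
  let x : Fin 3 → D.Z := fun i => (⟨X i, lap_X i⟩, 0)
  have h4 : ∀ i, ⟪D.τ (x i), D.ϑ (x i)⟫ = ⟪D.rO 1, D.rO 1⟫ := fun i => by
    rw [Q_eq, Finset.sum_eq_single i (fun j _ hj => by simp [U, x, pderiv_X_of_ne hj.symm])
      (by simp)]
    simp [U, x]
  have h5 : ∀ i : Fin 3, RR i.succ ![1, 0, 0, 0] = gr (X i) := fun i => by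
    ext1 c
    refine Fin.cases ?_ (fun j => ?_) c
    · fin_cases i <;> simp [RR_apply, sg, pm, gr_zero]
    · rw [gr_succ]
      fin_cases i <;> fin_cases j <;> simp [RR_apply, sg, pm]
  have h6 : D.nv 0 (RR 0 ![1, 0, 0, 0]) = 0 := by
    simp [nv, Fin.sum_univ_three, RR_apply, sg, pm]
  have h7 := D.quat 0 (G := ![1, 0, 0, 0]) (Fin.cases
    (by simp [dv_apply, Fin.sum_univ_three, RR_apply, sg, pm]) fun i => by rw [h5, dv_gr, lap_X])
  rw [Fin.sum_univ_succ (n := 3), Fin.sum_univ_succ (n := 3), h6] at h7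
  simp only [h5, inner_zero_right, zero_add, Matrix.cons_val_zero, map_one, Matrix.cons_val_succ,
    Fin.sum_univ_three, Matrix.cons_val_one, Matrix.cons_val, map_zero, add_zero] at h7
  have h8 : ∀ i, D.ϑ (x i) = D.nv 0 (gr (X i)) := fun i => by simp [ϑ_apply, x]
  have h9 : ∑ i, R (x i) (x i) = 0 := le_antisymm (by
    simp only [hR, h4, Fin.sum_univ_three]
    simp only [h8]
    linarith) (Finset.sum_nonneg fun i _ => h3 _)
  refine ext_inner_right ℝ fun φ => ?_
  have := psd_zero R h1 h3 ((Finset.sum_eq_zero_iff_of_nonneg fun i _ => h3 _).1 h9 i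
    (Finset.mem_univ i)) (0, φ)
  rw [hR, h8] at this
  rw [← Bt_adj, inner_sub_left, real_inner_smul_left, inner_zero_left]
  simpa [τ_apply, ϑ_apply, x] using this

theorem S_nrm_ae {F : Fin 3 → C(E3, ℝ)} (hF : ∀ i, ContDiff ℝ 1 (F i))
    (hd : ∀ y, ∑ i, pd i (F i) y = 0) :
    D.opS (D.nrm F) =ᵐ[D.σ] fun x => ∫ y in D.Ω, ∑ i, F i y * gg 0 i (y - x) := by
  filter_upwards [D.kerS.op_ae' (D.nrm_ae F), D.ae_S] with x h1 hx
  rw [opS, h1, D.bdry_D hF hd hx]

theorem radial (hne : D.S.Nonempty) (h0 : singularValue D.opK 0 = 1 / 2)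
    (h1 : singularValue D.opK 1 = 1 / 6) :
    ∃ a : E3, ∀ y ∈ D.S, ∀ i j, (y - a) i * D.n y j = (y - a) j * D.n y i := by
  choose c hc using fun i => D.kerB hne (by linarith) (D.B_normal hne (by linarith) i)
  let a : E3 := WithLp.toLp 2 fun i => -3 * c i
  have h2 : ∀ᵐ x ∂D.σ, ∀ i, ∫ y in D.Ω, gg 0 i (y - x) = (x - a) i / 3 := by
    refine ae_all_iff.2 fun i => ?_
    have h3 := D.S_nrm_ae (F := fun k => ev 0 (gr (X i) k.succ)) (fun _ => contDiff_ev _ _)
      (div_ev 0 ((dv_gr _).trans (lap_X i)))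
    rw [← nv_apply, eq_add_of_sub_eq (hc i), ← map_smul, ← map_smul, ← map_add] at h3
    filter_upwards [h3, D.rS_ae (c i • 1 + (1 / 3 : ℝ) • ev 0 (X i))] with x h4 h5
    rw [h5] at h4
    have e : ∀ y, ∑ j, ev 0 (gr (X i) j.succ) y * gg 0 j (y - x) = gg 0 i (y - x) := fun y => by
      rw [Finset.sum_eq_single i (fun j _ hj => by simp [gr_succ, pderiv_X_of_ne hj.symm])
        (by simp)]
      simp [gr_succ]
    simp only [e] at h4
    rw [← h4]
    simp [ev_X, a]
    ring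
  refine ⟨a, fun y hy i j => ?_⟩
  rcases eq_or_ne i j with rfl | hij
  · rfl
  let F : Fin 3 → C(E3, ℝ) := fun k =>
    ev a ((if k = j then X i else 0) - if k = i then X j else 0)
  have hF : ∀ (y : E3) (g : Fin 3 → ℝ), ∑ k, F k y * g k = (y - a) i * g j - (y - a) j * g i := by
    intro y g
    simp [F, apply_ite (ev a), apply_ite fun f : C(E3, ℝ) => f y, sub_mul, ev_X]
  have h3 := D.S_nrm_ae (F := F) (fun _ => contDiff_ev _ _) fun y => by
    refine Finset.sum_eq_zero fun k _ => ?_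
    simp only [F, ← pd_ev]
    split_ifs with h1 h2 h2
    · exact absurd (h2.symm.trans h1) hij
    · simp [pderiv_X_of_ne (Ne.symm h2)]
    · simp [pderiv_X_of_ne (Ne.symm h1)]
    · simp
  obtain ⟨_, hl⟩ := D.loc
  have h4 : D.opS (D.nrm F) = 0 := by
    refine Lp.eq_zero_iff_ae_eq_zero.2 ?_
    filter_upwards [h3, h2, D.ae_S] with x h4 h5 hx
    have hi : ∀ k, IntegrableOn (fun y => gg 0 k (y - x)) D.Ω := fun k =>
      ((hl x hx).1.const_mul c4).mono' (Measurable.aestronglyMeasurable (by fun_prop))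
        (.of_forall fun y => abs_gg_le _ _ _)
    have e : ∀ y : E3, (y - a) i * gg 0 j (y - x) - (y - a) j * gg 0 i (y - x) =
        (x - a) i * gg 0 j (y - x) - (x - a) j * gg 0 i (y - x) := fun y => by
      simp only [gg, PiLp.sub_apply]
      ring
    simp only [h4, hF, e]
    rw [integral_sub ((hi j).const_mul _) ((hi i).const_mul _), integral_const_mul,
      integral_const_mul, h5, h5, Pi.zero_apply]
    ring
  have hn : ∀ k, ContinuousOn (fun y => D.n y k) D.S := fun k =>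
    (EuclideanSpace.proj k : E3 →L[ℝ] ℝ).continuous.comp_continuousOn D.contOn_n
  refine sub_eq_zero.1 (D.eq_zero_on_S
    (f := fun y => (y - a) i * D.n y j - (y - a) j * D.n y i)
    ((ContinuousOn.mul (by fun_prop) (hn j)).sub (ContinuousOn.mul (by fun_prop) (hn i))) ?_ hy)
  filter_upwards [D.S_injective h4, D.nrm_ae F] with y h5 h6
  rw [← hF y fun k => D.n y k, ← h6, h5]

theorem sphere_of_eq (hc : IsConnected D.S) (h0 : singularValue D.opK 0 = 1 / 2)
    (h1 : singularValue D.opK 1 = 1 / 6) : ∃ a r, 0 < r ∧ D.S = sphere a r := by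
  obtain ⟨a, ha⟩ := D.radial hc.nonempty h0 h1
  obtain ⟨C, hC0, hC⟩ := D.quad
  obtain ⟨M, hM0, hM⟩ := D.bdd_Ω (f := fun y => ‖y - a‖) (by fun_prop)
  have h2 : ∀ y ∈ D.S, y - a = ⟪D.n y, y - a⟫ • D.n y := fun y hy => by
    ext i
    have h3 := sum_coord (D.n y) (D.n y)
    rw [real_inner_self_eq_norm_sq, D.norm_n hy, one_pow] at h3
    rw [PiLp.smul_apply, smul_eq_mul, ← sum_coord, Finset.sum_mul, ← mul_one ((y - a) i), ← h3,
      Finset.mul_sum]
    exact Finset.sum_congr rfl fun j _ => by linear_combination D.n y j * ha y hy i j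
  obtain ⟨p, hp⟩ := hc.nonempty
  have h3 : D.S ⊆ sphere a ‖p - a‖ := fun y hy => by
    rw [mem_sphere_iff_norm, ← pow_left_inj₀ (norm_nonneg _) (norm_nonneg _) two_ne_zero]
    refine D.const_of_quad hc.isPreconnected (g := fun y => ‖y - a‖ ^ 2) (C := 1 + 2 * (M * C))
      (by positivity) (fun y hy y' hy' => ?_) hy hp
    have h4 : ‖y - a‖ ^ 2 - ‖y' - a‖ ^ 2 = ‖y - y'‖ ^ 2 + 2 * ⟪y' - a, y - y'⟫ := by
      rw [show y - a = (y' - a) + (y - y') by abel, norm_add_sq_real]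
      ring
    have h5 : |⟪y' - a, y - y'⟫| ≤ M * (C * ‖y - y'‖ ^ 2) := by
      rw [h2 y' hy', real_inner_smul_left, abs_mul]
      refine mul_le_mul ((abs_real_inner_le_norm _ _).trans ?_) (hC y hy y' hy') (abs_nonneg _) hM0
      rw [D.norm_n hy', one_mul]
      exact (le_abs_self _).trans (hM y' (Or.inr hy'))
    rw [h4]
    refine (abs_add_le _ _).trans ?_
    rw [abs_mul, abs_two, abs_of_nonneg (sq_nonneg _)]
    linarith
  obtain ⟨h4, h5⟩ := D.ball_of_sphere ⟨p, hp⟩ h3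
  exact ⟨a, _, h4, by rw [← D.frontier_eq, h5, frontier_ball a h4.ne']⟩

end Dom

end Pool.Agent.MP_ec20d8_an

end

-- part MP_ec20d8_an.Major
section

/-!
Majorisation: from the Ky Fan norms to the Schatten norms.
-/

open Finset
open scoped ENNReal

namespace Pool.Agent.MP_ec20d8_an

/-- The eigenvalues on the sphere. -/
noncomputable def cc (k : ℕ) : ℝ := 1 / (2 * (2 * k + 1))

theorem cc_pos (k : ℕ) : 0 < cc k := by unfold cc; positivity

theorem cc_anti : StrictAnti cc := by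
  intro a b h
  have : (a : ℝ) < b := by exact_mod_cast h
  unfold cc
  apply one_div_lt_one_div_of_lt <;> [positivity; linarith]

theorem sum_block (f : ℕ → ℕ → ℝ) (n : ℕ) :
    ∑ j ∈ range ((n + 1) ^ 2), f j (Nat.sqrt j) =
      ∑ j ∈ range (n ^ 2), f j (Nat.sqrt j) + ∑ i ∈ range (2 * n + 1), f (n ^ 2 + i) n := by
  rw [show (n + 1) ^ 2 = n ^ 2 + (2 * n + 1) by ring, sum_range_add]
  congr 1
  refine sum_congr rfl fun i hi => ?_
  rw [Nat.sqrt_add_eq' n (by have := mem_range.1 hi; omega)]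

theorem tangent_lt {c s p : ℝ} (hc : 0 < c) (hs : 0 ≤ s) (hp : 1 < p) (h : s ≠ c) :
    c ^ p + p * c ^ (p - 1) * (s - c) < s ^ p := by
  have h1 : -1 ≤ s / c - 1 := by have := div_nonneg hs hc.le; linarith
  have h2 : s / c - 1 ≠ 0 := by
    rw [sub_ne_zero, Ne, div_eq_one_iff_eq hc.ne']
    exact h
  have h3 := one_add_mul_self_lt_rpow_one_add h1 h2 hp
  rw [add_sub_cancel, Real.div_rpow hs hc.le, lt_div_iff₀ (Real.rpow_pos_of_pos hc _)] at h3
  refine lt_of_eq_of_lt ?_ h3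
  rw [Real.rpow_sub_one hc.ne']
  field_simp

theorem tangent_le {c s p : ℝ} (hc : 0 < c) (hs : 0 ≤ s) (hp : 1 < p) :
    c ^ p + p * c ^ (p - 1) * (s - c) ≤ s ^ p := by
  by_cases h : s = c
  · simp [h]
  · exact (tangent_lt hc hs hp h).le

/-- The gap in the tangent line inequality. -/
noncomputable def gap (p s : ℝ) (k : ℕ) : ℝ :=
  s ^ p - (cc k ^ p + p * cc k ^ (p - 1) * (s - cc k))

theorem major_sum {s : ℕ → ℝ} {p : ℝ} (hp : 1 < p)
    (h : ∀ n : ℕ, ((n : ℝ) + 1) / 2 ≤ ∑ j ∈ range ((n + 1) ^ 2), s j) (n : ℕ) :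
    ∑ k ∈ range n, (2 * k + 1) * cc k ^ p + ∑ j ∈ range (n ^ 2), gap p (s j) (Nat.sqrt j) +
      p * cc n ^ (p - 1) * (∑ j ∈ range (n ^ 2), s j - n / 2) ≤ ∑ j ∈ range (n ^ 2), s j ^ p := by
  induction n with
  | zero => simp
  | succ n ih =>
    have h1 := sum_block (fun j k => gap p (s j) k) n
    have h2 := sum_block (fun j _ => s j) n
    have h3 := sum_block (fun j _ => s j ^ p) n
    have h4 : ∑ i ∈ range (2 * n + 1), gap p (s (n ^ 2 + i)) n =
        ∑ i ∈ range (2 * n + 1), s (n ^ 2 + i) ^ p - ((2 * n + 1) * cc n ^ p +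
          p * cc n ^ (p - 1) * (∑ i ∈ range (2 * n + 1), s (n ^ 2 + i) - 1 / 2)) := by
      simp only [gap, sum_sub_distrib, sum_add_distrib, ← mul_sum, sum_const, card_range,
        nsmul_eq_mul]
      have : ((2 * n + 1 : ℕ) : ℝ) * cc n = 1 / 2 := by
        unfold cc
        push_cast
        field_simp
      rw [this]
      push_cast
      ring
    have h5 : cc (n + 1) ^ (p - 1) ≤ cc n ^ (p - 1) :=
      Real.rpow_le_rpow (cc_pos _).le (cc_anti (Nat.lt_succ_self n)).le (by linarith)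
    have h6 := h n
    have h7 : p * cc (n + 1) ^ (p - 1) * (∑ j ∈ range ((n + 1) ^ 2), s j - (n + 1) / 2) ≤
        p * cc n ^ (p - 1) * (∑ j ∈ range ((n + 1) ^ 2), s j - (n + 1) / 2) := by
      gcongr
    rw [sum_range_succ, h1, h3, h4]
    push_cast
    rw [h2] at h7 ⊢
    nlinarith

theorem sphereValue_eq (p : ℝ) :
    sphereValue p = ∑' k : ℕ, ENNReal.ofReal ((2 * k + 1) * cc k ^ p) := rfl

theorem sphereValue_ne_top {p : ℝ} (hp : 2 < p) : sphereValue p ≠ ⊤ := by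
  rw [sphereValue_eq]
  refine Summable.tsum_ofReal_ne_top ?_
  have h1 : Summable fun k : ℕ => ((k + 1 : ℕ) : ℝ) ^ (1 - p) :=
    (summable_nat_add_iff 1).2 (Real.summable_nat_rpow.2 (by linarith))
  refine h1.of_nonneg_of_le (fun k => by have := cc_pos k; positivity) fun k => ?_
  have h2 : (0 : ℝ) < 2 * k + 1 := by positivity
  have h3 : cc k ^ p ≤ (2 * k + 1 : ℝ)⁻¹ ^ p := by
    refine Real.rpow_le_rpow (cc_pos k).le ?_ (by linarith)
    unfold cc
    rw [one_div]
    exact inv_anti₀ h2 (by linarith)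
  calc (2 * k + 1) * cc k ^ p ≤ (2 * k + 1) * (2 * k + 1 : ℝ)⁻¹ ^ p := by gcongr
    _ = (2 * k + 1 : ℝ) ^ (1 - p) := by
      rw [Real.inv_rpow h2.le, Real.rpow_sub h2, Real.rpow_one, div_eq_mul_inv]
    _ ≤ _ := by
      refine Real.rpow_le_rpow_of_nonpos (by positivity) ?_ (by linarith)
      push_cast
      have : (0 : ℝ) ≤ k := by positivity
      linarith

theorem major_aux {s : ℕ → ℝ} {p : ℝ} (hp : 1 < p) (hs : ∀ j, 0 ≤ s j)
    (h : ∀ n : ℕ, ((n : ℝ) + 1) / 2 ≤ ∑ j ∈ range ((n + 1) ^ 2), s j) (j : ℕ) :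
    sphereValue p + ENNReal.ofReal (gap p (s j) (Nat.sqrt j)) ≤
      ∑' j, ENNReal.ofReal (s j ^ p) := by
  have hg : ∀ j, 0 ≤ gap p (s j) (Nat.sqrt j) := fun j =>
    sub_nonneg.2 (tangent_le (cc_pos _) (hs j) hp)
  have ht : ∀ k : ℕ, 0 ≤ (2 * k + 1) * cc k ^ p := fun k => by have := cc_pos k; positivity
  rw [sphereValue_eq, ENNReal.tsum_eq_iSup_nat, ENNReal.iSup_add]
  refine iSup_le fun m => ?_
  let n := m + j + 1
  have h1 := major_sum hp h n
  have h2 : 0 ≤ p * cc n ^ (p - 1) * (∑ j ∈ range (n ^ 2), s j - n / 2) := by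
    have := cc_pos n
    have h3 := h (m + j)
    refine mul_nonneg (by positivity) (sub_nonneg.2 ?_)
    simpa [n] using h3
  have h3 : gap p (s j) (Nat.sqrt j) ≤ ∑ j ∈ range (n ^ 2), gap p (s j) (Nat.sqrt j) :=
    single_le_sum (f := fun j => gap p (s j) (Nat.sqrt j)) (fun i _ => hg i)
      (mem_range.2 (lt_of_lt_of_le (show j < n by omega) (Nat.le_self_pow two_ne_zero n)))
  have h4 : ∑ k ∈ range m, (2 * k + 1) * cc k ^ p ≤ ∑ k ∈ range n, (2 * k + 1) * cc k ^ p :=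
    sum_le_sum_of_subset_of_nonneg (range_subset_range.2 (by omega)) fun i _ _ => ht i
  rw [← ENNReal.ofReal_sum_of_nonneg fun i _ => ht i,
    ← ENNReal.ofReal_add (sum_nonneg fun i _ => ht i) (hg j)]
  refine le_trans ?_ (ENNReal.sum_le_tsum (range (n ^ 2)))
  rw [← ENNReal.ofReal_sum_of_nonneg fun i _ => Real.rpow_nonneg (hs i) p]
  exact ENNReal.ofReal_le_ofReal (by linarith)

theorem major_le {s : ℕ → ℝ} {p : ℝ} (hp : 1 < p) (hs : ∀ j, 0 ≤ s j)
    (h : ∀ n : ℕ, ((n : ℝ) + 1) / 2 ≤ ∑ j ∈ range ((n + 1) ^ 2), s j) :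
    sphereValue p ≤ ∑' j, ENNReal.ofReal (s j ^ p) :=
  le_self_add.trans (major_aux hp hs h 0)

theorem major_eq {s : ℕ → ℝ} {p : ℝ} (hp : 2 < p) (hs : ∀ j, 0 ≤ s j)
    (h : ∀ n : ℕ, ((n : ℝ) + 1) / 2 ≤ ∑ j ∈ range ((n + 1) ^ 2), s j)
    (he : ∑' j, ENNReal.ofReal (s j ^ p) = sphereValue p) (j : ℕ) : s j = cc (Nat.sqrt j) := by
  have h1 := major_aux (by linarith : 1 < p) hs h j
  rw [he] at h1
  by_contra hne
  have h2 : 0 < gap p (s j) (Nat.sqrt j) :=
    sub_pos.2 (tangent_lt (cc_pos _) (hs j) (by linarith) hne)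
  exact (ENNReal.lt_add_right (sphereValue_ne_top hp) (ENNReal.ofReal_pos.2 h2).ne').not_ge h1

theorem major_ge {s : ℕ → ℝ} {p : ℝ} (hp : 0 < p) (hs : ∀ j, 0 ≤ s j)
    (h : ∀ j, s j ≤ cc (Nat.sqrt j)) : ∑' j, ENNReal.ofReal (s j ^ p) ≤ sphereValue p := by
  have ht : ∀ k : ℕ, 0 ≤ (2 * k + 1) * cc k ^ p := fun k => by have := cc_pos k; positivity
  have h1 : ∀ n, ∑ j ∈ range (n ^ 2), cc (Nat.sqrt j) ^ p =
      ∑ k ∈ range n, (2 * k + 1) * cc k ^ p := by
    intro n
    induction n with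
    | zero => simp
    | succ n ih =>
      rw [sum_block (fun _ k => cc k ^ p) n, ih, sum_range_succ _ n]
      simp
  rw [ENNReal.tsum_eq_iSup_nat]
  refine iSup_le fun m => le_trans ?_ (ENNReal.sum_le_tsum (range m))
  change _ ≤ ∑ k ∈ range m, ENNReal.ofReal ((2 * k + 1) * cc k ^ p)
  rw [← ENNReal.ofReal_sum_of_nonneg fun i _ => ht i,
    ← ENNReal.ofReal_sum_of_nonneg fun i _ => Real.rpow_nonneg (hs i) p, ← h1]
  refine ENNReal.ofReal_le_ofReal ((sum_le_sum fun j _ =>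
    Real.rpow_le_rpow (hs j) (h j) hp.le).trans ?_)
  exact sum_le_sum_of_subset_of_nonneg (range_subset_range.2 (Nat.le_self_pow two_ne_zero m))
    fun i _ _ => Real.rpow_nonneg (cc_pos _).le p

end Pool.Agent.MP_ec20d8_an

end

-- part MP_ec20d8_an.Sphere
section

/-!
The singular values on a round sphere, and the main theorem.
-/

open MeasureTheory MvPolynomial Module Set Metric Filter Topology
open scoped RealInnerProductSpace ContDiff

namespace Pool.Agent.MP_ec20d8_an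

namespace Dom

variable (D : Dom)

/-- Boundary values of polynomials. -/
noncomputable def T (a : E3) : P3 →ₗ[ℝ] L2 D.σ := D.rS ∘ₗ (ev a).toLinearMap

theorem T_ae (a : E3) (p : P3) : D.T a p =ᵐ[D.σ] ev a p := D.rS_ae _

theorem dense_T (a : E3) : Dense (LinearMap.range (D.T a) : Set (L2 D.σ)) := by
  rw [Submodule.dense_iff_topologicalClosure_eq_top, Submodule.topologicalClosure_eq_top_iff,
    Submodule.eq_bot_iff]
  intro φ hφ
  have hi := (Lp.memLp φ).integrable one_le_two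
  refine Lp.eq_zero_iff_ae_eq_zero.2 (ae_eq_zero_of_integral_contDiff_smul_eq_zero
    hi.locallyIntegrable fun g hg _ => ?_)
  let f : C(E3, ℝ) := ⟨g, hg.continuous⟩
  have h1 : ⟪D.rS f, φ⟫ = ∫ x, g x • φ x ∂D.σ := inner_ae (D.rS_ae f) (ae_eq_refl _)
  rw [← h1, ← abs_nonpos_iff]
  refine le_of_forall_pos_le_add fun ε hε => ?_
  have hc : 0 < ∫ x, |φ x| ∂D.σ + 1 := by positivity
  obtain ⟨_, ⟨p, rfl⟩, hp⟩ :=
    ContinuousMap.exists_mem_subalgebra_near_continuous_of_isCompact_of_separatesPoints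
      (A := (ev a).range) (fun x y hxy => by
        obtain ⟨i, hi⟩ : ∃ i, x i ≠ y i := by
          by_contra h
          push Not at h
          exact hxy (PiLp.ext h)
        exact ⟨_, ⟨ev a (X i), ⟨X i, rfl⟩, rfl⟩, by simpa [ev_X] using hi⟩) f D.isCompact_S
      (div_pos hε hc)
  have h2 : ⟪D.rS f, φ⟫ = -⟪D.rS (ev a p - f), φ⟫ := by
    rw [map_sub, inner_sub_left, show ⟪D.rS (ev a p), φ⟫ = 0 from hφ _ ⟨p, rfl⟩]
    ring
  rw [h2, abs_neg, inner_ae (D.rS_ae _) (ae_eq_refl _), zero_add]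
  refine (Real.norm_eq_abs _).ge.trans <| (norm_integral_le_of_norm_le (hi.abs.const_mul (ε / (∫ x, |φ x| ∂D.σ + 1)))
    (D.ae_S.mono fun y hy => ?_)).trans ?_
  · rw [norm_mul]
    exact mul_le_mul_of_nonneg_right (hp y hy).le (norm_nonneg _)
  · rw [integral_const_mul, div_mul_eq_mul_div, div_le_iff₀ hc]
    nlinarith

theorem T_inj (hne : D.S.Nonempty) (a : E3) {p : P3} (hl : lap p = 0) (h : D.T a p = 0) :
    p = 0 := by
  have h1 := D.op_G (G := fun i => ev a (gr p i.succ)) (contDiff_ev a p)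
    (fun i => pd_ev a i p) (fun i => contDiff_ev a _) (div_ev a ((dv_gr _).trans hl))
  rw [show D.rS (ev a p) = 0 from h, inner_zero_left] at h1
  have h2 := eq_C_of_pderiv fun i => D.rO_inj hne a (inner_self_eq_zero.1
    ((Finset.sum_eq_zero_iff_of_nonneg fun _ _ => real_inner_self_nonneg).1 h1 i
      (Finset.mem_univ i)))
  rw [h2, ← mul_one (C _), ← smul_eq_C_mul, map_smul, smul_eq_zero] at h
  rw [h2, h.resolve_right (by simpa [T] using D.one_ne hne), C_0]

variable {D} {a : E3} {r : ℝ}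

theorem n_sphere (hr : 0 < r) (h : D.S = sphere a r) {y : E3} (hy : y ∈ D.S) :
    D.n y = r⁻¹ • (y - a) := by
  have hΩ := (D.ball_of_sphere ⟨y, hy⟩ h.le).2
  have h1 : ‖y - a‖ = r := mem_sphere_iff_norm.1 (h ▸ hy)
  have hn := D.norm_n hy
  have key : ∀ v, ⟪y - a, v⟫ < 0 → ⟪D.n y, v⟫ ≤ 0 := fun v hv => by
    by_contra h2
    have h3 : ∀ᶠ δ : ℝ in 𝓝[>] 0, δ * ‖v‖ ^ 2 < -(2 * ⟪y - a, v⟫) :=
      Tendsto.eventually (tendsto_nhdsWithin_of_tendsto_nhds (Continuous.tendsto'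
        (f := fun δ : ℝ => δ * ‖v‖ ^ 2) (by fun_prop) 0 0 (by simp))) (gt_mem_nhds (by linarith))
    obtain ⟨δ, ⟨h4, h5⟩, h6 : 0 < δ⟩ :=
      (((D.ev_out hy (not_le.1 h2)).and h3).and self_mem_nhdsWithin).exists
    refine h4.not_gt (D.mem_iff.1 ?_)
    rw [hΩ, mem_ball_iff_norm, ← pow_lt_pow_iff_left₀ (norm_nonneg _) hr.le two_ne_zero,
      add_sub_right_comm, norm_add_sq_real, h1, real_inner_smul_right, norm_smul,
      Real.norm_of_nonneg h6.le]
    nlinarith
  by_contra h2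
  have h3 : ‖r⁻¹ • (y - a)‖ = 1 := by
    rw [norm_smul, h1, norm_inv, Real.norm_of_nonneg hr.le, inv_mul_cancel₀ hr.ne']
  have h4 := (inner_lt_one_iff_real_of_norm_eq_one hn h3).2 h2
  have h5 := key (D.n y - r⁻¹ • (y - a)) (by
    have : y - a = r • r⁻¹ • (y - a) := by rw [smul_smul, mul_inv_cancel₀ hr.ne', one_smul]
    conv_lhs => arg 2; rw [this]
    rw [real_inner_smul_left, inner_sub_right, real_inner_self_eq_norm_sq, h3, real_inner_comm]
    nlinarith)
  rw [inner_sub_right, real_inner_self_eq_norm_sq, hn] at h5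
  linarith

theorem K_sphere (hr : 0 < r) (h : D.S = sphere a r) (φ : L2 D.σ) :
    D.opK φ = (2 * r)⁻¹ • D.opS φ := by
  refine Lp.ext ?_
  filter_upwards [D.kerK.op_ae φ, D.kerS.op_ae φ, Lp.coeFn_smul (2 * r)⁻¹ (D.opS φ), D.ae_S]
    with x h1 h2 h3 hx
  rw [h3, Pi.smul_apply, opK, opS, h1, h2, smul_eq_mul, ← integral_const_mul]
  refine integral_congr_ae ?_
  filter_upwards [D.ae_S, D.σ.ae_ne x] with y hy hyx
  have h4 : ‖y - a‖ = r := mem_sphere_iff_norm.1 (h ▸ hy)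
  have h5 : ‖x - a‖ = r := mem_sphere_iff_norm.1 (h ▸ hx)
  have h6 : ⟪y - a, y - x⟫ = ‖y - x‖ ^ 2 / 2 := by
    have := norm_sub_sq_real (y - a) (y - x)
    rw [show y - a - (y - x) = x - a by abel, h4, h5] at this
    linarith
  have h7 := norm_pos_iff.2 (sub_ne_zero.2 hyx)
  rw [kk_eq, sum_gg_n, neg_neg, n_sphere hr h hy, real_inner_smul_left, h6, Gm, ww_zero]
  field_simp

theorem eigen (hr : 0 < r) (h : D.S = sphere a r) {p : P3} {k : ℕ} (hp : p.IsHomogeneous k)
    (hl : lap p = 0) : D.opK (D.T a p) = cc k • D.T a p := by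
  have h1 : D.nv a (gr p) = (k / r) • D.T a p := by
    refine Lp.ext ?_
    rw [nv_apply]
    filter_upwards [D.nrm_ae fun i => ev a (gr p i.succ), Lp.coeFn_smul (k / r) (D.T a p),
      D.T_ae a p, D.ae_S] with y h1 h2 h3 hy
    have h4 := congrArg (fun q => ev a q y) hp.sum_X_mul_pderiv
    simp only [map_sum, map_mul, ContinuousMap.coe_sum, Finset.sum_apply, ContinuousMap.mul_apply,
      ev_X, nsmul_eq_mul, map_natCast, ContinuousMap.natCast_apply] at h4
    rw [h1, h2, Pi.smul_apply, h3, n_sphere hr h hy, smul_eq_mul, div_mul_eq_mul_div, ← h4,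
      Finset.sum_div]
    refine Finset.sum_congr rfl fun i _ => ?_
    simp only [gr_succ, PiLp.smul_apply, PiLp.sub_apply, smul_eq_mul]
    ring
  have h2 := D.S_nv a hl
  rw [h1, map_smul, B_apply, K_sphere hr h] at h2
  change _ = (1 / 2 : ℝ) • D.T a p - (2 * r)⁻¹ • D.opS (D.T a p) at h2
  have h3 : (1 / 2 : ℝ) • D.T a p = (k / r + (2 * r)⁻¹) • D.opS (D.T a p) := by
    rw [add_smul, h2, sub_add_cancel]
  rw [K_sphere hr h, show cc k = 2 * cc k * (1 / 2) by ring, mul_smul, h3, smul_smul]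
  congr 1
  unfold cc
  field_simp

theorem upper (hr : 0 < r) (h : D.S = sphere a r) (j : ℕ) :
    singularValue D.opK j ≤ cc (Nat.sqrt j) := by
  have hne : D.S.Nonempty := h ▸ NormedSpace.sphere_nonempty.2 hr.le
  have h1 := finrank_sphere (D.T a) (c := r ^ 2) fun q => by
    refine Lp.ext ?_
    filter_upwards [D.T_ae a ((X 0 ^ 2 + X 1 ^ 2 + X 2 ^ 2) * q), Lp.coeFn_smul (r ^ 2) (D.T a q),
      D.T_ae a q, D.ae_S] with y h1 h2 h3 hy
    have h4 : ‖y - a‖ = r := mem_sphere_iff_norm.1 (h ▸ hy)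
    rw [h1, h2, Pi.smul_apply, h3, ← h4, EuclideanSpace.real_norm_sq_eq, Fin.sum_univ_three]
    simp [ev_X]
  have h2 : ∀ n, (Pd (n + 1) ⊓ LinearMap.ker lap).map (D.T a) = (Pd (n + 1)).map (D.T a) := by
    intro n
    refine Submodule.eq_of_le_of_finrank_le (Submodule.map_mono inf_le_left)
      ((h1 n).trans ((finrank_harm n).trans_eq ?_))
    rw [← LinearMap.range_domRestrict, LinearMap.finrank_range_of_inj]
    exact (injective_iff_map_eq_zero _).2 fun z hz => Subtype.ext (D.T_inj hne a z.2.2 hz)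
  refine singularValue_le_of_eigen D.opK (fun φ ψ => by
    rw [K_sphere hr h, K_sphere hr h, real_inner_smul_left, real_inner_smul_right, S_symm])
    cc_anti (fun k => (cc_pos k).le) ((Pd (Nat.sqrt j)).map (D.T a)) ?_ (D.dense_T a) ?_
  · refine le_trans ?_ (Nat.sqrt_le' j)
    rcases Nat.sqrt j with _ | n
    · rw [show Pd 0 = ⊥ from (Submodule.eq_bot_iff _).2 fun p hp =>
        MvPolynomial.ext _ _ fun d => mem_Pd.1 hp d (Nat.zero_le _)]
      simp
    · exact h1 n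
  · rintro _ ⟨p, rfl⟩
    obtain ⟨q, hq, h3⟩ := (h2 _).ge ⟨p, exists_Pd p, rfl⟩
    refine ⟨q.totalDegree + 1, fun k => D.T a (homogeneousComponent k q), ?_, fun k =>
      eigen hr h (homogeneousComponent_isHomogeneous k q) (lap_component hq.2 k),
      fun k hk => ⟨_, mem_Pd.2 fun d hd => ?_, rfl⟩⟩
    · rw [← map_sum, sum_homogeneousComponent, h3]
    · rw [coeff_homogeneousComponent, if_neg (by omega)]

end Dom

theorem main (Ω : Set E3) (ρ : E3 → ℝ) (hρ : IsDefiningFunction Ω ρ) (hb : Bornology.IsBounded Ω)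
    (hc : IsConnected (frontier Ω)) (p : ℝ) (hp : 2 < p) :
    ∃ t, HasSchattenPow (surfaceMeasure Ω) (npKernel ρ) p t ∧ sphereValue p ≤ t ∧
      (t = sphereValue p ↔ ∃ a r, 0 < r ∧ frontier Ω = Metric.sphere a r) := by
  let D : Dom := ⟨Ω, ρ, hρ, hb⟩
  have hS : frontier Ω = D.S := D.frontier_eq
  rw [hS] at hc ⊢
  have h1 := D.lower hc.nonempty
  have h0 := singularValue_nonneg D.opK
  have h2 := major_le (by linarith : 1 < p) h0 h1
  refine ⟨schattenPow D.opK p, ⟨D.opK, D.kerK.op_ae, rfl⟩, h2, fun h => ?_, ?_⟩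
  · have h3 := major_eq hp h0 h1 h
    exact D.sphere_of_eq hc (by rw [h3]; norm_num [cc]) (by rw [h3]; norm_num [cc])
  · rintro ⟨a, r, hr, h⟩
    exact le_antisymm (major_ge (by linarith) h0 (Dom.upper hr h)) h2

end Pool.Agent.MP_ec20d8_an

end
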